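import Pool.Agent.H59.EX.Out0

/-!
# Elementary facts used by all stages
-/

open MeasureTheory ProbabilityTheory unitInterval

namespace Pool.Agent.H59.EX

open Pool.Agent.H89.Perc Pool.Agent.H61.NC

section clus

variable {ω ω' : Config} {D D' X S Z : Set Vert} {a b x : Vert} {e : Edge} {t : Set Edge}

theorem clus_sub : clus ω D X ⊆ D := by
  rintro v ⟨x, _, h⟩
  exact h.mem_right

theorem clus_step (ha : a ∈ clus ω D X) (h : Step ω D a b) : b ∈ clus ω D X := by
  obtain ⟨x, hx, hxa⟩ := ha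
  exact ⟨x, hx, hxa.tail h⟩

theorem clus_conn (ha : a ∈ clus ω D X) (h : Conn ω D a b) : b ∈ clus ω D X := by
  obtain ⟨x, hx, hxa⟩ := ha
  exact ⟨x, hx, hxa.trans h⟩

theorem mem_clus (hx : x ∈ X) (h : Conn ω D x b) : b ∈ clus ω D X := by
  exact ⟨x, hx, h⟩

theorem mem_clus_single : b ∈ clus ω D {x} ↔ Conn ω D x b := by
  constructor
  · rintro ⟨y, hy, h⟩
    rw [Set.mem_singleton_iff.1 hy] at h
    exact h
  · intro h
    exact ⟨x, Set.mem_singleton x, h⟩

theorem clus_mono (hD : D ⊆ D') (hω : ∀ e, ω e = true → ω' e = true) :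
    clus ω D X ⊆ clus ω' D' X := by
  rintro v ⟨x, hx, h⟩
  exact ⟨x, hx, h.mono hD hω⟩

/-- A path starting in the cluster stays in the cluster. -/
theorem conn_in_clus (ha : a ∈ clus ω D X) (h : Conn ω D a b) : Conn ω (clus ω D X) a b := by
  refine h.induction_right (P := fun b => Conn ω (clus ω D X) a b) (Conn.refl ha) ?_
  intro a' b' h1 h2 h3
  exact h3.tail ⟨clus_conn ha h1, clus_conn ha (h1.tail h2), h2.2.2⟩

/-- A path starting outside the cluster stays outside the cluster. -/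
theorem conn_off_clus (ha : a ∉ clus ω D X) (h : Conn ω D a b) :
    Conn ω (D \ clus ω D X) a b := by
  refine h.induction_right (P := fun b => Conn ω (D \ clus ω D X) a b)
    (Conn.refl ⟨h.mem_left, ha⟩) ?_
  intro a' b' h1 h2 h3
  have h4 : a' ∉ clus ω D X := fun h5 => ha (clus_conn h5 h1.symm)
  have h5 : b' ∉ clus ω D X := fun h6 => ha (clus_conn h6 (h1.tail h2).symm)
  exact h3.tail ⟨⟨h2.1, h4⟩, ⟨h2.2.1, h5⟩, h2.2.2⟩

theorem fillV_true : fillV Z ω e = true ↔ ω e = true ∨ e ∈ inE Z := by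
  classical
  unfold fillV
  rw [Bool.or_eq_true, decide_eq_true_iff]

theorem closeS_true : closeS t ω e = true ↔ ω e = true ∧ e ∉ t := by
  classical
  unfold closeS
  rw [Bool.and_eq_true, decide_eq_true_iff]

theorem fillV_mono (hZ : S ⊆ Z) : fillV S ω e = true → fillV Z ω e = true := by
  rw [fillV_true, fillV_true]
  rintro (h | h)
  · exact Or.inl h
  · exact Or.inr ⟨hZ h.1, hZ h.2⟩

theorem inE_of_joins (hj : Joins e a b) : e ∈ inE S ↔ a ∈ S ∧ b ∈ S := by
  rcases hj with ⟨h1, h2⟩ | ⟨h1, h2⟩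
  · rw [h1, h2]
    exact Iff.rfl
  · rw [h1, h2]
    exact and_comm

theorem touch_of_joins (hj : Joins e a b) :
    e ∈ touch D S ↔ (a ∈ D ∧ b ∈ D) ∧ (a ∈ S ∨ b ∈ S) := by
  have h := inE_of_joins (S := D) hj
  constructor
  · rintro ⟨h1, h2⟩
    refine ⟨h.1 h1, ?_⟩
    rcases hj with ⟨h3, h4⟩ | ⟨h3, h4⟩
    · rwa [h3, h4]
    · rw [h3, h4]
      exact h2.symm
  · rintro ⟨h1, h2⟩
    refine ⟨h.2 h1, ?_⟩
    rcases hj with ⟨h3, h4⟩ | ⟨h3, h4⟩
    · rwa [h3, h4] at h2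
    · rw [h3, h4] at h2
      exact h2.symm

/-- Filled sets are connected. -/
theorem conn_fillV (hZ : Z ⊆ D) (h : Conn allOpen Z a b) : Conn (fillV Z ω) D a b := by
  refine h.induction_right (P := fun b => Conn (fillV Z ω) D a b) (Conn.refl (hZ h.mem_left)) ?_
  rintro a' b' _ ⟨h1, h2, e, he, _⟩ h3
  exact h3.tail ⟨hZ h1, hZ h2, e, he, fillV_true.2 (Or.inr ((inE_of_joins he).2 ⟨h1, h2⟩))⟩

/-- The configurations `ω` and `s.cut ω` agree off `ball 0 2`. -/
theorem cut_of_not_ball {s : Src} {e : Edge} (h : src e ∉ ball 0 2 ∨ tgt e ∉ ball 0 2) :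
    s.cut ω e = ω e := by
  have h1 : e ∉ (s.E0 : Set Edge) := by
    intro he
    have h2 := s.hE e (Finset.mem_coe.1 he)
    rcases h with h | h
    · exact h h2.1
    · exact h h2.2
  have h2 : s.cut ω e = true ↔ ω e = true := by
    unfold Src.cut
    rw [closeS_true]
    exact ⟨fun h => h.1, fun h => ⟨h, h1⟩⟩
  exact Bool.eq_iff_iff.2 h2

theorem cut_le {s : Src} {e : Edge} (h : s.cut ω e = true) : ω e = true := by
  unfold Src.cut at h
  exact (closeS_true.1 h).1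

private theorem fact_near (hj : Joins e a b) :
    b.1 ≤ a.1 + 1 ∧ a.1 ≤ b.1 + 1 ∧ b.2 ≤ a.2 + 1 ∧ a.2 ≤ b.2 + 1 := by
  have h : Step allOpen Set.univ a b := ⟨trivial, trivial, e, hj, rfl⟩
  exact ⟨h.fst_le.1, h.fst_le.2, h.snd_le.1, h.snd_le.2⟩

/-- The neighbours of a vertex of the ball which is not on the sphere are in the ball. -/
theorem mem_sphere_of_joins {r : ℕ} (hj : Joins e a b) (ha : a ∈ ball 0 r) (hb : b ∉ ball 0 r) :
    a ∈ sphere 0 r := by
  refine ⟨ha, ?_⟩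
  have h := fact_near hj
  simp only [mem_ball] at ha hb
  omega

theorem ball_of_joins (hj : Joins e a b) : a ∈ ball b 1 := by
  have h := fact_near hj
  simp only [mem_ball]
  omega

end clus

section fence

variable {ω ω' : Config} {D D' : Set Vert} {x y : Vert} {d : Side} {k : ℕ}

theorem fence_mono (hD : D ⊆ D') (hω : ∀ e, ω e = true → ω' e = true) (h : Fence d k ω D x) :
    Fence d k ω' D' x := by
  cases d
  all_goals
    obtain ⟨u, v, h1, h2, h3, h4⟩ := h
    exact ⟨u, v, h1, h2, h3.mono subset_rfl hω, h4.mono hD hω⟩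

theorem fence_congr (hT : ∀ e ∈ inE (T d k), ω e = ω' e) (hD : ∀ e ∈ inE D, ω e = ω' e)
    (h : Fence d k ω D x) : Fence d k ω' D x := by
  cases d
  all_goals
    obtain ⟨u, v, h1, h2, h3, h4⟩ := h
    exact ⟨u, v, h1, h2, h3.congr (fun e h5 h6 => hT e ⟨h5, h6⟩),
      h4.congr (fun e h5 h6 => hD e ⟨h5, h6⟩)⟩

/-- A fence of `y` is a fence of `x` if `x` is joined to `y`. -/
theorem fence_trans (h1 : Conn ω D x y) (h2 : Fence d k ω D y) : Fence d k ω D x := by
  cases d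
  all_goals
    obtain ⟨u, v, h3, h4, h5, h6⟩ := h2
    exact ⟨u, v, h3, h4, h5, h1.trans h6⟩

/-- The fence gives a vertex of the target joined to `x`. -/
theorem fence_mem (h : Fence d k ω D x) : ∃ u ∈ T d k, Conn ω D x u := by
  cases d
  all_goals
    obtain ⟨u, v, _, _, h5, h6⟩ := h
    exact ⟨u, h5.mem_left, h6⟩

end fence

section stages

variable {ω : Config} {s : Src} {w ρ ρ' : ℕ} {v v' : Vert} {d d' : Side} {Z Zy : Set Vert}
  {Nev Ny : Set Config}

private theorem fact_ball_mono {z : Vert} {r r' : ℕ} (h : r ≤ r') : ball z r ⊆ ball z r' := by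
  intro a ha
  simp only [mem_ball] at ha ⊢
  omega

theorem corr_inter (hK : CorrData w ρ v d Z Nev) : Z ∩ ball 0 (8 * w) ⊆ ball v (5 * ρ) := by
  rintro a ⟨ha, hb⟩
  exact hK.inter a ha a hb self_mem_ball

/-- Corridors stay away from the source. -/
theorem corr_far (hK : CorrData w ρ v d Z Nev) (hρ : 1 ≤ ρ) (hw : 64 * ρ ≤ w)
    (hv : v ∈ sphere 0 (8 * w)) {a : Vert} (ha : a ∈ Z) : a ∉ ball 0 (4 * w) := by
  intro hb
  have h1 : a ∈ ball v (5 * ρ) := corr_inter hK ⟨ha, fact_ball_mono (by omega) hb⟩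
  obtain ⟨h2, h3⟩ := hv
  simp only [mem_ball, Prod.fst_zero, Prod.snd_zero, Nat.cast_mul, Nat.cast_ofNat] at hb h1 h2 h3
  have h4 : (64 : ℤ) * ρ ≤ w := by exact_mod_cast hw
  have h5 : (1 : ℤ) ≤ ρ := by exact_mod_cast hρ
  omega

theorem corr_cut (hK : CorrData w ρ v d Z Nev) (hρ : 1 ≤ ρ) (hw : 64 * ρ ≤ w)
    (hv : v ∈ sphere 0 (8 * w)) {e : Edge} (he : e ∈ inE Z) : s.cut ω e = ω e := by
  refine cut_of_not_ball (Or.inl fun h => ?_)
  exact corr_far hK hρ hw hv he.1 (fact_ball_mono (by omega) h)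

theorem corr_sub160 (hK : CorrData w ρ v d Z Nev) : Z ⊆ ball 0 (160 * w) := by
  intro a ha
  rcases hK.sub ha with h | h
  · exact fact_ball_mono (by omega) h
  · cases d
    all_goals
      simp only [T, rect, Set.mem_ofPred_eq, Nat.cast_mul, Nat.cast_ofNat] at h
      simp only [mem_ball, Prod.fst_zero, Prod.snd_zero, Nat.cast_mul, Nat.cast_ofNat]
      omega

/-- The cluster of `y` is closed under steps of the filled configuration in `D ∪ Z`. -/
theorem SY_closed (hK : CorrData w ρ v d Z Nev) (hρ : 1 ≤ ρ)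
    (h : Disjoint (SY s w ω) (ball v (11 * ρ))) {a b : Vert} (ha : a ∈ SY s w ω)
    (hs : Step (fillV Z (s.cut ω)) (ball 0 (8 * w) ∪ Z) a b) : b ∈ SY s w ω := by
  have haD : a ∈ ball 0 (8 * w) := clus_sub ha
  have hfar : a ∉ ball v (5 * ρ) := fun h1 =>
    Set.disjoint_left.1 h ha (fact_ball_mono (by omega) h1)
  obtain ⟨_, h2, e, he, ho⟩ := hs
  rw [fillV_true] at ho
  rcases ho with ho | ho
  · by_cases hbD : b ∈ ball 0 (8 * w)
    · exact clus_step ha ⟨haD, hbD, e, he, ho⟩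
    · have hbZ : b ∈ Z := h2.resolve_left hbD
      exact absurd (hK.inter b hbZ a haD (fact_ball_mono hρ (ball_of_joins he))) hfar
  · exact absurd (corr_inter hK ⟨((inE_of_joins he).1 ho).1, haD⟩) hfar

/-- F1. -/
theorem S1_disj_SY (hK : CorrData w ρ v d Z Nev) (hρ : 1 ≤ ρ)
    (h : Disjoint (SY s w ω) (ball v (11 * ρ)))
    (hxy : ¬ Conn (s.cut ω) (ball 0 (8 * w)) s.x s.y) : Disjoint (S1 s w Z ω) (SY s w ω) := by
  rw [Set.disjoint_left]
  intro z hz hz'
  have h1 : Conn (fillV Z (s.cut ω)) (ball 0 (8 * w) ∪ Z) z s.x := (mem_clus_single.1 hz).symm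
  have h2 : s.x ∈ SY s w ω := h1.induction_right (P := fun b => b ∈ SY s w ω) hz'
    fun a b _ h3 h4 => SY_closed hK hρ h h4 h3
  exact hxy (mem_clus_single.1 h2).symm

private theorem fact_sub160 (hK : CorrData w ρ v d Z Nev) :
    ball 0 (8 * w) ∪ Z ⊆ ball 0 (160 * w) :=
  Set.union_subset (fact_ball_mono (by omega)) (corr_sub160 hK)

theorem S1_sub_SH (hK : CorrData w ρ v d Z Nev) : S1 s w Z ω ⊆ SH s w Z ω := by
  exact clus_mono (fact_sub160 hK) fun _ h => h

/-- If the cluster of `x` meets the filled corridor it contains it. -/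
theorem Z_sub_SH (hK : CorrData w ρ v d Z Nev) {a : Vert} (ha : a ∈ Z) (ha' : a ∈ SH s w Z ω) :
    Z ⊆ SH s w Z ω := by
  intro b hb
  exact clus_conn ha' (conn_fillV (corr_sub160 hK) (hK.conn a ha b hb))

theorem Z_sub_S1 (hK : CorrData w ρ v d Z Nev) {a : Vert} (ha : a ∈ Z) (ha' : a ∈ S1 s w Z ω) :
    Z ⊆ S1 s w Z ω := by
  intro b hb
  exact clus_conn ha' (conn_fillV Set.subset_union_right (hK.conn a ha b hb))

theorem Z_sub_SH_of_conf (hK : CorrData w ρ v d Z Nev) (h : ω ∈ Conf s w ρ' d Z) :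
    Z ⊆ SH s w Z ω := by
  obtain ⟨_, hF, _⟩ := h
  obtain ⟨u, hu, hc⟩ := fence_mem hF
  exact Z_sub_SH hK (hK.T_sub hu) hc.mem_right.1

/-- The second corridor misses the confined cluster. -/
theorem Zy_disj_SH (hKy : CorrData w ρ' v' d' Zy Ny) (hS : CorrSep w ρ' v' Z Zy)
    (hρ' : 1 ≤ ρ') (h : ω ∈ Conf s w ρ' d Z) (hd : Disjoint (SH s w Z ω) (ball v' (7 * ρ'))) :
    Disjoint Zy (SH s w Z ω) := by
  rw [Set.disjoint_left] at hd ⊢
  intro z hz hz'
  obtain ⟨_, _, hconf⟩ := h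
  rcases hconf z hz' with h1 | ⟨a, ha, h1⟩ | ⟨a, ha, ha', h1⟩
  · exact hd hz' (fact_ball_mono (by omega) (corr_inter hKy ⟨hz, h1⟩))
  · exact hS.far a ha z hz (fact_ball_mono (by omega) h1)
  · exact hd ha (hS.fringe z hz a ha' h1)

end stages

end Pool.Agent.H59.EX
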