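import Pool.Agent.H59.EX.Defs
import Pool.Agent.H89.Perc.Path

/-!
# Seals: confinement of clusters by closed annuli (purely graph-theoretic)
-/

open MeasureTheory ProbabilityTheory unitInterval

namespace Pool.Agent.H59.EX

open Pool.Agent.H89.Perc

/-- With the edges of `t` closed, no path leads from `ball g ρ` out of `ball g (3 ρ)`, for all
centres `g ∈ G`. -/
def Seal (G : Finset Vert) (ρ : ℕ) (t : Set Edge) : Set Config :=
  {ω | ∀ g ∈ G, ∀ u ∈ ball g ρ, ∀ v, v ∉ ball g (3 * ρ) → ¬ Conn (closeS t ω) Set.univ u v}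

/-- The centres `(ρ i, ρ j)`, `|i|, |j| ≤ K`. -/
noncomputable def grid (ρ K : ℕ) : Finset Vert :=
  (Finset.Icc (-(K : ℤ)) K ×ˢ Finset.Icc (-(K : ℤ)) K).image fun z => ((ρ : ℤ) * z.1, (ρ : ℤ) * z.2)

theorem mem_grid {ρ K : ℕ} {i j : ℤ} (hi : |i| ≤ K) (hj : |j| ≤ K) :
    (((ρ : ℤ) * i, (ρ : ℤ) * j) : Vert) ∈ grid ρ K := by
  rw [abs_le] at hi hj
  have h : ((i, j) : ℤ × ℤ) ∈ Finset.Icc (-(K : ℤ)) K ×ˢ Finset.Icc (-(K : ℤ)) K :=
    Finset.mem_product.2 ⟨Finset.mem_Icc.2 hi, Finset.mem_Icc.2 hj⟩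
  exact Finset.mem_image_of_mem (fun z : ℤ × ℤ => (((ρ : ℤ) * z.1, (ρ : ℤ) * z.2) : Vert)) h

/-- The grid is `ρ`-dense in `ball 0 (K ρ)`. -/
theorem exists_grid {ρ K : ℕ} (hρ : 1 ≤ ρ) {v : Vert} (hv : v ∈ ball 0 (K * ρ)) :
    ∃ g ∈ grid ρ K, v ∈ ball g ρ := by
  have h1 : ∀ a : ℤ, |a| ≤ (K * ρ : ℕ) → ∃ i : ℤ, |i| ≤ K ∧ (ρ : ℤ) * i - ρ ≤ a ∧ a ≤ ρ * i + ρ := by
    intro a ha
    have hρ0 : (0 : ℤ) < ρ := by exact_mod_cast hρ
    rw [abs_le] at ha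
    push_cast at ha
    rcases le_total 0 a with h0 | h0
    · refine ⟨a / ρ, ?_, ?_, ?_⟩
      · rw [abs_le]
        refine ⟨le_trans (by omega) (Int.ediv_nonneg h0 hρ0.le), ?_⟩
        exact Int.ediv_le_of_le_mul hρ0 ha.2
      · have := Int.mul_ediv_self_le (x := a) (k := ρ) hρ0.ne'
        omega
      · have := Int.lt_mul_ediv_self_add (x := a) (k := ρ) hρ0
        omega
    · refine ⟨-((-a) / ρ), ?_, ?_, ?_⟩
      · rw [abs_neg, abs_le]
        refine ⟨le_trans (by omega) (Int.ediv_nonneg (by omega) hρ0.le), ?_⟩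
        exact Int.ediv_le_of_le_mul hρ0 (by omega)
      · have := Int.lt_mul_ediv_self_add (x := -a) (k := ρ) hρ0
        have h2 : (ρ : ℤ) * -(-a / ρ) = -(ρ * (-a / ρ)) := by ring
        omega
      · have := Int.mul_ediv_self_le (x := -a) (k := ρ) hρ0.ne'
        have h2 : (ρ : ℤ) * -(-a / ρ) = -(ρ * (-a / ρ)) := by ring
        omega
  rw [mem_ball] at hv
  simp only [Prod.fst_zero, Prod.snd_zero, zero_sub, zero_add] at hv
  obtain ⟨i, hi, hi1, hi2⟩ := h1 v.1 (abs_le.2 ⟨hv.1, hv.2.1⟩)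
  obtain ⟨j, hj, hj1, hj2⟩ := h1 v.2 (abs_le.2 ⟨hv.2.2.1, hv.2.2.2⟩)
  refine ⟨_, mem_grid hi hj, ?_⟩
  rw [mem_ball]
  exact ⟨hi1, hi2, hj1, hj2⟩

/-- **Seal lemma.**  `η` is a configuration which is below `ω` off `t`; open edges of `η` leave `S`
only at the vertices of `Ex`, do not enter `F` from `S`, and enter `F` from elsewhere only far from
`Ex`; open edges off `S ∪ F` are not in `t`.  If `ω` is sealed near `Ex`, then the cluster of `S`
stays near `S` and off `F`. -/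
theorem seal_confine {η ω : Config} {W S F Ex : Set Vert} {t : Set Edge} {G : Finset Vert} {ρ : ℕ}
    (hηω : ∀ e, e ∉ t → η e = true → ω e = true)
    (hseal : ω ∈ Seal G ρ t)
    (hG : ∀ a ∈ Ex, ∃ g ∈ G, a ∈ ball g ρ)
    (h1 : ∀ a b e, Joins e a b → η e = true → a ∈ W → b ∈ W → a ∈ S → b ∉ S →
      a ∈ Ex ∧ b ∉ F ∧ e ∉ t)
    (h2 : ∀ a b e, Joins e a b → η e = true → a ∈ W → b ∈ W → a ∉ S → a ∉ F → b ∈ F →
      ∀ x ∈ Ex, b ∉ ball x (4 * ρ))
    (h3 : ∀ a b e, Joins e a b → η e = true → a ∈ W → b ∈ W → a ∉ S → a ∉ F → b ∉ S → b ∉ F →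
      e ∉ t)
    (h4 : ∀ a b e, Joins e a b → η e = true → a ∈ W → b ∈ W → a ∉ S → a ∉ F → b ∈ F → e ∉ t)
    {x z : Vert} (hx : x ∈ S) (h : Conn η W x z) :
    z ∈ S ∨ (z ∉ F ∧ ∃ a ∈ Ex, z ∈ ball a (4 * ρ)) := by
  have key : z ∈ S ∨ (z ∉ S ∧ z ∉ F ∧ ∃ a ∈ Ex, Conn (closeS t ω) Set.univ a z) := by
    refine h.induction_right
      (P := fun z => z ∈ S ∨ (z ∉ S ∧ z ∉ F ∧ ∃ a ∈ Ex, Conn (closeS t ω) Set.univ a z))
      (Or.inl hx) ?_
    rintro a b _ ⟨haW, hbW, e, hj, ho⟩ ih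
    have hopen : e ∉ t → (closeS t ω) e = true := by
      intro het
      simp only [closeS, Bool.and_eq_true, decide_eq_true_eq]
      exact ⟨hηω e het ho, het⟩
    by_cases hbS : b ∈ S
    · exact Or.inl hbS
    rcases ih with haS | ⟨haS, haF, c, hc, hcc⟩
    · obtain ⟨k1, k2, k3⟩ := h1 a b e hj ho haW hbW haS hbS
      exact Or.inr ⟨hbS, k2, a, k1, (Step.conn ⟨trivial, trivial, e, hj, hopen k3⟩)⟩
    · by_cases hbF : b ∈ F
      · exfalso
        have hcb : Conn (closeS t ω) Set.univ c b :=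
          hcc.tail ⟨trivial, trivial, e, hj, hopen (h4 a b e hj ho haW hbW haS haF hbF)⟩
        obtain ⟨g, hg, hcg⟩ := hG c hc
        have hb : b ∈ ball g (3 * ρ) := by
          by_contra hb
          exact hseal g hg c hcg b hb hcb
        refine h2 a b e hj ho haW hbW haS haF hbF c hc ?_
        rw [mem_ball] at hb hcg ⊢
        push_cast at hb ⊢
        omega
      · exact Or.inr ⟨hbS, hbF, c, hc, hcc.tail ⟨trivial, trivial, e, hj,
          hopen (h3 a b e hj ho haW hbW haS haF hbS hbF)⟩⟩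
  rcases key with h | ⟨-, hF, a, ha, hac⟩
  · exact Or.inl h
  · refine Or.inr ⟨hF, a, ha, ?_⟩
    obtain ⟨g, hg, hag⟩ := hG a ha
    have hz : z ∈ ball g (3 * ρ) := by
      by_contra hz
      exact hseal g hg a hag z hz hac
    rw [mem_ball] at hz hag ⊢
    push_cast at hz ⊢
    omega

theorem seal_anti {G : Finset Vert} {ρ : ℕ} {t : Set Edge} {ω ω' : Config}
    (h : ω' ∈ Seal G ρ t) (hω : ∀ e, e ∉ t → ω e = true → ω' e = true) : ω ∈ Seal G ρ t := by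
  intro g hg u hu v hv hc
  refine h g hg u hu v hv (hc.mono le_rfl ?_)
  intro e he
  simp only [closeS, Bool.and_eq_true, decide_eq_true_eq] at he ⊢
  exact ⟨hω e he.2 he.1, he.2⟩

theorem locS_seal (G : Finset Vert) (ρ : ℕ) (t : Set Edge) : LocS tᶜ (Seal G ρ t) := by
  intro ω ω' h hω
  refine seal_anti hω fun e he ho => ?_
  rw [h e he]
  exact ho

theorem seal_decr (G : Finset Vert) (ρ : ℕ) (t : Set Edge) : Incr (Seal G ρ t)ᶜ := by
  intro ω ω' h hω hω'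
  exact hω (seal_anti hω' fun e _ he => h e he)

end Pool.Agent.H59.EX
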