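import Pool.Agent.H59.EX.S0
import Pool.Agent.H59.EX.Seal

/-!
# The corridor lemma

`pb π ω` is the configuration `e ↦ ω (π e)`; `π = id` for the plane, the reduction modulo the
periods (and a translation) for the torus and for the cylinder.  Given a separated four-arm event,
increasing events inside the corridor `C` and arbitrary events `H` of the edges which are neither
inside `C` nor touch the two clusters (in the configuration with filled targets) can be added at the
cost of constant factors.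
-/

open MeasureTheory ProbabilityTheory unitInterval

namespace Pool.Agent.H59.EX

open Pool.Agent.H89.Perc

/-- Pulled back configuration. -/
def pb (π : Edge → Edge) (ω : Config) : Config := fun e => ω (π e)

/-- The edges equivalent to an edge of `t`. -/
def sat (π : Edge → Edge) (t : Set Edge) : Set Edge := {e | ∃ e' ∈ t, π e = π e'}

/-- Cluster of the first point with filled targets. -/
def FX (s : Src) (d d' : Side) (k : ℕ) (ω : Config) : Set Vert :=
  clus (fillV (T d k ∪ T d' k) (s.cut ω)) (dom d d' k) {s.x}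

/-- Cluster of the second point with filled targets. -/
def FY (s : Src) (d d' : Side) (k : ℕ) (ω : Config) : Set Vert :=
  clus (fillV (T d k ∪ T d' k) (s.cut ω)) (dom d d' k) {s.y}

/-- The determined edges. -/
def det (π : Edge → Edge) (d d' : Side) (k : ℕ) (C S : Set Vert) : Set Edge :=
  sat π (touch (dom d d' k) S ∪ inE C)

private theorem LocS.mono' {t t' : Set Edge} {A : Set Config} (h : LocS t A) (ht : t ⊆ t') :
    LocS t' A := fun _ _ hω => h _ _ fun e he => hω e (ht he)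

private theorem LocS.inter' {t : Set Edge} {A B : Set Config} (h : LocS t A) (h' : LocS t B) :
    LocS t (A ∩ B) := fun ω ω' hω hm => ⟨h ω ω' hω hm.1, h' ω ω' hω hm.2⟩

private theorem LocS.localOn' {t : Set Edge} {Λ : Finset Edge} {A : Set Config} (h : LocS t A)
    (ht : t ⊆ ↑Λ) : LocalOn Λ A := fun ω ω' hω => h ω ω' fun e he => hω e (by exact_mod_cast ht he)

private theorem locS_pb {π : Edge → Edge} {t : Set Edge} {A : Set Config} (h : LocS t A) :
    LocS (π '' t) {ω | pb π ω ∈ A} := fun _ _ hω hm =>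
  h _ _ (fun e he => hω (π e) ⟨e, he, rfl⟩) hm

private theorem incr_pb {π : Edge → Edge} {A : Set Config} (h : Incr A) :
    Incr {ω | pb π ω ∈ A} := fun _ _ hω hm => h _ _ (fun e he => hω (π e) he) hm

private theorem inE_finite {S : Set Vert} (hS : S.Finite) : (inE S).Finite := by
  refine ((hS.prod (Set.finite_univ (α := Bool))).image
    (fun z : Vert × Bool => ((z.1.1, z.1.2, z.2) : Edge))).subset ?_
  rintro ⟨a, b, t⟩ ⟨h1, -⟩
  exact ⟨((a, b), t), ⟨h1, trivial⟩, rfl⟩

private theorem rect_finite (a b c d : ℤ) : (rect a b c d).Finite := by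
  refine Set.Finite.subset ((Set.finite_Icc a b).prod (Set.finite_Icc c d)) ?_
  rintro ⟨x, y⟩ ⟨h1, h2, h3, h4⟩
  exact ⟨⟨h1, h2⟩, ⟨h3, h4⟩⟩

private theorem T_finite (d : Side) (k : ℕ) : (T d k).Finite := by
  cases d <;> exact rect_finite _ _ _ _

private theorem dom_finite (d d' : Side) (k : ℕ) : (dom d d' k).Finite :=
  (rect_finite _ _ _ _).union ((T_finite d k).union (T_finite d' k))

private theorem touch_mono {D S S' : Set Vert} (h : S ⊆ S') : touch D S ⊆ touch D S' :=
  fun _ he => ⟨he.1, he.2.imp (fun x => h x) fun x => h x⟩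

/-- Configurations which agree on the edges touching the cluster of `x` have the same cluster. -/
private theorem clus_congr {ω ω' : Config} {D X : Set Vert}
    (h : ∀ e ∈ touch D (clus ω D X), ω e = ω' e) : clus ω' D X = clus ω D X :=
  locS_clus D X (clus ω D X) ω ω' h rfl

private theorem conn_congr {ω ω' : Config} {D : Set Vert} {x v : Vert}
    (h : ∀ e ∈ touch D (clus ω D {x}), ω e = ω' e) (hc : Conn ω D x v) : Conn ω' D x v := by
  have h1 : v ∈ clus ω D {x} := ⟨x, rfl, hc⟩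
  rw [← clus_congr h] at h1
  obtain ⟨y, hy, h2⟩ := h1
  rw [Set.mem_singleton_iff.1 hy] at h2
  exact h2

private theorem conn_congr' {ω ω' : Config} {D : Set Vert} {x v : Vert}
    (h : ∀ e ∈ inE D, ω e = ω' e) (hc : Conn ω D x v) : Conn ω' D x v :=
  conn_congr (fun e he => h e he.1) hc

private theorem cut_congr (s : Src) {ω ω' : Config} {e : Edge} (h : ω e = ω' e) :
    s.cut ω e = s.cut ω' e := by
  simp only [Src.cut, closeS, h]

private theorem fill_congr {Z : Set Vert} {ω ω' : Config} {e : Edge}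
    (h : e ∉ inE Z → ω e = ω' e) : fillV Z ω e = fillV Z ω' e := by
  by_cases he : e ∈ inE Z
  · simp [fillV, he]
  · simp [fillV, he, h he]

private theorem cut_mono (s : Src) {ω ω' : Config} (h : ∀ e, ω e = true → ω' e = true) (e : Edge)
    (he : s.cut ω e = true) : s.cut ω' e = true := by
  simp only [Src.cut, closeS, Bool.and_eq_true, decide_eq_true_eq] at he ⊢
  exact ⟨h e he.1, he.2⟩

private theorem le_fill {Z : Set Vert} {ω : Config} (e : Edge) (he : ω e = true) :
    fillV Z ω e = true := by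
  simp [fillV, he]

/-- A fence only looks at the edges of its target and at the edges touching the cluster. -/
private theorem fence_congr {d : Side} {k : ℕ} {ω ω' : Config} {D : Set Vert} {x : Vert}
    (h1 : ∀ e ∈ inE (T d k), ω e = ω' e) (h2 : ∀ e ∈ touch D (clus ω D {x}), ω e = ω' e)
    (h : Fence d k ω D x) : Fence d k ω' D x := by
  cases d <;> obtain ⟨u, v, hu, hv, k1, k2⟩ := h <;>
    exact ⟨u, v, hu, hv, conn_congr' h1 k1, conn_congr h2 k2⟩

private theorem fence_mono {d : Side} {k : ℕ} {ω ω' : Config} {D : Set Vert} {x : Vert}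
    (h1 : ∀ e, ω e = true → ω' e = true) (h : Fence d k ω D x) : Fence d k ω' D x := by
  cases d <;> obtain ⟨u, v, hu, hv, k1, k2⟩ := h <;>
    exact ⟨u, v, hu, hv, k1.mono le_rfl h1, k2.mono le_rfl h1⟩

/-- The part of `Sep` about the filled configuration. -/
private def SepA (s : Src) (d d' : Side) (k : ℕ) : Set Config :=
  {ω | ¬ Conn (fillV (T d k ∪ T d' k) (s.cut ω)) (dom d d' k) s.x s.y ∧
    (∀ v ∈ sphere 0 (32 * k),
      Conn (fillV (T d k ∪ T d' k) (s.cut ω)) (dom d d' k) s.x v → v ∈ Mouth d k) ∧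
    (∀ v ∈ sphere 0 (32 * k),
      Conn (fillV (T d k ∪ T d' k) (s.cut ω)) (dom d d' k) s.y v → v ∈ Mouth d' k)}

/-- The increasing part of `Sep`. -/
private def SepG (s : Src) (d d' : Side) (k : ℕ) : Set Config :=
  {ω | Fence d k (s.cut ω) (dom d d' k) s.x ∧ Fence d' k (s.cut ω) (dom d d' k) s.y}

private theorem sep_eq (s : Src) (d d' : Side) (k : ℕ) : Sep s d d' k = SepA s d d' k ∩ SepG s d d' k := by
  ext ω
  simp only [Sep, SepA, SepG, Set.mem_ofPred_eq, Set.mem_inter_iff]
  tauto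

private theorem T_sub_dom (d d' : Side) (k : ℕ) : T d k ⊆ dom d d' k := fun _ h => Or.inr (Or.inl h)

private theorem T_sub_dom' (d d' : Side) (k : ℕ) : T d' k ⊆ dom d d' k :=
  fun _ h => Or.inr (Or.inr h)

private theorem inE_mono {S S' : Set Vert} (h : S ⊆ S') : inE S ⊆ inE S' :=
  fun _ he => ⟨h he.1, h he.2⟩

private theorem locS_sepA (s : Src) (d d' : Side) (k : ℕ) :
    LocS (inE (dom d d' k) \ inE (T d k ∪ T d' k)) (SepA s d d' k) := by
  rintro ω ω' h ⟨h1, h2, h3⟩
  have key : ∀ e ∈ inE (dom d d' k), fillV (T d k ∪ T d' k) (s.cut ω') e =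
      fillV (T d k ∪ T d' k) (s.cut ω) e := fun e he =>
    fill_congr fun hne => (cut_congr s (h e ⟨he, hne⟩)).symm
  exact ⟨fun hc => h1 (conn_congr' key hc), fun v hv hc => h2 v hv (conn_congr' key hc),
    fun v hv hc => h3 v hv (conn_congr' key hc)⟩

private theorem locS_sepG (s : Src) (d d' : Side) (k : ℕ) :
    LocS (inE (dom d d' k)) (SepG s d d' k) := by
  rintro ω ω' h ⟨h1, h2⟩
  have key : ∀ e ∈ inE (dom d d' k), s.cut ω e = s.cut ω' e := fun e he => cut_congr s (h e he)
  exact ⟨fence_congr (fun e he => key e (inE_mono (T_sub_dom d d' k) he))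
      (fun e he => key e he.1) h1,
    fence_congr (fun e he => key e (inE_mono (T_sub_dom' d d' k) he)) (fun e he => key e he.1) h2⟩

private theorem incr_sepG (s : Src) (d d' : Side) (k : ℕ) : Incr (SepG s d d' k) := by
  rintro ω ω' h ⟨h1, h2⟩
  exact ⟨fence_mono (cut_mono s h) h1, fence_mono (cut_mono s h) h2⟩

private theorem locS_FX (s : Src) (d d' : Side) (k : ℕ) (S : Set Vert) :
    LocS (touch (dom d d' k) S) {ω | FX s d d' k ω = S} := by
  intro ω ω' h hω
  exact locS_clus _ _ S _ _ (fun e he => fill_congr fun _ => cut_congr s (h e he)) hω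

private theorem locS_FY (s : Src) (d d' : Side) (k : ℕ) (S : Set Vert) :
    LocS (touch (dom d d' k) S) {ω | FY s d d' k ω = S} := by
  intro ω ω' h hω
  exact locS_clus _ _ S _ _ (fun e he => fill_congr fun _ => cut_congr s (h e he)) hω

private theorem clus_cut_sub {s : Src} {ω : Config} {Z D X : Set Vert} :
    clus (s.cut ω) D X ⊆ clus (fillV Z (s.cut ω)) D X := by
  rintro v ⟨x, hx, hc⟩
  exact ⟨x, hx, hc.mono le_rfl fun e he => le_fill e he⟩

private theorem mem_FX {s : Src} {d d' : Side} {k : ℕ} {ω : Config} {v : Vert} :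
    v ∈ FX s d d' k ω ↔ Conn (fillV (T d k ∪ T d' k) (s.cut ω)) (dom d d' k) s.x v := by
  simp [FX, clus]

private theorem mem_FY {s : Src} {d d' : Side} {k : ℕ} {ω : Config} {v : Vert} :
    v ∈ FY s d d' k ω ↔ Conn (fillV (T d k ∪ T d' k) (s.cut ω)) (dom d d' k) s.y v := by
  simp [FY, clus]

/-- Once the two clusters are known, `Sep` is decided by the edges touching them and the edges in the
targets. -/
private theorem locS_sep_val (s : Src) (d d' : Side) (k : ℕ) {C : Set Vert}
    (hCT : T d k ∪ T d' k ⊆ C) (S S' : Set Vert) :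
    LocS (touch (dom d d' k) (S ∪ S') ∪ inE C)
      {ω | ω ∈ Sep s d d' k ∧ FX s d d' k ω = S ∧ FY s d d' k ω = S'} := by
  rintro ω ω' h ⟨⟨h1, h2, h3, h4, h5⟩, hX, hY⟩
  have hX' : FX s d d' k ω' = S := locS_FX s d d' k S ω ω'
    (fun e he => h e (Or.inl (touch_mono Set.subset_union_left he))) hX
  have hY' : FY s d d' k ω' = S' := locS_FY s d d' k S' ω ω'
    (fun e he => h e (Or.inl (touch_mono Set.subset_union_right he))) hY
  have cX : ∀ v, Conn (fillV (T d k ∪ T d' k) (s.cut ω')) (dom d d' k) s.x v →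
      Conn (fillV (T d k ∪ T d' k) (s.cut ω)) (dom d d' k) s.x v := fun v hv => by
    rw [← mem_FX] at hv ⊢
    rw [hX]
    rw [hX'] at hv
    exact hv
  have cY : ∀ v, Conn (fillV (T d k ∪ T d' k) (s.cut ω')) (dom d d' k) s.y v →
      Conn (fillV (T d k ∪ T d' k) (s.cut ω)) (dom d d' k) s.y v := fun v hv => by
    rw [← mem_FY] at hv ⊢
    rw [hY]
    rw [hY'] at hv
    exact hv
  refine ⟨⟨?_, ?_, fun hc => h3 (cX _ hc), fun v hv hc => h4 v hv (cX _ hc),
    fun v hv hc => h5 v hv (cY _ hc)⟩, hX', hY'⟩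
  · refine fence_congr (fun e he => cut_congr s (h e (Or.inr ?_))) (fun e he => cut_congr s
      (h e (Or.inl ?_))) h1
    · exact inE_mono (fun v hv => hCT (Or.inl hv)) he
    · refine touch_mono (fun v hv => Or.inl ?_) he
      rw [← hX]
      exact clus_cut_sub hv
  · refine fence_congr (fun e he => cut_congr s (h e (Or.inr ?_))) (fun e he => cut_congr s
      (h e (Or.inl ?_))) h2
    · exact inE_mono (fun v hv => hCT (Or.inr hv)) he
    · refine touch_mono (fun v hv => Or.inr ?_) he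
      rw [← hY]
      exact clus_cut_sub hv

theorem corridor_prob {q : I} {π : Edge → Edge} {s : Src} {d d' : Side} {k : ℕ} (hk : 1 ≤ k)
    {C : Set Vert} {Np : Set Config} {H : Set Vert → Set Config} {c₁ c₂ : ℝ} (hc₁ : 0 ≤ c₁)
    (hc₂ : 0 ≤ c₂) (hinj : Set.InjOn π (inE (dom d d' k ∪ C)))
    (hCT : T d k ∪ T d' k ⊆ C) (hC : C ∩ dom d d' k ⊆ T d k ∪ T d' k) (hCf : C.Finite)
    (hN : LocS (inE C) Np) (iN : Incr Np) (hN1 : c₁ ≤ Pr q {ω | pb π ω ∈ Np})
    (hH : ∀ S, LocS (det π d d' k C S)ᶜ (H S))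
    (hHΛ : ∃ Λ : Finset Edge, ∀ S, LocalOn Λ (H S))
    (hH1 : ∀ S, c₂ ≤ Pr q {ω | pb π ω ∈ H S}) :
    c₁ * c₂ * Pr q (Sep s d d' k) ≤
      Pr q {ω | pb π ω ∈ Sep s d d' k ∧ pb π ω ∈ Np ∧
        pb π ω ∈ H (FX s d d' k (pb π ω) ∪ FY s d d' k (pb π ω))} := by
  classical
  obtain ⟨ΛH, hΛH⟩ := hHΛ
  have hfin : (inE (dom d d' k ∪ C)).Finite := inE_finite ((dom_finite d d' k).union hCf)
  obtain ⟨Λ, hΛ⟩ : ∃ Λ : Finset Edge, Λ = (hfin.toFinset ∪ ΛH).image π := ⟨_, rfl⟩
  have hsub : ∀ t : Set Edge, t ⊆ inE (dom d d' k ∪ C) → π '' t ⊆ ↑Λ := by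
    rintro t ht _ ⟨e, he, rfl⟩
    rw [hΛ, Finset.mem_coe]
    exact Finset.mem_image_of_mem _ (Finset.mem_union_left _ (hfin.mem_toFinset.2 (ht he)))
  have hloc : ∀ {t : Set Edge} {A : Set Config}, LocS t A → t ⊆ inE (dom d d' k ∪ C) →
      LocalOn Λ {ω | pb π ω ∈ A} := fun h ht => (locS_pb h).localOn' (hsub _ ht)
  have hdomsub : inE (dom d d' k) ⊆ inE (dom d d' k ∪ C) := inE_mono Set.subset_union_left
  have hCsub : inE C ⊆ inE (dom d d' k ∪ C) := inE_mono Set.subset_union_right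
  have hZdom : inE (dom d d' k) \ inE (T d k ∪ T d' k) ⊆ inE (dom d d' k ∪ C) :=
    fun e he => hdomsub he.1
  -- Step A
  have hA : c₁ * Pr q (Sep s d d' k) ≤
      Pr q {ω | pb π ω ∈ Sep s d d' k ∧ pb π ω ∈ Np} := by
    have hdisj : π '' inE C ⊆ (π '' (inE (dom d d' k) \ inE (T d k ∪ T d' k)))ᶜ := by
      rintro _ ⟨e, he, rfl⟩ ⟨e', he', heq⟩
      have h1 : e' = e := hinj (hdomsub he'.1) (hCsub he) heq
      subst h1
      exact he'.2 ⟨hC ⟨he.1, he'.1.1⟩, hC ⟨he.2, he'.1.2⟩⟩
    have h1 := fkg_cond (q := q) (Λ := Λ)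
      (t := π '' (inE (dom d d' k) \ inE (T d k ∪ T d' k)))
      (A := {ω | pb π ω ∈ SepA s d d' k}) (G := {ω | pb π ω ∈ SepG s d d' k})
      (H := {ω | pb π ω ∈ Np})
      (hloc (locS_sepA s d d' k) hZdom) (locS_pb (locS_sepA s d d' k))
      (hloc (locS_sepG s d d' k) hdomsub) (incr_pb (incr_sepG s d d' k))
      (hloc hN hCsub) ((locS_pb hN).mono' hdisj) (incr_pb iN)
    have h2 : {ω | pb π ω ∈ SepA s d d' k} ∩ {ω | pb π ω ∈ SepG s d d' k} =
        {ω | pb π ω ∈ Sep s d d' k} := by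
      rw [sep_eq]; rfl
    have h3 : Pr q {ω | pb π ω ∈ Sep s d d' k} = Pr q (Sep s d d' k) := by
      have hl : LocalOn (inE_finite (dom_finite d d' k)).toFinset (Sep s d d' k) := by
        rw [sep_eq]
        refine LocS.localOn' (t := inE (dom d d' k)) ?_ (by simp)
        exact ((locS_sepA s d d' k).mono' Set.sdiff_subset).inter' (locS_sepG s d d' k)
      refine Pr_comp hl ?_
      intro e he e' he' heq
      rw [Set.Finite.coe_toFinset] at he he'
      exact hinj (hdomsub he) (hdomsub he') heq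
    rw [h2, h3] at h1
    calc c₁ * Pr q (Sep s d d' k) ≤ Pr q (Sep s d d' k) * Pr q {ω | pb π ω ∈ Np} := by
          rw [mul_comm]
          exact mul_le_mul_of_nonneg_left hN1 Pr_nonneg
      _ ≤ _ := h1
      _ ≤ _ := Pr_mono fun ω hω => hω
  -- Step B
  have hB := markov_indep (q := q) (Λ := Λ) (c := c₂)
    (fun ω => (FX s d d' k (pb π ω), FY s d d' k (pb π ω))) (fun _ => True)
    (fun i => π '' (touch (dom d d' k) (i.1 ∪ i.2) ∪ inE C))
    (fun i => {ω | pb π ω ∈ {η | η ∈ Sep s d d' k ∧ FX s d d' k η = i.1 ∧ FY s d d' k η = i.2} ∩ Np})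
    (fun i => {ω | pb π ω ∈ H (i.1 ∪ i.2)}) ?_ ?_ ?_ ?_ ?_ ?_ ?_ hc₂
  · refine le_trans ?_ (hB.trans (Pr_mono ?_))
    · have e : c₁ * c₂ * Pr q (Sep s d d' k) = c₂ * (c₁ * Pr q (Sep s d d' k)) := by ring
      rw [e]
      refine (mul_le_mul_of_nonneg_left hA hc₂).trans
        (mul_le_mul_of_nonneg_left (Pr_mono ?_) hc₂)
      intro ω hω
      exact ⟨trivial, ⟨hω.1, rfl, rfl⟩, hω.2⟩
    · intro ω hω
      exact ⟨hω.2.1.1.1, hω.2.1.2, hω.2.2⟩
  · -- the values are local
    rintro ⟨S, S'⟩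
    have h1 : LocS (inE (dom d d' k)) {η | FX s d d' k η = S ∧ FY s d d' k η = S'} :=
      fun ω ω' h hω => ⟨locS_FX s d d' k S ω ω' (fun e he => h e he.1) hω.1,
        locS_FY s d d' k S' ω ω' (fun e he => h e he.1) hω.2⟩
    have h2 := hloc h1 hdomsub
    have h3 : {ω | (FX s d d' k (pb π ω), FY s d d' k (pb π ω)) = (S, S')} =
        {ω | pb π ω ∈ {η | FX s d d' k η = S ∧ FY s d d' k η = S'}} := by
      ext ω
      simp only [Set.mem_ofPred_eq, Prod.mk.injEq]
    rw [h3]
    exact h2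
  · rintro ⟨S, S'⟩ -
    have h1 : LocS (touch (dom d d' k) (S ∪ S') ∪ inE C)
        {η | FX s d d' k η = S ∧ FY s d d' k η = S'} :=
      fun ω ω' h hω => ⟨locS_FX s d d' k S ω ω'
          (fun e he => h e (Or.inl (touch_mono Set.subset_union_left he))) hω.1,
        locS_FY s d d' k S' ω ω'
          (fun e he => h e (Or.inl (touch_mono Set.subset_union_right he))) hω.2⟩
    have h2 := locS_pb (π := π) h1
    have h3 : {ω | (FX s d d' k (pb π ω), FY s d d' k (pb π ω)) = (S, S')} =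
        {ω | pb π ω ∈ {η | FX s d d' k η = S ∧ FY s d d' k η = S'}} := by
      ext ω
      simp only [Set.mem_ofPred_eq, Prod.mk.injEq]
    rw [h3]
    exact h2
  · rintro ⟨S, S'⟩
    refine hloc (t := touch (dom d d' k) (S ∪ S') ∪ inE C) ?_ ?_
    · exact (locS_sep_val s d d' k hCT S S').inter' (hN.mono' Set.subset_union_right)
    · rintro e (he | he)
      · exact hdomsub he.1
      · exact hCsub he
  · rintro ⟨S, S'⟩ -
    exact locS_pb ((locS_sep_val s d d' k hCT S S').inter' (hN.mono' Set.subset_union_right))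
  · rintro ⟨S, S'⟩ ω ω' h hω
    refine hΛH (S ∪ S') _ _ (fun e he => h (π e) ?_) hω
    rw [hΛ]
    exact Finset.mem_image_of_mem _ (Finset.mem_union_right _ he)
  · rintro ⟨S, S'⟩ - ω ω' h hω
    refine hH (S ∪ S') _ _ (fun e he => h (π e) ?_) hω
    rintro ⟨e', he', heq⟩
    exact he ⟨e', he', heq.symm⟩
  · rintro ⟨S, S'⟩ -
    exact hH1 (S ∪ S')

end Pool.Agent.H59.EX
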