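import Pool.Agent.H59.EX.Seal
import Pool.Agent.H59.EX.Corr
import Pool.Agent.H29.Sep.Tools

/-!
# Probability of seals

`Seal G ρ t` contains the intersection over `g ∈ G` of the decreasing events no open path of the
full configuration from `ball g ρ` to `sphere g (3 ρ)` (close more edges), each of probability at
least `c'` by `noarm_lower`; use `fkg_decr_many`.  The cardinality of `G` is bounded by `M`.
-/

open MeasureTheory ProbabilityTheory unitInterval

namespace Pool.Agent.H59.EX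

open Pool.Agent.H89.Perc Pool.Agent.H61.NC

/-- Edges with both endpoints in `ball g r` (as a finite set). -/
private noncomputable def bE (g : Vert) (r : ℕ) : Finset Edge := by
  classical exact (eRect (g.1 - r) (g.1 + r) (g.2 - r) (g.2 + r)).filter (fun e => e ∈ inE (ball g r))

private theorem mem_bE {g : Vert} {r : ℕ} {e : Edge} : e ∈ bE g r ↔ e ∈ inE (ball g r) := by
  classical
  simp only [bE, Finset.mem_filter, and_iff_right_iff_imp]
  intro h
  exact mem_eRect.2 h.1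

private theorem sealprob_localOn_arm (g : Vert) (k r : ℕ) : LocalOn (bE g r) (ArmBox g k r)ᶜ := by
  refine LocalOn.compl ?_
  rintro ω ω' h ⟨w, hw, u, hu, hc⟩
  exact ⟨w, hw, u, hu, Conn.congr (fun e he he' => h e (mem_bE.2 ⟨he, he'⟩)) hc⟩

/-- A step out of a ball ends in the ball of radius one larger. -/
private theorem step_ball_succ {ω : Config} {S : Set Vert} {g a b : Vert} {r : ℕ}
    (ha : a ∈ ball g r) (h : Step ω S a b) : b ∈ ball g (r + 1) := by
  have h1 := h.fst_le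
  have h2 := h.snd_le
  rw [mem_ball] at ha ⊢
  push_cast
  omega

/-- `Seal` is a local event. -/
theorem localOn_seal (G : Finset Vert) (ρ : ℕ) : ∃ Λ : Finset Edge, ∀ t : Set Edge,
    LocalOn Λ (Seal G ρ t) := by
  classical
  refine ⟨G.biUnion fun g => bE g (3 * ρ + 1), fun t ω ω' h hω g hg u hu v hv hc => ?_⟩
  have hu' : u ∈ ball g (3 * ρ) := by
    rw [mem_ball] at hu ⊢
    push_cast
    omega
  obtain ⟨w, w', h1, h2, h3, -⟩ := hc.exists_exit hu' hv
  have hw : w ∈ ball g (3 * ρ) := h1.mem_right.2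
  have hw1 : w ∈ ball g (3 * ρ + 1) := by
    rw [mem_ball] at hw ⊢
    push_cast at hw ⊢
    omega
  have hw' : w' ∈ ball g (3 * ρ + 1) := step_ball_succ hw h2
  have hsub : Set.univ ∩ ball g (3 * ρ) ⊆ ball g (3 * ρ + 1) := by
    rintro z ⟨-, hz⟩
    rw [mem_ball] at hz ⊢
    push_cast at hz ⊢
    omega
  have hc2 : Conn (closeS t ω') (ball g (3 * ρ + 1)) u w' :=
    (h1.mono_set hsub).tail ⟨hw1, hw', h2.2.2⟩
  have hc3 : Conn (closeS t ω) (ball g (3 * ρ + 1)) u w' := by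
    refine Conn.congr (fun e he he' => ?_) hc2
    have := h e (Finset.mem_biUnion.2 ⟨g, hg, mem_bE.2 ⟨he, he'⟩⟩)
    simp only [closeS, this]
  exact hω g hg u hu w' h3 (hc3.mono_set (Set.subset_univ _))

theorem card_grid (ρ K : ℕ) : (grid ρ K).card ≤ (2 * K + 1) ^ 2 := by
  classical
  refine Finset.card_image_le.trans ?_
  rw [Finset.card_product, Int.card_Icc, sq]
  have h : ((K : ℤ) + 1 - -(K : ℤ)).toNat = 2 * K + 1 := by omega
  rw [h]

/-- The intersection of the no-arm events is contained in the seal. -/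
private theorem noarm_subset_seal (G : Finset Vert) (ρ : ℕ) (t : Set Edge) {ω : Config}
    (h : ∀ g ∈ G, ω ∈ (ArmBox g ρ (3 * ρ))ᶜ) : ω ∈ Seal G ρ t := by
  intro g hg u hu v hv hc
  have hu' : u ∈ ball g (3 * ρ) := by
    rw [mem_ball] at hu ⊢
    push_cast
    omega
  have hc' : Conn ω Set.univ u v := by
    refine hc.mono le_rfl fun e he => ?_
    simp only [closeS, Bool.and_eq_true] at he
    exact he.1
  obtain ⟨x, hx, hcx⟩ := hc'.to_sphere (v := g) (r := 3 * ρ) hu' (Or.inl hv)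
  exact h g hg ⟨u, hu, x, hx, hcx.mono_set Set.inter_subset_right⟩

private theorem compl_armBox_eq (v : Vert) (s : ℕ) :
    {ω | ¬ ∃ u ∈ ball v s, ∃ u' ∈ sphere v (3 * s), Conn ω (ball v (3 * s)) u u'} =
      (ArmBox v s (3 * s))ᶜ := rfl

/-- The same for a pulled back configuration, if `π` is injective on the edges of every
`ball g (3 ρ)`. -/
theorem seal_lower_pb (c : ℝ) (hc : 0 < c) (K M : ℕ) : ∃ c' : ℝ, 0 < c' ∧ ∀ (n ρ : ℕ) (q : I)
    (G : Finset Vert) (t : Set Edge) (π : Edge → Edge), 1 ≤ n → RSWreg c n q → 1 ≤ ρ →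
      ρ ≤ K * n → G.card ≤ M → (∀ g ∈ G, Set.InjOn π (inE (ball g (3 * ρ)))) →
      c' ≤ Pr q {ω | pb π ω ∈ Seal G ρ t} := by
  classical
  obtain ⟨c₀, hc₀, h0⟩ := Pool.Agent.H29.Sep.noarm_lower c hc K
  refine ⟨(min c₀ 1) ^ M, pow_pos (lt_min hc₀ one_pos) _, ?_⟩
  intro n ρ q G t π hn hr hρ hρK hG hinj
  have hm0 : 0 ≤ min c₀ 1 := (lt_min hc₀ one_pos).le
  have h1 : (min c₀ 1) ^ M ≤ (min c₀ 1) ^ G.card :=
    pow_le_pow_of_le_one hm0 (min_le_right _ _) hG
  have hloc : ∀ g ∈ G, LocalOn ((bE g (3 * ρ)).image π)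
      {ω | pb π ω ∈ (ArmBox g ρ (3 * ρ))ᶜ} := by
    intro g _ ω ω' h hω
    exact sealprob_localOn_arm g ρ (3 * ρ) _ _
      (fun e he => h _ (Finset.mem_image_of_mem π he)) hω
  have hincr : ∀ g ∈ G, Incr ({ω | pb π ω ∈ (ArmBox g ρ (3 * ρ))ᶜ} : Set Config)ᶜ := by
    intro g _ ω ω' h hω hω'
    have h2 : pb π ω ∈ ArmBox g ρ (3 * ρ) := by
      by_contra hcon
      exact hω hcon
    exact hω' (incr_armBox g ρ (3 * ρ) _ _ (fun e he => h _ he) h2)
  have hP : ∀ g ∈ G, min c₀ 1 ≤ Pr q {ω | pb π ω ∈ (ArmBox g ρ (3 * ρ))ᶜ} := by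
    intro g hg
    have h2 : Pr q {ω | (fun e => ω (π e)) ∈ (ArmBox g ρ (3 * ρ))ᶜ} =
        Pr q (ArmBox g ρ (3 * ρ))ᶜ := by
      refine Pr_comp (sealprob_localOn_arm g ρ (3 * ρ)) ?_
      intro a ha b hb hab
      exact hinj g hg (mem_bE.1 (Finset.mem_coe.1 ha)) (mem_bE.1 (Finset.mem_coe.1 hb)) hab
    have h3 := h0 n q hn hr g ρ hρ hρK
    rw [compl_armBox_eq] at h3
    rw [← h2] at h3
    exact (min_le_left _ _).trans h3
  have h4 := Pool.Agent.H29.Sep.fkg_decr_many (p := q) G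
    (fun g => {ω | pb π ω ∈ (ArmBox g ρ (3 * ρ))ᶜ}) (fun g => (bE g (3 * ρ)).image π)
    hm0 hloc hincr hP
  refine (h1.trans h4).trans (Pr_mono ?_)
  intro ω hω
  simp only [Set.mem_iInter] at hω
  exact noarm_subset_seal G ρ t fun g hg => hω g hg

theorem seal_lower (c : ℝ) (hc : 0 < c) (K M : ℕ) : ∃ c' : ℝ, 0 < c' ∧ ∀ (n ρ : ℕ) (q : I)
    (G : Finset Vert) (t : Set Edge), 1 ≤ n → RSWreg c n q → 1 ≤ ρ → ρ ≤ K * n → G.card ≤ M →
      c' ≤ Pr q (Seal G ρ t) := by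
  obtain ⟨c', hc', h⟩ := seal_lower_pb c hc K M
  refine ⟨c', hc', fun n ρ q G t hn hr hρ hρK hG => ?_⟩
  exact h n ρ q G t id hn hr hρ hρK hG fun g _ => Set.injOn_id _

end Pool.Agent.H59.EX
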