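import Pool.Agent.H59.EX.Sym
import Pool.Agent.H29.Sep.A4Low

/-!
# Finite energy, explicit separated configurations
-/

open MeasureTheory ProbabilityTheory unitInterval

namespace Pool.Agent.H59.EX

open Pool.Agent.H89.Perc Pool.Agent.H61.NC

/-- In the regime the density is bounded away from `0` and `1`. -/
theorem density_bound (c : ℝ) (hc : 0 < c) : ∃ δ : ℝ, 0 < δ ∧ ∀ (n : ℕ) (q : I), 1 ≤ n →
    RSWreg c n q → δ ≤ (q : ℝ) ∧ (q : ℝ) ≤ 1 - δ :=
  ⟨c / 16, by positivity, fun _ _ hn h => Pool.Agent.H29.Sep.rswreg_density hn h⟩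

/-- Finite energy: a local event which is not empty has positive probability, uniformly. -/
theorem fin_energy {Λ : Finset Edge} {A : Set Config} (hA : LocalOn Λ A) (hne : A.Nonempty)
    {δ : ℝ} (hδ : 0 < δ) {q : I} (h : δ ≤ (q : ℝ) ∧ (q : ℝ) ≤ 1 - δ) : δ ^ Λ.card ≤ Pr q A := by
  obtain ⟨ω₀, hω₀⟩ := hne
  refine (Pool.Agent.H29.Sep.a4Low_cyl q hδ.le h.1 h.2 ω₀ Λ).trans (Pr_mono ?_)
  intro ω hω
  exact hA ω₀ ω (fun e he => (hω e he).symm) hω₀

/-! ### Explicit configurations -/

/-- A straight open horizontal path. -/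
theorem itera_row {ω : Config} {S : Set Vert} (a b : ℤ) (n : ℕ)
    (hS : ∀ i : ℤ, a ≤ i → i ≤ a + n → ((i, b) : Vert) ∈ S)
    (ho : ∀ i : ℤ, a ≤ i → i < a + n → ω (i, b, false) = true) :
    Conn ω S (a, b) (a + n, b) := by
  induction n with
  | zero =>
    have h := Conn.refl (ω := ω) (hS a le_rfl (by simp))
    simpa using h
  | succ n ih =>
    have h1 := ih (fun i h2 h3 => hS i h2 (by push_cast; omega))
      (fun i h2 h3 => ho i h2 (by push_cast; omega))
    refine h1.tail ⟨h1.mem_right, hS _ (by omega) (by omega), (a + n, b, false), Or.inl ⟨rfl, ?_⟩,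
      ho _ (by omega) (by push_cast; omega)⟩
    simp only [tgt, Bool.false_eq_true, if_false, Prod.mk.injEq, and_true]
    push_cast
    ring

/-- A straight open vertical path. -/
theorem itera_col {ω : Config} {S : Set Vert} (a b : ℤ) (n : ℕ)
    (hS : ∀ i : ℤ, b ≤ i → i ≤ b + n → ((a, i) : Vert) ∈ S)
    (ho : ∀ i : ℤ, b ≤ i → i < b + n → ω (a, i, true) = true) :
    Conn ω S (a, b) (a, b + n) := by
  induction n with
  | zero =>
    have h := Conn.refl (ω := ω) (hS b le_rfl (by simp))
    simpa using h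
  | succ n ih =>
    have h1 := ih (fun i h2 h3 => hS i h2 (by push_cast; omega))
      (fun i h2 h3 => ho i h2 (by push_cast; omega))
    refine h1.tail ⟨h1.mem_right, hS _ (by omega) (by omega), (a, b + n, true), Or.inl ⟨rfl, ?_⟩,
      ho _ (by omega) (by push_cast; omega)⟩
    simp only [tgt, if_true, Prod.mk.injEq, true_and]
    push_cast
    ring

/-- The explicit configuration: two rows and two columns; the right row has height `j`. -/
def expl (j : ℤ) (k : ℕ) : Config := fun e => decide
  ((e.2.2 = false ∧ e.2.1 = 0 ∧ e.1 < 0) ∨ (e.2.2 = false ∧ e.2.1 = j ∧ 1 - |j| ≤ e.1) ∨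
    (e.2.2 = true ∧ (e.1 = 32 * k ∨ e.1 = -(32 * k)) ∧ -(3 * (k : ℤ)) ≤ e.2.1 ∧ e.2.1 < 3 * k))

/-- Explicit separated configurations for a source whose first point is the origin and whose second
point is the left end of the right row. -/
theorem expl_mem {s : Src} {j : ℤ} {k : ℕ} (hk : 1 ≤ k) (hj : |j| ≤ 1) (hx : s.x = 0)
    (hy : s.y = (1 - |j|, j)) (hc : s.cut (expl j k) = expl j k) :
    expl j k ∈ Sep s .W .E k := by
  have hj' : -1 ≤ j ∧ j ≤ 1 := abs_le.1 hj
  have hab : |j| = 0 ∧ j = 0 ∨ |j| = 1 ∧ (j = 1 ∨ j = -1) := by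
    rcases (show j = 0 ∨ j = 1 ∨ j = -1 by omega) with h | h | h <;> subst h <;> simp
  set D : Set Vert := dom .W .E k with hD
  have hmemD : ∀ v : Vert, (-(32 * (k : ℤ)) ≤ v.1 ∧ v.1 ≤ 32 * k ∧ -(32 * (k : ℤ)) ≤ v.2 ∧
      v.2 ≤ 32 * k) → v ∈ D := by
    intro v hv
    refine Or.inl ?_
    simp only [ball, rect, Set.mem_ofPred_eq, Prod.fst_zero, Prod.snd_zero]
    push_cast
    omega
  have hstep : ∀ p p' : Vert, Step (fillV (T .W k ∪ T .E k) (expl j k)) D p p' →
      (((p.2 = 0 ∧ p.1 ≤ 0) ∨ p ∈ T .W k) → ((p'.2 = 0 ∧ p'.1 ≤ 0) ∨ p' ∈ T .W k)) ∧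
      (((p.2 = j ∧ 1 - |j| ≤ p.1) ∨ p ∈ T .E k) →
        ((p'.2 = j ∧ 1 - |j| ≤ p'.1) ∨ p' ∈ T .E k)) := by
    rintro ⟨a, b⟩ ⟨a', b'⟩ ⟨-, -, ⟨x, y, dir⟩, hjo, ho⟩
    simp only [fillV, expl, Bool.or_eq_true, decide_eq_true_eq, inE, Set.mem_ofPred_eq,
      Set.mem_union, T, rect, src] at ho ⊢
    rcases dir with _ | _
    · simp only [Joins, src, tgt, Bool.false_eq_true, if_false, Prod.mk.injEq] at hjo ho
      simp only [true_and, false_and, or_false] at ho
      omega
    · simp only [Joins, src, tgt, if_true, Prod.mk.injEq] at hjo ho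
      simp only [Bool.true_eq_false, false_and, true_and, false_or] at ho
      omega
  have hX : ∀ v, Conn (fillV (T .W k ∪ T .E k) (expl j k)) D 0 v →
      ((v.2 = 0 ∧ v.1 ≤ 0) ∨ v ∈ T .W k) := by
    intro v hv
    refine hv.induction_right (P := fun v => (v.2 = 0 ∧ v.1 ≤ 0) ∨ v ∈ T .W k)
      (Or.inl ⟨rfl, le_rfl⟩) ?_
    intro p p' _ hp h
    exact (hstep p p' hp).1 h
  have hY : ∀ v, Conn (fillV (T .W k ∪ T .E k) (expl j k)) D (1 - |j|, j) v →
      ((v.2 = j ∧ 1 - |j| ≤ v.1) ∨ v ∈ T .E k) := by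
    intro v hv
    refine hv.induction_right (P := fun v => (v.2 = j ∧ 1 - |j| ≤ v.1) ∨ v ∈ T .E k)
      (Or.inl ⟨rfl, le_rfl⟩) ?_
    intro p p' _ hp h
    exact (hstep p p' hp).2 h
  refine ⟨?_, ?_, ?_, ?_, ?_⟩
  · -- west fence
    rw [hc, hx]
    refine ⟨(-(32 * (k : ℤ)), -(3 * (k : ℤ))), (-(32 * (k : ℤ)), 3 * (k : ℤ)), rfl, rfl, ?_, ?_⟩
    · have h := itera_col (ω := expl j k) (S := T .W k) (-(32 * (k : ℤ))) (-(3 * (k : ℤ))) (6 * k)
        (fun i h1 h2 => by
          simp only [T, rect, Set.mem_ofPred_eq]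
          push_cast at h2
          omega)
        (fun i h1 h2 => by
          simp only [expl, decide_eq_true_eq]
          push_cast at h2
          right; right
          exact ⟨trivial, Or.inr trivial, by omega, by omega⟩)
      have he : -(3 * (k : ℤ)) + ((6 * k : ℕ) : ℤ) = 3 * k := by push_cast; ring
      rwa [he] at h
    · have h1 := itera_row (ω := expl j k) (S := D) (-(32 * (k : ℤ))) 0 (32 * k)
        (fun i h1 h2 => hmemD _ (by push_cast at h2; dsimp only; omega))
        (fun i h1 h2 => by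
          simp only [expl, decide_eq_true_eq]
          push_cast at h2
          left
          exact ⟨trivial, trivial, by omega⟩)
      have he : -(32 * (k : ℤ)) + ((32 * k : ℕ) : ℤ) = 0 := by push_cast; ring
      rw [he] at h1
      have h2 := itera_col (ω := expl j k) (S := D) (-(32 * (k : ℤ))) (-(3 * (k : ℤ))) (3 * k)
        (fun i h1 h2 => hmemD _ (by push_cast at h2; dsimp only; omega))
        (fun i h1 h2 => by
          simp only [expl, decide_eq_true_eq]
          push_cast at h2
          right; right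
          exact ⟨trivial, Or.inr trivial, by omega, by omega⟩)
      have he2 : -(3 * (k : ℤ)) + ((3 * k : ℕ) : ℤ) = 0 := by push_cast; ring
      rw [he2] at h2
      exact (h2.trans h1).symm
  · -- east fence
    rw [hc, hy]
    refine ⟨(32 * (k : ℤ), -(3 * (k : ℤ))), (32 * (k : ℤ), 3 * (k : ℤ)), rfl, rfl, ?_, ?_⟩
    · have h := itera_col (ω := expl j k) (S := T .E k) (32 * (k : ℤ)) (-(3 * (k : ℤ))) (6 * k)
        (fun i h1 h2 => by
          simp only [T, rect, Set.mem_ofPred_eq]
          push_cast at h2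
          omega)
        (fun i h1 h2 => by
          simp only [expl, decide_eq_true_eq]
          push_cast at h2
          right; right
          exact ⟨trivial, Or.inl trivial, by omega, by omega⟩)
      have he : -(3 * (k : ℤ)) + ((6 * k : ℕ) : ℤ) = 3 * k := by push_cast; ring
      rwa [he] at h
    · have h1 := itera_row (ω := expl j k) (S := D) (1 - |j|) j (32 * k - 1 + j.natAbs)
        (fun i h1 h2 => hmemD _ (by
          have : ((32 * k - 1 + j.natAbs : ℕ) : ℤ) = 32 * k - 1 + |j| := by
            rw [Nat.cast_add, Int.natCast_natAbs]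
            have : ((32 * k - 1 : ℕ) : ℤ) = 32 * k - 1 := by omega
            rw [this]
          dsimp only
          omega))
        (fun i h1 h2 => by
          simp only [expl, decide_eq_true_eq]
          right; left
          exact ⟨trivial, trivial, h1⟩)
      have he : 1 - |j| + ((32 * k - 1 + j.natAbs : ℕ) : ℤ) = 32 * k := by
        rw [Nat.cast_add, Int.natCast_natAbs]
        have : ((32 * k - 1 : ℕ) : ℤ) = 32 * k - 1 := by omega
        rw [this]
        ring
      rw [he] at h1
      have h2 := itera_col (ω := expl j k) (S := D) (32 * (k : ℤ)) (-(3 * (k : ℤ)))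
        (3 * k + j).toNat
        (fun i h1 h2 => hmemD _ (by
          rw [Int.toNat_of_nonneg (by omega)] at h2
          dsimp only
          omega))
        (fun i h1 h2 => by
          rw [Int.toNat_of_nonneg (by omega)] at h2
          simp only [expl, decide_eq_true_eq]
          right; right
          exact ⟨trivial, Or.inl trivial, by omega, by omega⟩)
      have he2 : -(3 * (k : ℤ)) + ((3 * k + j).toNat : ℤ) = j := by
        rw [Int.toNat_of_nonneg (by omega)]
        ring
      rw [he2] at h2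
      exact h1.trans h2.symm
  · rw [hc, hx, hy]
    intro h
    have := hX _ h
    simp only [T, rect, Set.mem_ofPred_eq] at this
    omega
  · rw [hc, hx]
    intro v hv h
    have := hX v h
    simp only [T, rect, Set.mem_ofPred_eq, sphere, ball, Prod.fst_zero, Prod.snd_zero, Mouth]
      at this hv ⊢
    push_cast at hv
    omega
  · rw [hc, hy]
    intro v hv h
    have := hY v h
    simp only [T, rect, Set.mem_ofPred_eq, sphere, ball, Prod.fst_zero, Prod.snd_zero, Mouth]
      at this hv ⊢
    push_cast at hv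
    omega

theorem sep_sE_nonempty (dir : Bool) {k : ℕ} (hk : 1 ≤ k) : (Sep (sE dir) .W .E k).Nonempty := by
  cases dir
  · refine ⟨expl 0 k, expl_mem hk (by simp) rfl (by simp [sE, tgt]) ?_⟩
    funext e
    simp only [Src.cut, closeS, sE, Finset.coe_singleton, Set.mem_singleton_iff]
    by_cases he : e = (0, 0, false)
    · subst he
      simp [expl]
    · simp [he]
  · refine ⟨expl 1 k, expl_mem hk (by simp) rfl (by simp [sE, tgt]) ?_⟩
    funext e
    simp only [Src.cut, closeS, sE, Finset.coe_singleton, Set.mem_singleton_iff]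
    by_cases he : e = (0, 0, true)
    · subst he
      have h0 : expl 1 k (0, 0, true) = false := by
        simp only [expl, decide_eq_false_iff_not]
        intro h
        rcases h with h | h | h
        · exact absurd h.1 (by decide)
        · exact absurd h.1 (by decide)
        · omega
      simp [h0]
    · simp [he]

end Pool.Agent.H59.EX
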