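import Pool.Agent.H59.EX.MoveStr

/-!
# The corridors of the moves (collected)
-/
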