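import Pool.Agent.H61.NC.Defs

/-!
# Separated four-arm events: definitions

`Src` is a pair of points near the origin together with a set of closed edges (for instance the two
endpoints of an edge with the edge itself closed).  `Sep s d d' k` is the four-arm event to distance
`32 k` in which the cluster of `x` leaves the ball only through the mouth on side `d`, the cluster
of `y` only through the mouth on side `d'`, even if all edges in the two target rectangles
`T d k`, `T d' k` are opened, and both clusters contain a crossing of their target rectangle.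
-/

open MeasureTheory ProbabilityTheory unitInterval

namespace Pool.Agent.H59.EX

open Pool.Agent.H89.Perc

/-- The event `A` depends only on the edges in the (arbitrary) set `s`. -/
def LocS (s : Set Edge) (A : Set Config) : Prop :=
  ∀ ω ω' : Config, (∀ e ∈ s, ω e = ω' e) → ω ∈ A → ω' ∈ A

/-- Edges with both endpoints in `S`. -/
def inE (S : Set Vert) : Set Edge := {e | src e ∈ S ∧ tgt e ∈ S}

/-- Edges with both endpoints in `D` and at least one endpoint in `S`. -/
def touch (D S : Set Vert) : Set Edge := {e | e ∈ inE D ∧ (src e ∈ S ∨ tgt e ∈ S)}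

/-- The union of the clusters of the points of `X` in the graph `D`. -/
def clus (ω : Config) (D X : Set Vert) : Set Vert := {v | ∃ x ∈ X, Conn ω D x v}

/-- Open all edges inside `Z`. -/
noncomputable def fillV (Z : Set Vert) (ω : Config) : Config := fun e => by
  classical exact ω e || decide (e ∈ inE Z)

/-- Close all edges in `t`. -/
noncomputable def closeS (t : Set Edge) (ω : Config) : Config := fun e => by
  classical exact ω e && decide (e ∉ t)

/-- A source: two points near the origin and a finite set of closed edges near the origin. -/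
structure Src where
  /-- first point -/
  x : Vert
  /-- second point -/
  y : Vert
  /-- closed edges -/
  E0 : Finset Edge
  hx : x ∈ ball 0 2
  hy : y ∈ ball 0 2
  hE : ∀ e ∈ E0, src e ∈ ball 0 2 ∧ tgt e ∈ ball 0 2

/-- The configuration with the edges of the source closed. -/
noncomputable def Src.cut (s : Src) (ω : Config) : Config := closeS (s.E0 : Set Edge) ω

/-- Four-arm event of a source: both points are joined to the sphere of radius `r` and not to each
other, in `ball 0 r`. -/
def Four (s : Src) (r : ℕ) : Set Config :=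
  {ω | (∃ u ∈ sphere 0 r, Conn (s.cut ω) (ball 0 r) s.x u) ∧
    (∃ u ∈ sphere 0 r, Conn (s.cut ω) (ball 0 r) s.y u) ∧
    ¬ Conn (s.cut ω) (ball 0 r) s.x s.y}

/-- The four sides of a square. -/
inductive Side
  | E | N | W | S
  deriving DecidableEq

/-- Target rectangle at side `d` of `ball 0 (32 k)`. -/
def T (d : Side) (k : ℕ) : Set Vert :=
  match d with
  | .E => rect (28 * k) (36 * k) (-(3 * k)) (3 * k)
  | .N => rect (-(3 * k)) (3 * k) (28 * k) (36 * k)
  | .W => rect (-(36 * k)) (-(28 * k)) (-(3 * k)) (3 * k)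
  | .S => rect (-(3 * k)) (3 * k) (-(36 * k)) (-(28 * k))

/-- Mouth at side `d` of `ball 0 (32 k)`. -/
def Mouth (d : Side) (k : ℕ) : Set Vert :=
  match d with
  | .E => rect (32 * k) (32 * k) (-(4 * k)) (4 * k)
  | .N => rect (-(4 * k)) (4 * k) (32 * k) (32 * k)
  | .W => rect (-(32 * k)) (-(32 * k)) (-(4 * k)) (4 * k)
  | .S => rect (-(4 * k)) (4 * k) (-(32 * k)) (-(32 * k))

/-- `x` is joined in `D` to an open crossing of the target rectangle (parallel to the side). -/
def Fence (d : Side) (k : ℕ) (ω : Config) (D : Set Vert) (x : Vert) : Prop :=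
  match d with
  | .E => ∃ u v : Vert, u.2 = -(3 * k) ∧ v.2 = 3 * k ∧ Conn ω (T .E k) u v ∧ Conn ω D x u
  | .N => ∃ u v : Vert, u.1 = -(3 * k) ∧ v.1 = 3 * k ∧ Conn ω (T .N k) u v ∧ Conn ω D x u
  | .W => ∃ u v : Vert, u.2 = -(3 * k) ∧ v.2 = 3 * k ∧ Conn ω (T .W k) u v ∧ Conn ω D x u
  | .S => ∃ u v : Vert, u.1 = -(3 * k) ∧ v.1 = 3 * k ∧ Conn ω (T .S k) u v ∧ Conn ω D x u

/-- The domain of the separated event. -/
def dom (d d' : Side) (k : ℕ) : Set Vert := ball 0 (32 * k) ∪ (T d k ∪ T d' k)

/-- Separated four-arm event. -/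
def Sep (s : Src) (d d' : Side) (k : ℕ) : Set Config :=
  {ω | Fence d k (s.cut ω) (dom d d' k) s.x ∧ Fence d' k (s.cut ω) (dom d d' k) s.y ∧
    ¬ Conn (fillV (T d k ∪ T d' k) (s.cut ω)) (dom d d' k) s.x s.y ∧
    (∀ v ∈ sphere 0 (32 * k),
      Conn (fillV (T d k ∪ T d' k) (s.cut ω)) (dom d d' k) s.x v → v ∈ Mouth d k) ∧
    (∀ v ∈ sphere 0 (32 * k),
      Conn (fillV (T d k ∪ T d' k) (s.cut ω)) (dom d d' k) s.y v → v ∈ Mouth d' k)}

end Pool.Agent.H59.EX
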