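import Pool.Agent.H59.EX.Defs
import Pool.Agent.H61.NC.A4Basic

/-!
# Probabilistic tools

Conditioning on the edges of a (possibly infinite) set `t`, and on the value of a random set.
-/

open MeasureTheory ProbabilityTheory unitInterval

namespace Pool.Agent.H59.EX

open Pool.Agent.H89.Perc Pool.Agent.H61.NC

variable {q : I} {Λ : Finset Edge} {t : Set Edge} {A G H : Set Config}

/-- An event which is local on `Λ` and depends only on the edges of `t` is local on any finite set
containing `Λ ∩ t`. -/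
theorem localOn_of_locS {s : Finset Edge} (hA : LocalOn Λ A) (hA' : LocS t A)
    (hs : ∀ e ∈ Λ, e ∈ t → e ∈ s) : LocalOn s A := by
  classical
  intro ω ω' h hω
  have h1 : (fun e => if e ∈ t then ω' e else ω e) ∈ A := by
    refine hA ω _ (fun e he => ?_) hω
    by_cases het : e ∈ t
    · simp only [het, if_true]
      exact h e (hs e he het)
    · simp only [het, if_false]
  refine hA' _ ω' (fun e he => ?_) h1
  simp only [he, if_true]

/-- Independence: `A` depends on the edges of `t`, `H` on the other edges. -/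
theorem indep_cond (hA : LocalOn Λ A) (hA' : LocS t A) (hH : LocalOn Λ H) (hH' : LocS tᶜ H) :
    Pr q (A ∩ H) = Pr q A * Pr q H := by
  classical
  have h1 : LocalOn (Λ.filter (· ∈ t)) A :=
    localOn_of_locS hA hA' (fun e he het => Finset.mem_filter.2 ⟨he, het⟩)
  have h2 : LocalOn (Λ.filter (· ∉ t)) H :=
    localOn_of_locS hH hH' (fun e he het => Finset.mem_filter.2 ⟨he, het⟩)
  exact Pr_inter_of_disjoint h1 h2 (Finset.disjoint_filter_filter_not Λ Λ (· ∈ t))

private theorem fkg_aux (s : Finset Edge) : ∀ {s' : Finset Edge} {A G : Set Config},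
    LocalOn s A → LocalOn Λ G → Incr G → LocalOn s' H → Incr H → (∀ e ∈ s, e ∉ s') →
    Pr q (A ∩ G) * Pr q H ≤ Pr q (A ∩ G ∩ H) := by
  classical
  induction s using Finset.induction_on with
  | empty =>
    intro s' A G hA hG iG hH iH _
    rcases A.eq_empty_or_nonempty with h0 | ⟨ω₀, h0⟩
    · subst h0
      simp [Pr]
    · have hu : A = Set.univ := by
        ext ω
        simp only [Set.mem_univ, iff_true]
        exact hA ω₀ ω (fun e he => absurd he (Finset.notMem_empty e)) h0
      subst hu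
      rw [Set.univ_inter]
      exact fkg hG hH iG iH
  | @insert a s ha ih =>
    intro s' A G hA hG iG hH iH hdis
    have hAG : LocalOn (insert a s ∪ Λ) (A ∩ G) := LocalOn.inter' hA hG
    have hAGH : LocalOn (insert a s ∪ Λ ∪ s') (A ∩ G ∩ H) := LocalOn.inter' hAG hH
    have hH0 : ∀ b : Bool, {ω : Config | Function.update ω a b ∈ H} = H := by
      intro b
      have hloc : ∀ ω : Config, ∀ e ∈ s', Function.update ω a b e = ω e := by
        intro ω e he
        rw [Function.update_of_ne]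
        intro hea
        exact hdis a (Finset.mem_insert_self a s) (hea ▸ he)
      ext ω
      exact ⟨hH _ _ (hloc ω), hH _ _ (fun e he => (hloc ω e he).symm)⟩
    have key : ∀ b : Bool,
        Pr q {ω | Function.update ω a b ∈ A ∩ G} * Pr q H ≤
          Pr q {ω | Function.update ω a b ∈ A ∩ G ∩ H} := by
      intro b
      have h1 : LocalOn s {ω : Config | Function.update ω a b ∈ A} := by
        have := hA.update a b
        rwa [Finset.erase_insert ha] at this
      have h2 : LocalOn Λ {ω : Config | Function.update ω a b ∈ G} :=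
        (hG.update a b).mono (Finset.erase_subset a Λ)
      have h3 : Incr {ω : Config | Function.update ω a b ∈ G} := by
        intro ω ω' h hω
        refine iG _ _ (fun e he => ?_) hω
        by_cases hea : e = a
        · subst hea
          rw [Function.update_self] at he ⊢
          exact he
        · rw [Function.update_of_ne hea] at he ⊢
          exact h e he
      have h4 := ih (A := {ω : Config | Function.update ω a b ∈ A})
        (G := {ω : Config | Function.update ω a b ∈ G}) h1 h2 h3 hH iH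
        (fun e he => hdis e (Finset.mem_insert_of_mem he))
      have h5 : {ω : Config | Function.update ω a b ∈ A ∩ G ∩ H} =
          {ω : Config | Function.update ω a b ∈ A} ∩ {ω : Config | Function.update ω a b ∈ G} ∩
            H := by
        conv_rhs => rw [← hH0 b]
        rfl
      rw [h5]
      exact h4
    rw [Pr_eq_update hAG a, Pr_eq_update hAGH a]
    have h1 := mul_le_mul_of_nonneg_left (key true) (show (0 : ℝ) ≤ (q : ℝ) from q.2.1)
    have h2 := mul_le_mul_of_nonneg_left (key false)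
      (show (0 : ℝ) ≤ 1 - (q : ℝ) from sub_nonneg.2 q.2.2)
    linarith

/-- Conditional FKG: `A` depends on the edges of `t`, `G` and `H` are increasing, `H` depends only
on the edges outside `t`. -/
theorem fkg_cond (hA : LocalOn Λ A) (hA' : LocS t A) (hG : LocalOn Λ G) (iG : Incr G)
    (hH : LocalOn Λ H) (hH' : LocS tᶜ H) (iH : Incr H) :
    Pr q (A ∩ G) * Pr q H ≤ Pr q (A ∩ G ∩ H) := by
  classical
  have h1 : LocalOn (Λ.filter (· ∈ t)) A :=
    localOn_of_locS hA hA' (fun e he het => Finset.mem_filter.2 ⟨he, het⟩)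
  have h2 : LocalOn (Λ.filter (· ∉ t)) H :=
    localOn_of_locS hH hH' (fun e he het => Finset.mem_filter.2 ⟨he, het⟩)
  refine fkg_aux (Λ.filter (· ∈ t)) h1 hG iG h2 iH (fun e he he' => ?_)
  exact (Finset.mem_filter.1 he').2 (Finset.mem_filter.1 he).2

/-- Summation over the values of `X`. -/
private theorem markov_sum {ι : Type*} {c : ℝ} (X : Config → ι) (Good : ι → Prop)
    (B C : ι → Set Config) (hX : ∀ i, LocalOn Λ {ω | X ω = i})
    (hB : ∀ i, LocalOn Λ (B i)) (hC : ∀ i, LocalOn Λ (C i))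
    (h : ∀ i, Good i → c * Pr q ({ω | X ω = i} ∩ B i) ≤ Pr q ({ω | X ω = i} ∩ C i)) :
    c * Pr q {ω | Good (X ω) ∧ ω ∈ B (X ω)} ≤ Pr q {ω | Good (X ω) ∧ ω ∈ C (X ω)} := by
  classical
  set F : Finset ι := (Λ.powerset.image (fun S => X (ofS S))).filter Good with hF
  have hval : ∀ ω : Config, X ω ∈ Λ.powerset.image (fun S => X (ofS S)) := by
    intro ω
    refine Finset.mem_image.2 ⟨Λ.filter (fun e => ω e = true),
      Finset.mem_powerset.2 (Finset.filter_subset _ _), ?_⟩
    have := hX (X ω) ω (ofS (Λ.filter (fun e => ω e = true))) (fun e he => ?_) rfl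
    · exact this
    · rw [ofS_apply]
      by_cases ho : ω e = true
      · simp [ho, he]
      · simp [ho]
  have hun : ∀ D : ι → Set Config, {ω | Good (X ω) ∧ ω ∈ D (X ω)} =
      ⋃ i ∈ F, ({ω | X ω = i} ∩ D i) := by
    intro D
    ext ω
    simp only [Set.mem_ofPred_eq, Set.mem_iUnion, Set.mem_inter_iff, hF, Finset.mem_filter,
      exists_prop]
    constructor
    · rintro ⟨h1, h2⟩
      exact ⟨X ω, ⟨hval ω, h1⟩, rfl, h2⟩
    · rintro ⟨i, ⟨_, h1⟩, h2, h3⟩
      subst h2
      exact ⟨h1, h3⟩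
  have hsum : ∀ D : ι → Set Config, (∀ i, LocalOn Λ (D i)) →
      Pr q {ω | Good (X ω) ∧ ω ∈ D (X ω)} = ∑ i ∈ F, Pr q ({ω | X ω = i} ∩ D i) := by
    intro D hD
    rw [hun D, Pr]
    refine measureReal_biUnion_finset ?_ ?_
    · intro i _ j _ hij
      refine Set.disjoint_left.2 ?_
      rintro ω ⟨h1, _⟩ ⟨h2, _⟩
      exact hij (h1.symm.trans h2)
    · intro i _
      exact ((hX i).inter (hD i)).measurableSet
  rw [hsum B hB, hsum C hC, Finset.mul_sum]
  refine Finset.sum_le_sum (fun i hi => ?_)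
  exact h i (Finset.mem_filter.1 hi).2

/-- Conditioning on the value of `X`, increasing version. -/
theorem markov_incr {ι : Type*} {c : ℝ} (X : Config → ι) (Good : ι → Prop) (t : ι → Set Edge)
    (A G H : ι → Set Config) (hX : ∀ i, LocalOn Λ {ω | X ω = i})
    (hX' : ∀ i, Good i → LocS (t i) {ω | X ω = i})
    (hA : ∀ i, LocalOn Λ (A i)) (hA' : ∀ i, Good i → LocS (t i) (A i))
    (hG : ∀ i, LocalOn Λ (G i)) (iG : ∀ i, Good i → Incr (G i))
    (hH : ∀ i, LocalOn Λ (H i)) (hH' : ∀ i, Good i → LocS (t i)ᶜ (H i))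
    (iH : ∀ i, Good i → Incr (H i)) (hc : ∀ i, Good i → c ≤ Pr q (H i)) (hc0 : 0 ≤ c) :
    c * Pr q {ω | Good (X ω) ∧ ω ∈ A (X ω) ∧ ω ∈ G (X ω)} ≤
      Pr q {ω | Good (X ω) ∧ ω ∈ A (X ω) ∧ ω ∈ G (X ω) ∧ ω ∈ H (X ω)} := by
  have _ := hc0
  refine markov_sum (q := q) (c := c) X Good (fun i => A i ∩ G i) (fun i => A i ∩ (G i ∩ H i)) hX
    (fun i => (hA i).inter (hG i)) (fun i => (hA i).inter ((hG i).inter (hH i))) ?_
  intro i hi
  have h1 : LocS (t i) ({ω | X ω = i} ∩ A i) :=
    fun ω ω' h hω => ⟨hX' i hi ω ω' h hω.1, hA' i hi ω ω' h hω.2⟩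
  have h2 := fkg_cond (q := q) ((hX i).inter (hA i)) h1 (hG i) (iG i hi) (hH i) (hH' i hi)
    (iH i hi)
  have h3 : ({ω | X ω = i} ∩ A i) ∩ G i ∩ H i = {ω | X ω = i} ∩ (A i ∩ (G i ∩ H i)) := by
    simp only [Set.inter_assoc]
  have h4 : ({ω | X ω = i} ∩ A i) ∩ G i = {ω | X ω = i} ∩ (A i ∩ G i) := by
    simp only [Set.inter_assoc]
  rw [h3, h4] at h2
  refine le_trans ?_ h2
  rw [mul_comm]
  exact mul_le_mul_of_nonneg_left (hc i hi) Pr_nonneg

/-- Conditioning on the value of `X`, independent version. -/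
theorem markov_indep {ι : Type*} {c : ℝ} (X : Config → ι) (Good : ι → Prop) (t : ι → Set Edge)
    (A H : ι → Set Config) (hX : ∀ i, LocalOn Λ {ω | X ω = i})
    (hX' : ∀ i, Good i → LocS (t i) {ω | X ω = i})
    (hA : ∀ i, LocalOn Λ (A i)) (hA' : ∀ i, Good i → LocS (t i) (A i))
    (hH : ∀ i, LocalOn Λ (H i)) (hH' : ∀ i, Good i → LocS (t i)ᶜ (H i))
    (hc : ∀ i, Good i → c ≤ Pr q (H i)) (hc0 : 0 ≤ c) :
    c * Pr q {ω | Good (X ω) ∧ ω ∈ A (X ω)} ≤
      Pr q {ω | Good (X ω) ∧ ω ∈ A (X ω) ∧ ω ∈ H (X ω)} := by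
  have _ := hc0
  refine markov_sum (q := q) (c := c) X Good A (fun i => A i ∩ H i) hX hA
    (fun i => (hA i).inter (hH i)) ?_
  intro i hi
  have h1 : LocS (t i) ({ω | X ω = i} ∩ A i) :=
    fun ω ω' h hω => ⟨hX' i hi ω ω' h hω.1, hA' i hi ω ω' h hω.2⟩
  have h2 := indep_cond (q := q) ((hX i).inter (hA i)) h1 (hH i) (hH' i hi)
  rw [Set.inter_assoc] at h2
  rw [h2, mul_comm]
  exact mul_le_mul_of_nonneg_left (hc i hi) Pr_nonneg

private theorem joins_touch {D S : Set Vert} {e : Edge} {a b : Vert} (he : Joins e a b)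
    (ha : a ∈ D) (hb : b ∈ D) (haS : a ∈ S) : e ∈ touch D S := by
  rcases he with ⟨h1, h2⟩ | ⟨h1, h2⟩
  · exact ⟨⟨h1 ▸ ha, h2 ▸ hb⟩, Or.inl (h1 ▸ haS)⟩
  · exact ⟨⟨h2 ▸ hb, h1 ▸ ha⟩, Or.inr (h1 ▸ haS)⟩

/-- The event that the cluster of `X` in `D` equals `S` depends only on the edges touching `S`. -/
theorem locS_clus (D X S : Set Vert) : LocS (touch D S) {ω | clus ω D X = S} := by
  intro ω ω' h hω
  rw [Set.mem_ofPred_eq] at hω ⊢
  refine Set.Subset.antisymm ?_ ?_
  · rintro v ⟨x, hx, hc⟩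
    refine hc.induction_right (P := fun w => w ∈ S) ?_ ?_
    · rw [← hω]
      exact ⟨x, hx, Conn.refl hc.mem_left⟩
    · intro a b _ hab haS
      obtain ⟨ha, hb, e, he, ho⟩ := hab
      have het : e ∈ touch D S := joins_touch he ha hb haS
      have haS' := haS
      rw [← hω] at haS' ⊢
      obtain ⟨y, hy, hya⟩ := haS'
      exact ⟨y, hy, hya.tail ⟨ha, hb, e, he, by rw [h e het]; exact ho⟩⟩
  · intro v hv
    rw [← hω] at hv
    obtain ⟨x, hx, hc⟩ := hv
    refine ⟨x, hx, ?_⟩
    refine hc.induction_right (P := fun w => Conn ω' D x w) (Conn.refl hc.mem_left) ?_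
    intro a b hxa hab hc'
    obtain ⟨ha, hb, e, he, ho⟩ := hab
    have haS : a ∈ S := by
      rw [← hω]
      exact ⟨x, hx, hxa⟩
    have het : e ∈ touch D S := joins_touch he ha hb haS
    exact hc'.tail ⟨ha, hb, e, he, by rw [← h e het]; exact ho⟩

/-- The same with filled edges inside `Z ⊆ S`. -/
theorem locS_clus_fill {D X S Z : Set Vert} (hZ : Z ⊆ S) :
    LocS (touch D S \ inE Z) {ω | clus (fillV Z ω) D X = S} := by
  have _ := hZ
  intro ω ω' h hω
  refine locS_clus D X S (fillV Z ω) (fillV Z ω') (fun e he => ?_) hω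
  unfold fillV
  by_cases hez : e ∈ inE Z
  · simp [hez]
  · rw [h e ⟨he, hez⟩]

end Pool.Agent.H59.EX
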