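import Pool.Agent.H59.EX.Out0
import Pool.Agent.H29.Sep.Tools

/-!
# Corridors for the outward separation: definitions
-/

open MeasureTheory ProbabilityTheory unitInterval

namespace Pool.Agent.H59.EX

open Pool.Agent.H89.Perc Pool.Agent.H61.NC
open Pool.Agent.H29.Sep (Circ)

/-- `v` lies on the side `d` of `ball 0 r`. -/
def OnSide (d : Side) (r : ℕ) (v : Vert) : Prop :=
  v ∈ sphere 0 r ∧
    match d with
    | .E => v.1 = r
    | .N => v.2 = r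
    | .W => v.1 = -r
    | .S => v.2 = -r

/-- Straight corridor from the vertex `v` on side `d` of `ball 0 (8 w)` to the target rectangle on
the same side. -/
def ZS (d : Side) (w ρ : ℕ) (v : Vert) : Set Vert :=
  match d with
  | .E => ball v (3 * ρ) ∪ rect (8 * w) (17 * w) (v.2 - ρ) (v.2 + ρ) ∪
      rect (16 * w) (144 * w) (-(12 * w)) (12 * w)
  | .N => ball v (3 * ρ) ∪ rect (v.1 - ρ) (v.1 + ρ) (8 * w) (17 * w) ∪
      rect (-(12 * w)) (12 * w) (16 * w) (144 * w)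
  | .W => ball v (3 * ρ) ∪ rect (-(17 * w)) (-(8 * w)) (v.2 - ρ) (v.2 + ρ) ∪
      rect (-(144 * w)) (-(16 * w)) (-(12 * w)) (12 * w)
  | .S => ball v (3 * ρ) ∪ rect (v.1 - ρ) (v.1 + ρ) (-(17 * w)) (-(8 * w)) ∪
      rect (-(12 * w)) (12 * w) (-(144 * w)) (-(16 * w))

/-- Crossing event of the straight corridor. -/
def NS (d : Side) (w ρ : ℕ) (v : Vert) : Set Config :=
  match d with
  | .E => {ω | ω ∈ Circ v ρ ∧ HCross ω (8 * w) (17 * w) (v.2 - ρ) (v.2 + ρ) ∧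
      VCross ω (16 * w) (17 * w) (-(12 * w)) (12 * w) ∧
      HCross ω (16 * w) (144 * w) (-(12 * w)) (12 * w) ∧
      VCross ω (112 * w) (144 * w) (-(12 * w)) (12 * w)}
  | .N => {ω | ω ∈ Circ v ρ ∧ VCross ω (v.1 - ρ) (v.1 + ρ) (8 * w) (17 * w) ∧
      HCross ω (-(12 * w)) (12 * w) (16 * w) (17 * w) ∧
      VCross ω (-(12 * w)) (12 * w) (16 * w) (144 * w) ∧
      HCross ω (-(12 * w)) (12 * w) (112 * w) (144 * w)}
  | .W => {ω | ω ∈ Circ v ρ ∧ HCross ω (-(17 * w)) (-(8 * w)) (v.2 - ρ) (v.2 + ρ) ∧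
      VCross ω (-(17 * w)) (-(16 * w)) (-(12 * w)) (12 * w) ∧
      HCross ω (-(144 * w)) (-(16 * w)) (-(12 * w)) (12 * w) ∧
      VCross ω (-(144 * w)) (-(112 * w)) (-(12 * w)) (12 * w)}
  | .S => {ω | ω ∈ Circ v ρ ∧ VCross ω (v.1 - ρ) (v.1 + ρ) (-(17 * w)) (-(8 * w)) ∧
      HCross ω (-(12 * w)) (12 * w) (-(17 * w)) (-(16 * w)) ∧
      VCross ω (-(12 * w)) (12 * w) (-(144 * w)) (-(16 * w)) ∧
      HCross ω (-(12 * w)) (12 * w) (-(144 * w)) (-(112 * w))}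

/-- Corridor from the vertex `v` on the east side of `ball 0 (8 w)` turning to the target rectangle
in the north. -/
def ZTN (w ρ : ℕ) (v : Vert) : Set Vert :=
  ball v (3 * ρ) ∪ rect (8 * w) (13 * w) (v.2 - ρ) (v.2 + ρ) ∪
    rect (12 * w) (13 * w) (v.2 - ρ) (13 * w) ∪ rect (-(4 * w)) (13 * w) (12 * w) (13 * w) ∪
    rect (-(4 * w)) (4 * w) (12 * w) (144 * w) ∪ rect (-(12 * w)) (12 * w) (112 * w) (144 * w)

/-- Crossing event. -/
def NTN (w ρ : ℕ) (v : Vert) : Set Config :=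
  {ω | ω ∈ Circ v ρ ∧ HCross ω (8 * w) (13 * w) (v.2 - ρ) (v.2 + ρ) ∧
    VCross ω (12 * w) (13 * w) (v.2 - ρ) (13 * w) ∧ HCross ω (-(4 * w)) (13 * w) (12 * w) (13 * w) ∧
    VCross ω (-(4 * w)) (4 * w) (12 * w) (144 * w) ∧
    HCross ω (-(12 * w)) (12 * w) (112 * w) (144 * w)}

/-- Corridor from the vertex `v` on the east side turning to the target rectangle in the south. -/
def ZTS (w ρ : ℕ) (v : Vert) : Set Vert :=
  ball v (3 * ρ) ∪ rect (8 * w) (13 * w) (v.2 - ρ) (v.2 + ρ) ∪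
    rect (12 * w) (13 * w) (-(13 * w)) (v.2 + ρ) ∪ rect (-(4 * w)) (13 * w) (-(13 * w)) (-(12 * w)) ∪
    rect (-(4 * w)) (4 * w) (-(144 * w)) (-(12 * w)) ∪
    rect (-(12 * w)) (12 * w) (-(144 * w)) (-(112 * w))

/-- Crossing event. -/
def NTS (w ρ : ℕ) (v : Vert) : Set Config :=
  {ω | ω ∈ Circ v ρ ∧ HCross ω (8 * w) (13 * w) (v.2 - ρ) (v.2 + ρ) ∧
    VCross ω (12 * w) (13 * w) (-(13 * w)) (v.2 + ρ) ∧
    HCross ω (-(4 * w)) (13 * w) (-(13 * w)) (-(12 * w)) ∧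
    VCross ω (-(4 * w)) (4 * w) (-(144 * w)) (-(12 * w)) ∧
    HCross ω (-(12 * w)) (12 * w) (-(144 * w)) (-(112 * w))}

end Pool.Agent.H59.EX
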