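import Pool.Agent.H59.EX.GeoDef
import Pool.Agent.H59.EX.Fact
import Pool.Agent.H89.Perc.Sep

/-!
# Straight corridors satisfy `CorrData`
-/

open MeasureTheory ProbabilityTheory unitInterval

namespace Pool.Agent.H59.EX

open Pool.Agent.H89.Perc Pool.Agent.H61.NC
open Pool.Agent.H29.Sep (Circ ring ann circ_ring incr_circ localOn_circ mem_eCirc)
open Pool.Agent.H85.Strict (hv_meet)

namespace GeoS

theorem locS_hcross {Z : Set Vert} {a b c d : ℤ} (h : rect a b c d ⊆ Z) :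
    LocS (inE Z) {ω | HCross ω a b c d} := by
  rintro ω ω' hω ⟨u, v, hu, hv, hc⟩
  exact ⟨u, v, hu, hv, hc.congr fun e h1 h2 => hω e ⟨h h1, h h2⟩⟩

theorem locS_vcross {Z : Set Vert} {a b c d : ℤ} (h : rect a b c d ⊆ Z) :
    LocS (inE Z) {ω | VCross ω a b c d} := by
  rintro ω ω' hω ⟨u, v, hu, hv, hc⟩
  exact ⟨u, v, hu, hv, hc.congr fun e h1 h2 => hω e ⟨h h1, h h2⟩⟩

theorem locS_circ {Z : Set Vert} {v : Vert} {ρ : ℕ} (h : ball v (3 * ρ) ⊆ Z) :
    LocS (inE Z) (Circ v ρ) := by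
  intro ω ω' hω hc
  refine localOn_circ v ρ ω ω' (fun e he => hω e ?_) hc
  rw [mem_eCirc] at he
  exact ⟨h he.1.1, h he.2.1⟩

theorem incr_h (a b c d : ℤ) : Incr {ω | HCross ω a b c d} := by
  rintro ω ω' hω ⟨u, v, hu, hv, hc⟩
  exact ⟨u, v, hu, hv, hc.mono le_rfl hω⟩

theorem incr_v (a b c d : ℤ) : Incr {ω | VCross ω a b c d} := by
  rintro ω ω' hω ⟨u, v, hu, hv, hc⟩
  exact ⟨u, v, hu, hv, hc.mono le_rfl hω⟩

/-- Hooking onto the ring and following a chain of crossings. -/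
theorem hook_chain {Z : Set Vert} {ω : Config} {v : Vert} {ρ : ℕ} (hρ : 1 ≤ ρ)
    (hC : ω ∈ Circ v ρ) (hball : ball v (3 * ρ) ⊆ Z) {R1 R2 R3 R4 : Set Vert}
    (h1 : R1 ⊆ Z) (h2 : R2 ⊆ Z) (h3 : R3 ⊆ Z) (h4 : R4 ⊆ Z) {p0 p1 a2 a3 a4 z12 z23 z34 : Vert}
    (hP : Conn ω R1 p0 p1) (hp0 : p0 ∈ ball v ρ) (hp1 : p1 ∉ ball v (3 * ρ))
    (k1 : Conn ω R1 p0 z12) (k2 : Conn ω R2 a2 z12) (k3 : Conn ω R2 a2 z23)
    (k4 : Conn ω R3 a3 z23) (k5 : Conn ω R3 a3 z34) (k6 : Conn ω R4 a4 z34)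
    {η : Config} {D : Set Vert} {u u' : Vert} (hc : Conn η D u u') (hu : u ∈ ball v ρ)
    (hu' : u' ∉ ball v (3 * ρ)) : ∃ z, Conn η D u z ∧ Conn ω Z z a4 := by
  obtain ⟨hsub, hconn, hhit⟩ := circ_ring hρ hC
  obtain ⟨z, hz, hz'⟩ := hhit η D u u' hc hu (Or.inr hu')
  obtain ⟨w, hw, hw'⟩ := hhit ω R1 p0 p1 hP hp0 (Or.inr hp1)
  refine ⟨z, hz', ?_⟩
  have hann : ann v ρ (3 * ρ) ⊆ Z := fun a ha => hball ha.1
  have e1 : Conn ω Z z w := (hconn z hz w hw).mono_set hann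
  have e2 : Conn ω Z w z12 := (hw'.mono_set h1).symm.trans (k1.mono_set h1)
  have e3 : Conn ω Z z12 z23 := (k2.mono_set h2).symm.trans (k3.mono_set h2)
  have e4 : Conn ω Z z23 z34 := (k4.mono_set h3).symm.trans (k5.mono_set h3)
  exact (((e1.trans e2).trans e3).trans e4).trans (k6.mono_set h4).symm

theorem conn_hub {A B C : Set Vert} {p q : Vert} (hA : ∀ a ∈ A, Conn allOpen A a p)
    (hpB : p ∈ B) (hB : ∀ a ∈ B, ∀ b ∈ B, Conn allOpen B a b) (hqB : q ∈ B)
    (hC : ∀ a ∈ C, Conn allOpen C a q) :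
    ∀ a ∈ A ∪ B ∪ C, ∀ b ∈ A ∪ B ∪ C, Conn allOpen (A ∪ B ∪ C) a b := by
  have hA' : A ⊆ A ∪ B ∪ C := fun x hx => Or.inl (Or.inl hx)
  have hB' : B ⊆ A ∪ B ∪ C := fun x hx => Or.inl (Or.inr hx)
  have hC' : C ⊆ A ∪ B ∪ C := fun x hx => Or.inr hx
  have key : ∀ a ∈ A ∪ B ∪ C, Conn allOpen (A ∪ B ∪ C) a p := by
    rintro a ((ha | ha) | ha)
    · exact (hA a ha).mono_set hA'
    · exact (hB a ha p hpB).mono_set hB'
    · exact ((hC a ha).mono_set hC').trans ((hB q hqB p hpB).mono_set hB')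
  intro a ha b hb
  exact (key a ha).trans (key b hb).symm

theorem corr_E {w ρ : ℕ} {v : Vert} (hρ : 1 ≤ ρ) (hw : 64 * ρ ≤ w)
    (hv : OnSide .E (8 * w) v) : CorrData w ρ v .E (ZS .E w ρ v) (NS .E w ρ v) := by
  obtain ⟨⟨hvb, -⟩, hv1⟩ := hv
  simp only [mem_ball, Prod.fst_zero, Prod.snd_zero] at hvb hv1
  have s1 : ball v (3 * ρ) ⊆ ZS .E w ρ v := fun x hx => Or.inl (Or.inl hx)
  have s2 : rect (8 * w) (17 * w) (v.2 - ρ) (v.2 + ρ) ⊆ ZS .E w ρ v :=
    fun x hx => Or.inl (Or.inr hx)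
  have s3 : rect (16 * w) (144 * w) (-(12 * w)) (12 * w) ⊆ ZS .E w ρ v :=
    fun x hx => Or.inr hx
  have s4 : rect (16 * w) (17 * w) (-(12 * w)) (12 * w) ⊆ ZS .E w ρ v := by
    refine Set.Subset.trans ?_ s3
    intro x hx
    simp only [rect, Set.mem_ofPred_eq] at hx ⊢
    omega
  have s5 : rect (112 * w) (144 * w) (-(12 * w)) (12 * w) ⊆ ZS .E w ρ v := by
    refine Set.Subset.trans ?_ s3
    intro x hx
    simp only [rect, Set.mem_ofPred_eq] at hx ⊢
    omega
  refine ⟨s1, ?_, ?_, ?_, ?_, ?_, ?_, ?_, ?_⟩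
  · refine Set.Subset.trans ?_ s3
    intro x hx
    simp only [T, rect, Set.mem_ofPred_eq] at hx ⊢
    push_cast at hx
    omega
  · rintro x ((hx | hx) | hx)
    · left
      simp only [mem_ball, Prod.fst_zero, Prod.snd_zero] at hx ⊢
      omega
    · left
      simp only [rect, mem_ball, Set.mem_ofPred_eq, Prod.fst_zero, Prod.snd_zero] at hx ⊢
      omega
    · by_cases h : x.1 ≤ 128 * w
      · left
        simp only [rect, mem_ball, Set.mem_ofPred_eq, Prod.fst_zero, Prod.snd_zero] at hx ⊢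
        omega
      · right
        simp only [T, rect, Set.mem_ofPred_eq] at hx ⊢
        push_cast
        omega
  · rintro a ((ha | ha) | ha) b hb hba
    · simp only [mem_ball, Prod.fst_zero, Prod.snd_zero] at ha hb hba ⊢
      omega
    · simp only [rect, mem_ball, Set.mem_ofPred_eq, Prod.fst_zero, Prod.snd_zero] at ha hb hba ⊢
      omega
    · simp only [rect, mem_ball, Set.mem_ofPred_eq, Prod.fst_zero, Prod.snd_zero] at ha hb hba ⊢
      omega
  · refine conn_hub (p := v) (q := (16 * w, v.2)) (fun a ha => conn_rect ha self_mem_ball) ?_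
      (fun a ha b hb => conn_rect ha hb) ?_ (fun a ha => conn_rect ha ?_)
    · simp only [rect, Set.mem_ofPred_eq]
      omega
    · simp only [rect, Set.mem_ofPred_eq]
      omega
    · simp only [rect, Set.mem_ofPred_eq]
      omega
  · rintro ω ω' hω ⟨h1, h2, h3, h4, h5⟩
    exact ⟨incr_circ v ρ ω ω' hω h1, incr_h _ _ _ _ ω ω' hω h2, incr_v _ _ _ _ ω ω' hω h3,
      incr_h _ _ _ _ ω ω' hω h4, incr_v _ _ _ _ ω ω' hω h5⟩
  · rintro ω ω' hω ⟨h1, h2, h3, h4, h5⟩
    exact ⟨locS_circ s1 ω ω' hω h1, locS_hcross s2 ω ω' hω h2, locS_vcross s4 ω ω' hω h3,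
      locS_hcross s3 ω ω' hω h4, locS_vcross s5 ω ω' hω h5⟩
  · rintro ω ⟨h1, ⟨p, p', hp, hp', hP⟩, ⟨a, a', ha, ha', hA⟩, ⟨b, b', hb, hb', hB⟩,
      ⟨e, e', he, he', hE⟩⟩ η D u u' hc hu hu'
    have mp := hP.mem_left
    have mp' := hP.mem_right
    simp only [rect, Set.mem_ofPred_eq] at mp mp'
    obtain ⟨z1, k1, k2⟩ := hv_meet hP (by omega) (by omega) hA (by omega) (by omega) (by omega)
      (by omega)
    obtain ⟨z2, k3, k4⟩ := hv_meet hB (by omega) (by omega) hA (by omega) (by omega) (by omega)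
      (by omega)
    obtain ⟨z3, k5, k6⟩ := hv_meet hB (by omega) (by omega) hE (by omega) (by omega) (by omega)
      (by omega)
    obtain ⟨z, m1, m2⟩ := hook_chain hρ h1 s1 s2 s4 s3 s5 hP
      (by simp only [mem_ball]; omega) (by simp only [mem_ball]; omega) k1 k2 k4 k3 k5 k6 hc hu hu'
    refine ⟨z, m1, e, e', ?_, ?_, ?_, m2⟩
    · push_cast
      omega
    · push_cast
      omega
    · refine hE.mono_set ?_
      intro x hx
      simp only [T, rect, Set.mem_ofPred_eq] at hx ⊢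
      push_cast
      omega
  · rintro z ⟨hz, hz'⟩ a ((ha | ha) | ha) hza
    · simp only [mem_ball, Prod.fst_zero, Prod.snd_zero] at ha hz hz' hza
      omega
    · simp only [rect, mem_ball, Set.mem_ofPred_eq, Prod.fst_zero, Prod.snd_zero] at ha hz hz' hza
      omega
    · simp only [Mouth, rect, mem_ball, Set.mem_ofPred_eq, Prod.fst_zero, Prod.snd_zero] at ha hz hz' hza ⊢
      push_cast
      omega

theorem corr_N {w ρ : ℕ} {v : Vert} (hρ : 1 ≤ ρ) (hw : 64 * ρ ≤ w)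
    (hv : OnSide .N (8 * w) v) : CorrData w ρ v .N (ZS .N w ρ v) (NS .N w ρ v) := by
  obtain ⟨⟨hvb, -⟩, hv1⟩ := hv
  simp only [mem_ball, Prod.fst_zero, Prod.snd_zero] at hvb hv1
  have s1 : ball v (3 * ρ) ⊆ ZS .N w ρ v := fun x hx => Or.inl (Or.inl hx)
  have s2 : rect (v.1 - ρ) (v.1 + ρ) (8 * w) (17 * w) ⊆ ZS .N w ρ v :=
    fun x hx => Or.inl (Or.inr hx)
  have s3 : rect (-(12 * w)) (12 * w) (16 * w) (144 * w) ⊆ ZS .N w ρ v :=
    fun x hx => Or.inr hx
  have s4 : rect (-(12 * w)) (12 * w) (16 * w) (17 * w) ⊆ ZS .N w ρ v := by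
    refine Set.Subset.trans ?_ s3
    intro x hx
    simp only [rect, Set.mem_ofPred_eq] at hx ⊢
    omega
  have s5 : rect (-(12 * w)) (12 * w) (112 * w) (144 * w) ⊆ ZS .N w ρ v := by
    refine Set.Subset.trans ?_ s3
    intro x hx
    simp only [rect, Set.mem_ofPred_eq] at hx ⊢
    omega
  refine ⟨s1, ?_, ?_, ?_, ?_, ?_, ?_, ?_, ?_⟩
  · refine Set.Subset.trans ?_ s3
    intro x hx
    simp only [T, rect, Set.mem_ofPred_eq] at hx ⊢
    push_cast at hx
    omega
  · rintro x ((hx | hx) | hx)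
    · left
      simp only [mem_ball, Prod.fst_zero, Prod.snd_zero] at hx ⊢
      omega
    · left
      simp only [rect, mem_ball, Set.mem_ofPred_eq, Prod.fst_zero, Prod.snd_zero] at hx ⊢
      omega
    · by_cases h : x.2 ≤ 128 * w
      · left
        simp only [rect, mem_ball, Set.mem_ofPred_eq, Prod.fst_zero, Prod.snd_zero] at hx ⊢
        omega
      · right
        simp only [T, rect, Set.mem_ofPred_eq] at hx ⊢
        push_cast
        omega
  · rintro a ((ha | ha) | ha) b hb hba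
    · simp only [mem_ball, Prod.fst_zero, Prod.snd_zero] at ha hb hba ⊢
      omega
    · simp only [rect, mem_ball, Set.mem_ofPred_eq, Prod.fst_zero, Prod.snd_zero] at ha hb hba ⊢
      omega
    · simp only [rect, mem_ball, Set.mem_ofPred_eq, Prod.fst_zero, Prod.snd_zero] at ha hb hba ⊢
      omega
  · refine conn_hub (p := v) (q := (v.1, 16 * w)) (fun a ha => conn_rect ha self_mem_ball) ?_
      (fun a ha b hb => conn_rect ha hb) ?_ (fun a ha => conn_rect ha ?_)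
    · simp only [rect, Set.mem_ofPred_eq]
      omega
    · simp only [rect, Set.mem_ofPred_eq]
      omega
    · simp only [rect, Set.mem_ofPred_eq]
      omega
  · rintro ω ω' hω ⟨h1, h2, h3, h4, h5⟩
    exact ⟨incr_circ v ρ ω ω' hω h1, incr_v _ _ _ _ ω ω' hω h2, incr_h _ _ _ _ ω ω' hω h3,
      incr_v _ _ _ _ ω ω' hω h4, incr_h _ _ _ _ ω ω' hω h5⟩
  · rintro ω ω' hω ⟨h1, h2, h3, h4, h5⟩
    exact ⟨locS_circ s1 ω ω' hω h1, locS_vcross s2 ω ω' hω h2, locS_hcross s4 ω ω' hω h3,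
      locS_vcross s3 ω ω' hω h4, locS_hcross s5 ω ω' hω h5⟩
  · rintro ω ⟨h1, ⟨p, p', hp, hp', hP⟩, ⟨a, a', ha, ha', hA⟩, ⟨b, b', hb, hb', hB⟩,
      ⟨e, e', he, he', hE⟩⟩ η D u u' hc hu hu'
    have mp := hP.mem_left
    have mp' := hP.mem_right
    simp only [rect, Set.mem_ofPred_eq] at mp mp'
    obtain ⟨z1, k2, k1⟩ := hv_meet hA (by omega) (by omega) hP (by omega) (by omega) (by omega)
      (by omega)
    obtain ⟨z2, k4, k3⟩ := hv_meet hA (by omega) (by omega) hB (by omega) (by omega) (by omega)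
      (by omega)
    obtain ⟨z3, k6, k5⟩ := hv_meet hE (by omega) (by omega) hB (by omega) (by omega) (by omega)
      (by omega)
    obtain ⟨z, m1, m2⟩ := hook_chain hρ h1 s1 s2 s4 s3 s5 hP
      (by simp only [mem_ball]; omega) (by simp only [mem_ball]; omega) k1 k2 k4 k3 k5 k6 hc hu hu'
    refine ⟨z, m1, e, e', ?_, ?_, ?_, m2⟩
    · push_cast
      omega
    · push_cast
      omega
    · refine hE.mono_set ?_
      intro x hx
      simp only [T, rect, Set.mem_ofPred_eq] at hx ⊢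
      push_cast
      omega
  · rintro z ⟨hz, hz'⟩ a ((ha | ha) | ha) hza
    · simp only [mem_ball, Prod.fst_zero, Prod.snd_zero] at ha hz hz' hza
      omega
    · simp only [rect, mem_ball, Set.mem_ofPred_eq, Prod.fst_zero, Prod.snd_zero] at ha hz hz' hza
      omega
    · simp only [Mouth, rect, mem_ball, Set.mem_ofPred_eq, Prod.fst_zero, Prod.snd_zero] at ha hz hz' hza ⊢
      push_cast
      omega

theorem corr_W {w ρ : ℕ} {v : Vert} (hρ : 1 ≤ ρ) (hw : 64 * ρ ≤ w)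
    (hv : OnSide .W (8 * w) v) : CorrData w ρ v .W (ZS .W w ρ v) (NS .W w ρ v) := by
  obtain ⟨⟨hvb, -⟩, hv1⟩ := hv
  simp only [mem_ball, Prod.fst_zero, Prod.snd_zero] at hvb hv1
  have s1 : ball v (3 * ρ) ⊆ ZS .W w ρ v := fun x hx => Or.inl (Or.inl hx)
  have s2 : rect (-(17 * w)) (-(8 * w)) (v.2 - ρ) (v.2 + ρ) ⊆ ZS .W w ρ v :=
    fun x hx => Or.inl (Or.inr hx)
  have s3 : rect (-(144 * w)) (-(16 * w)) (-(12 * w)) (12 * w) ⊆ ZS .W w ρ v :=
    fun x hx => Or.inr hx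
  have s4 : rect (-(17 * w)) (-(16 * w)) (-(12 * w)) (12 * w) ⊆ ZS .W w ρ v := by
    refine Set.Subset.trans ?_ s3
    intro x hx
    simp only [rect, Set.mem_ofPred_eq] at hx ⊢
    omega
  have s5 : rect (-(144 * w)) (-(112 * w)) (-(12 * w)) (12 * w) ⊆ ZS .W w ρ v := by
    refine Set.Subset.trans ?_ s3
    intro x hx
    simp only [rect, Set.mem_ofPred_eq] at hx ⊢
    omega
  refine ⟨s1, ?_, ?_, ?_, ?_, ?_, ?_, ?_, ?_⟩
  · refine Set.Subset.trans ?_ s3
    intro x hx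
    simp only [T, rect, Set.mem_ofPred_eq] at hx ⊢
    push_cast at hx
    omega
  · rintro x ((hx | hx) | hx)
    · left
      simp only [mem_ball, Prod.fst_zero, Prod.snd_zero] at hx ⊢
      omega
    · left
      simp only [rect, mem_ball, Set.mem_ofPred_eq, Prod.fst_zero, Prod.snd_zero] at hx ⊢
      omega
    · by_cases h : -(128 * w) ≤ x.1
      · left
        simp only [rect, mem_ball, Set.mem_ofPred_eq, Prod.fst_zero, Prod.snd_zero] at hx ⊢
        omega
      · right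
        simp only [T, rect, Set.mem_ofPred_eq] at hx ⊢
        push_cast
        omega
  · rintro a ((ha | ha) | ha) b hb hba
    · simp only [mem_ball, Prod.fst_zero, Prod.snd_zero] at ha hb hba ⊢
      omega
    · simp only [rect, mem_ball, Set.mem_ofPred_eq, Prod.fst_zero, Prod.snd_zero] at ha hb hba ⊢
      omega
    · simp only [rect, mem_ball, Set.mem_ofPred_eq, Prod.fst_zero, Prod.snd_zero] at ha hb hba ⊢
      omega
  · refine conn_hub (p := v) (q := (-(16 * w), v.2)) (fun a ha => conn_rect ha self_mem_ball) ?_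
      (fun a ha b hb => conn_rect ha hb) ?_ (fun a ha => conn_rect ha ?_)
    · simp only [rect, Set.mem_ofPred_eq]
      omega
    · simp only [rect, Set.mem_ofPred_eq]
      omega
    · simp only [rect, Set.mem_ofPred_eq]
      omega
  · rintro ω ω' hω ⟨h1, h2, h3, h4, h5⟩
    exact ⟨incr_circ v ρ ω ω' hω h1, incr_h _ _ _ _ ω ω' hω h2, incr_v _ _ _ _ ω ω' hω h3,
      incr_h _ _ _ _ ω ω' hω h4, incr_v _ _ _ _ ω ω' hω h5⟩
  · rintro ω ω' hω ⟨h1, h2, h3, h4, h5⟩
    exact ⟨locS_circ s1 ω ω' hω h1, locS_hcross s2 ω ω' hω h2, locS_vcross s4 ω ω' hω h3,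
      locS_hcross s3 ω ω' hω h4, locS_vcross s5 ω ω' hω h5⟩
  · rintro ω ⟨h1, ⟨p, p', hp, hp', hP⟩, ⟨a, a', ha, ha', hA⟩, ⟨b, b', hb, hb', hB⟩,
      ⟨e, e', he, he', hE⟩⟩ η D u u' hc hu hu'
    have mp := hP.mem_left
    have mp' := hP.mem_right
    simp only [rect, Set.mem_ofPred_eq] at mp mp'
    obtain ⟨z1, k1, k2⟩ := hv_meet hP (by omega) (by omega) hA (by omega) (by omega) (by omega)
      (by omega)
    obtain ⟨z2, k3, k4⟩ := hv_meet hB (by omega) (by omega) hA (by omega) (by omega) (by omega)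
      (by omega)
    obtain ⟨z3, k5, k6⟩ := hv_meet hB (by omega) (by omega) hE (by omega) (by omega) (by omega)
      (by omega)
    obtain ⟨z, m1, m2⟩ := hook_chain hρ h1 s1 s2 s4 s3 s5 hP.symm
      (by simp only [mem_ball]; omega) (by simp only [mem_ball]; omega) (hP.symm.trans k1) k2 k4 k3
      k5 k6 hc hu hu'
    refine ⟨z, m1, e, e', ?_, ?_, ?_, m2⟩
    · push_cast
      omega
    · push_cast
      omega
    · refine hE.mono_set ?_
      intro x hx
      simp only [T, rect, Set.mem_ofPred_eq] at hx ⊢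
      push_cast
      omega
  · rintro z ⟨hz, hz'⟩ a ((ha | ha) | ha) hza
    · simp only [mem_ball, Prod.fst_zero, Prod.snd_zero] at ha hz hz' hza
      omega
    · simp only [rect, mem_ball, Set.mem_ofPred_eq, Prod.fst_zero, Prod.snd_zero] at ha hz hz' hza
      omega
    · simp only [Mouth, rect, mem_ball, Set.mem_ofPred_eq, Prod.fst_zero, Prod.snd_zero] at ha hz hz' hza ⊢
      push_cast
      omega

theorem corr_S {w ρ : ℕ} {v : Vert} (hρ : 1 ≤ ρ) (hw : 64 * ρ ≤ w)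
    (hv : OnSide .S (8 * w) v) : CorrData w ρ v .S (ZS .S w ρ v) (NS .S w ρ v) := by
  obtain ⟨⟨hvb, -⟩, hv1⟩ := hv
  simp only [mem_ball, Prod.fst_zero, Prod.snd_zero] at hvb hv1
  have s1 : ball v (3 * ρ) ⊆ ZS .S w ρ v := fun x hx => Or.inl (Or.inl hx)
  have s2 : rect (v.1 - ρ) (v.1 + ρ) (-(17 * w)) (-(8 * w)) ⊆ ZS .S w ρ v :=
    fun x hx => Or.inl (Or.inr hx)
  have s3 : rect (-(12 * w)) (12 * w) (-(144 * w)) (-(16 * w)) ⊆ ZS .S w ρ v :=
    fun x hx => Or.inr hx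
  have s4 : rect (-(12 * w)) (12 * w) (-(17 * w)) (-(16 * w)) ⊆ ZS .S w ρ v := by
    refine Set.Subset.trans ?_ s3
    intro x hx
    simp only [rect, Set.mem_ofPred_eq] at hx ⊢
    omega
  have s5 : rect (-(12 * w)) (12 * w) (-(144 * w)) (-(112 * w)) ⊆ ZS .S w ρ v := by
    refine Set.Subset.trans ?_ s3
    intro x hx
    simp only [rect, Set.mem_ofPred_eq] at hx ⊢
    omega
  refine ⟨s1, ?_, ?_, ?_, ?_, ?_, ?_, ?_, ?_⟩
  · refine Set.Subset.trans ?_ s3
    intro x hx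
    simp only [T, rect, Set.mem_ofPred_eq] at hx ⊢
    push_cast at hx
    omega
  · rintro x ((hx | hx) | hx)
    · left
      simp only [mem_ball, Prod.fst_zero, Prod.snd_zero] at hx ⊢
      omega
    · left
      simp only [rect, mem_ball, Set.mem_ofPred_eq, Prod.fst_zero, Prod.snd_zero] at hx ⊢
      omega
    · by_cases h : -(128 * w) ≤ x.2
      · left
        simp only [rect, mem_ball, Set.mem_ofPred_eq, Prod.fst_zero, Prod.snd_zero] at hx ⊢
        omega
      · right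
        simp only [T, rect, Set.mem_ofPred_eq] at hx ⊢
        push_cast
        omega
  · rintro a ((ha | ha) | ha) b hb hba
    · simp only [mem_ball, Prod.fst_zero, Prod.snd_zero] at ha hb hba ⊢
      omega
    · simp only [rect, mem_ball, Set.mem_ofPred_eq, Prod.fst_zero, Prod.snd_zero] at ha hb hba ⊢
      omega
    · simp only [rect, mem_ball, Set.mem_ofPred_eq, Prod.fst_zero, Prod.snd_zero] at ha hb hba ⊢
      omega
  · refine conn_hub (p := v) (q := (v.1, -(16 * w))) (fun a ha => conn_rect ha self_mem_ball) ?_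
      (fun a ha b hb => conn_rect ha hb) ?_ (fun a ha => conn_rect ha ?_)
    · simp only [rect, Set.mem_ofPred_eq]
      omega
    · simp only [rect, Set.mem_ofPred_eq]
      omega
    · simp only [rect, Set.mem_ofPred_eq]
      omega
  · rintro ω ω' hω ⟨h1, h2, h3, h4, h5⟩
    exact ⟨incr_circ v ρ ω ω' hω h1, incr_v _ _ _ _ ω ω' hω h2, incr_h _ _ _ _ ω ω' hω h3,
      incr_v _ _ _ _ ω ω' hω h4, incr_h _ _ _ _ ω ω' hω h5⟩
  · rintro ω ω' hω ⟨h1, h2, h3, h4, h5⟩
    exact ⟨locS_circ s1 ω ω' hω h1, locS_vcross s2 ω ω' hω h2, locS_hcross s4 ω ω' hω h3,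
      locS_vcross s3 ω ω' hω h4, locS_hcross s5 ω ω' hω h5⟩
  · rintro ω ⟨h1, ⟨p, p', hp, hp', hP⟩, ⟨a, a', ha, ha', hA⟩, ⟨b, b', hb, hb', hB⟩,
      ⟨e, e', he, he', hE⟩⟩ η D u u' hc hu hu'
    have mp := hP.mem_left
    have mp' := hP.mem_right
    simp only [rect, Set.mem_ofPred_eq] at mp mp'
    obtain ⟨z1, k2, k1⟩ := hv_meet hA (by omega) (by omega) hP (by omega) (by omega) (by omega)
      (by omega)
    obtain ⟨z2, k4, k3⟩ := hv_meet hA (by omega) (by omega) hB (by omega) (by omega) (by omega)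
      (by omega)
    obtain ⟨z3, k6, k5⟩ := hv_meet hE (by omega) (by omega) hB (by omega) (by omega) (by omega)
      (by omega)
    obtain ⟨z, m1, m2⟩ := hook_chain hρ h1 s1 s2 s4 s3 s5 hP.symm
      (by simp only [mem_ball]; omega) (by simp only [mem_ball]; omega) (hP.symm.trans k1) k2 k4 k3
      k5 k6 hc hu hu'
    refine ⟨z, m1, e, e', ?_, ?_, ?_, m2⟩
    · push_cast
      omega
    · push_cast
      omega
    · refine hE.mono_set ?_
      intro x hx
      simp only [T, rect, Set.mem_ofPred_eq] at hx ⊢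
      push_cast
      omega
  · rintro z ⟨hz, hz'⟩ a ((ha | ha) | ha) hza
    · simp only [mem_ball, Prod.fst_zero, Prod.snd_zero] at ha hz hz' hza
      omega
    · simp only [rect, mem_ball, Set.mem_ofPred_eq, Prod.fst_zero, Prod.snd_zero] at ha hz hz' hza
      omega
    · simp only [Mouth, rect, mem_ball, Set.mem_ofPred_eq, Prod.fst_zero, Prod.snd_zero] at ha hz hz' hza ⊢
      push_cast
      omega

end GeoS

theorem corr_straight {d : Side} {w ρ : ℕ} {v : Vert} (hρ : 1 ≤ ρ) (hw : 64 * ρ ≤ w)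
    (hv : OnSide d (8 * w) v) : CorrData w ρ v d (ZS d w ρ v) (NS d w ρ v) := by
  cases d with
  | E => exact GeoS.corr_E hρ hw hv
  | N => exact GeoS.corr_N hρ hw hv
  | W => exact GeoS.corr_W hρ hw hv
  | S => exact GeoS.corr_S hρ hw hv

end Pool.Agent.H59.EX
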