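import Pool.Agent.H59.EX.GeoDef

/-!
# The corridors of the two points are far apart
-/

open MeasureTheory ProbabilityTheory unitInterval

namespace Pool.Agent.H59.EX

open Pool.Agent.H89.Perc Pool.Agent.H61.NC

variable {w ρ ρ' : ℕ} {v v' : Vert}

theorem sep_EN (hρ' : 1 ≤ ρ') (h1 : 64 * ρ' ≤ ρ) (h2 : 64 * ρ ≤ w) (hv : OnSide .E (8 * w) v)
    (hv' : OnSide .N (8 * w) v') (hvv : v' ∉ ball v (10 * ρ)) :
    CorrSep w ρ' v' (ZS .E w ρ v) (ZS .N w ρ' v') := by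
  obtain ⟨v1, v2⟩ := v
  obtain ⟨u1, u2⟩ := v'
  obtain ⟨⟨hb, -⟩, he⟩ := hv
  obtain ⟨⟨hb', -⟩, he'⟩ := hv'
  simp only [ball, rect, Set.mem_setOf_eq, Prod.fst_zero, Prod.snd_zero] at hb hb' he he' hvv
  refine ⟨?_, ?_⟩
  · rintro ⟨a1, a2⟩ ha ⟨b1, b2⟩ hb1 hb2
    simp only [ZS, ball, rect, Set.mem_union, Set.mem_setOf_eq] at ha hb1 hb2
    rcases ha with (ha | ha) | ha <;> rcases hb1 with (hb1 | hb1) | hb1 <;> omega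
  · rintro ⟨z1, z2⟩ hz ⟨a1, a2⟩ ⟨ha, -⟩ hza
    simp only [ZS, ball, rect, Set.mem_union, Set.mem_setOf_eq, Prod.fst_zero, Prod.snd_zero]
      at hz ha hza ⊢
    rcases hz with (hz | hz) | hz <;> omega

theorem sep_ES (hρ' : 1 ≤ ρ') (h1 : 64 * ρ' ≤ ρ) (h2 : 64 * ρ ≤ w) (hv : OnSide .E (8 * w) v)
    (hv' : OnSide .S (8 * w) v') (hvv : v' ∉ ball v (10 * ρ)) :
    CorrSep w ρ' v' (ZS .E w ρ v) (ZS .S w ρ' v') := by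
  obtain ⟨v1, v2⟩ := v
  obtain ⟨u1, u2⟩ := v'
  obtain ⟨⟨hb, -⟩, he⟩ := hv
  obtain ⟨⟨hb', -⟩, he'⟩ := hv'
  simp only [ball, rect, Set.mem_setOf_eq, Prod.fst_zero, Prod.snd_zero] at hb hb' he he' hvv
  refine ⟨?_, ?_⟩
  · rintro ⟨a1, a2⟩ ha ⟨b1, b2⟩ hb1 hb2
    simp only [ZS, ball, rect, Set.mem_union, Set.mem_setOf_eq] at ha hb1 hb2
    rcases ha with (ha | ha) | ha <;> rcases hb1 with (hb1 | hb1) | hb1 <;> omega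
  · rintro ⟨z1, z2⟩ hz ⟨a1, a2⟩ ⟨ha, -⟩ hza
    simp only [ZS, ball, rect, Set.mem_union, Set.mem_setOf_eq, Prod.fst_zero, Prod.snd_zero]
      at hz ha hza ⊢
    rcases hz with (hz | hz) | hz <;> omega

theorem sep_EW (hρ' : 1 ≤ ρ') (h1 : 64 * ρ' ≤ ρ) (h2 : 64 * ρ ≤ w) (hv : OnSide .E (8 * w) v)
    (hv' : OnSide .W (8 * w) v') :
    CorrSep w ρ' v' (ZS .E w ρ v) (ZS .W w ρ' v') := by
  obtain ⟨v1, v2⟩ := v
  obtain ⟨u1, u2⟩ := v'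
  obtain ⟨⟨hb, -⟩, he⟩ := hv
  obtain ⟨⟨hb', -⟩, he'⟩ := hv'
  simp only [ball, rect, Set.mem_setOf_eq, Prod.fst_zero, Prod.snd_zero] at hb hb' he he'
  refine ⟨?_, ?_⟩
  · rintro ⟨a1, a2⟩ ha ⟨b1, b2⟩ hb1 hb2
    simp only [ZS, ball, rect, Set.mem_union, Set.mem_setOf_eq] at ha hb1 hb2
    rcases ha with (ha | ha) | ha <;> rcases hb1 with (hb1 | hb1) | hb1 <;> omega
  · rintro ⟨z1, z2⟩ hz ⟨a1, a2⟩ ⟨ha, -⟩ hza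
    simp only [ZS, ball, rect, Set.mem_union, Set.mem_setOf_eq, Prod.fst_zero, Prod.snd_zero]
      at hz ha hza ⊢
    rcases hz with (hz | hz) | hz <;> omega

theorem sep_ETN (hρ' : 1 ≤ ρ') (h1 : 64 * ρ' ≤ ρ) (h2 : 64 * ρ ≤ w) (hv : OnSide .E (8 * w) v)
    (hv' : OnSide .E (8 * w) v') (hvv : v.2 + 10 * ρ < v'.2) :
    CorrSep w ρ' v' (ZS .E w ρ v) (ZTN w ρ' v') := by
  obtain ⟨v1, v2⟩ := v
  obtain ⟨u1, u2⟩ := v'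
  obtain ⟨⟨hb, -⟩, he⟩ := hv
  obtain ⟨⟨hb', -⟩, he'⟩ := hv'
  simp only [ball, rect, Set.mem_setOf_eq, Prod.fst_zero, Prod.snd_zero] at hb hb' he he' hvv
  refine ⟨?_, ?_⟩
  · rintro ⟨a1, a2⟩ ha ⟨b1, b2⟩ hb1 hb2
    simp only [ZS, ZTN, ball, rect, Set.mem_union, Set.mem_setOf_eq] at ha hb1 hb2
    rcases ha with (ha | ha) | ha <;>
      rcases hb1 with ((((hb1 | hb1) | hb1) | hb1) | hb1) | hb1 <;> omega
  · rintro ⟨z1, z2⟩ hz ⟨a1, a2⟩ ⟨ha, -⟩ hza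
    simp only [ZTN, ball, rect, Set.mem_union, Set.mem_setOf_eq, Prod.fst_zero, Prod.snd_zero]
      at hz ha hza ⊢
    rcases hz with ((((hz | hz) | hz) | hz) | hz) | hz <;> omega

theorem sep_ETS (hρ' : 1 ≤ ρ') (h1 : 64 * ρ' ≤ ρ) (h2 : 64 * ρ ≤ w) (hv : OnSide .E (8 * w) v)
    (hv' : OnSide .E (8 * w) v') (hvv : v'.2 + 10 * ρ < v.2) :
    CorrSep w ρ' v' (ZS .E w ρ v) (ZTS w ρ' v') := by
  obtain ⟨v1, v2⟩ := v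
  obtain ⟨u1, u2⟩ := v'
  obtain ⟨⟨hb, -⟩, he⟩ := hv
  obtain ⟨⟨hb', -⟩, he'⟩ := hv'
  simp only [ball, rect, Set.mem_setOf_eq, Prod.fst_zero, Prod.snd_zero] at hb hb' he he' hvv
  refine ⟨?_, ?_⟩
  · rintro ⟨a1, a2⟩ ha ⟨b1, b2⟩ hb1 hb2
    simp only [ZS, ZTS, ball, rect, Set.mem_union, Set.mem_setOf_eq] at ha hb1 hb2
    rcases ha with (ha | ha) | ha <;>
      rcases hb1 with ((((hb1 | hb1) | hb1) | hb1) | hb1) | hb1 <;> omega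
  · rintro ⟨z1, z2⟩ hz ⟨a1, a2⟩ ⟨ha, -⟩ hza
    simp only [ZTS, ball, rect, Set.mem_union, Set.mem_setOf_eq, Prod.fst_zero, Prod.snd_zero]
      at hz ha hza ⊢
    rcases hz with ((((hz | hz) | hz) | hz) | hz) | hz <;> omega

end Pool.Agent.H59.EX
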