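import Pool.Agent.H59.EX.GeoS

/-!
# Turned corridors satisfy `CorrData`
-/

open MeasureTheory ProbabilityTheory unitInterval

namespace Pool.Agent.H59.EX

open Pool.Agent.H89.Perc Pool.Agent.H61.NC
open Pool.Agent.H29.Sep (Circ ring ann circ_ring incr_circ localOn_circ mem_eCirc)
open Pool.Agent.H85.Strict (hv_meet)

namespace GeoT

open GeoS (locS_hcross locS_vcross locS_circ incr_h incr_v hook_chain)

theorem conn_union {A B : Set Vert} {p : Vert} (hpA : p ∈ A) (hpB : p ∈ B)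
    (hA : ∀ a ∈ A, ∀ b ∈ A, Conn allOpen A a b) (hB : ∀ a ∈ B, ∀ b ∈ B, Conn allOpen B a b) :
    ∀ a ∈ A ∪ B, ∀ b ∈ A ∪ B, Conn allOpen (A ∪ B) a b := by
  have key : ∀ a ∈ A ∪ B, Conn allOpen (A ∪ B) a p := by
    rintro a (ha | ha)
    · exact (hA a ha p hpA).mono_set Set.subset_union_left
    · exact (hB a ha p hpB).mono_set Set.subset_union_right
  intro a ha b hb
  exact (key a ha).trans (key b hb).symm

end GeoT

open GeoS GeoT in
theorem corr_turn_N {w ρ : ℕ} {v : Vert} (hρ : 1 ≤ ρ) (hw : 64 * ρ ≤ w)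
    (hv : OnSide .E (8 * w) v) : CorrData w ρ v .N (ZTN w ρ v) (NTN w ρ v) := by
  obtain ⟨⟨hvb, -⟩, hv1⟩ := hv
  simp only [mem_ball, Prod.fst_zero, Prod.snd_zero] at hvb hv1
  have s0 : ball v (3 * ρ) ⊆ ZTN w ρ v := fun x hx => Or.inl (Or.inl (Or.inl (Or.inl (Or.inl hx))))
  have s1 : rect (8 * w) (13 * w) (v.2 - ρ) (v.2 + ρ) ⊆ ZTN w ρ v :=
    fun x hx => Or.inl (Or.inl (Or.inl (Or.inl (Or.inr hx))))
  have s2 : rect (12 * w) (13 * w) (v.2 - ρ) (13 * w) ⊆ ZTN w ρ v :=
    fun x hx => Or.inl (Or.inl (Or.inl (Or.inr hx)))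
  have s3 : rect (-(4 * w)) (13 * w) (12 * w) (13 * w) ⊆ ZTN w ρ v :=
    fun x hx => Or.inl (Or.inl (Or.inr hx))
  have s4 : rect (-(4 * w)) (4 * w) (12 * w) (144 * w) ⊆ ZTN w ρ v :=
    fun x hx => Or.inl (Or.inr hx)
  have s5 : rect (-(12 * w)) (12 * w) (112 * w) (144 * w) ⊆ ZTN w ρ v :=
    fun x hx => Or.inr hx
  refine ⟨s0, ?_, ?_, ?_, ?_, ?_, ?_, ?_, ?_⟩
  · refine Set.Subset.trans ?_ s5
    intro x hx
    simp only [T, rect, Set.mem_ofPred_eq] at hx ⊢
    push_cast at hx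
    omega
  · rintro x (((((hx | hx) | hx) | hx) | hx) | hx)
    · left
      simp only [mem_ball, Prod.fst_zero, Prod.snd_zero] at hx ⊢
      omega
    · left
      simp only [rect, mem_ball, Set.mem_ofPred_eq, Prod.fst_zero, Prod.snd_zero] at hx ⊢
      omega
    · left
      simp only [rect, mem_ball, Set.mem_ofPred_eq, Prod.fst_zero, Prod.snd_zero] at hx ⊢
      omega
    · left
      simp only [rect, mem_ball, Set.mem_ofPred_eq, Prod.fst_zero, Prod.snd_zero] at hx ⊢
      omega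
    · by_cases h : x.2 ≤ 128 * w
      · left
        simp only [rect, mem_ball, Set.mem_ofPred_eq, Prod.fst_zero, Prod.snd_zero] at hx ⊢
        omega
      · right
        simp only [T, rect, Set.mem_ofPred_eq] at hx ⊢
        push_cast
        omega
    · right
      simp only [T, rect, Set.mem_ofPred_eq] at hx ⊢
      push_cast
      omega
  · rintro a (((((ha | ha) | ha) | ha) | ha) | ha) b hb hba <;>
    · simp only [rect, mem_ball, Set.mem_ofPred_eq, Prod.fst_zero, Prod.snd_zero] at ha hb hba ⊢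
      omega
  · refine conn_union (p := (0, 112 * w)) ?_ ?_ (conn_union (p := (0, 12 * w)) ?_ ?_
      (conn_union (p := (12 * w, 12 * w)) ?_ ?_ (conn_union (p := (12 * w, v.2)) ?_ ?_
      (conn_union (p := v) self_mem_ball ?_ (fun a ha b hb => conn_rect ha hb)
      (fun a ha b hb => conn_rect ha hb)) (fun a ha b hb => conn_rect ha hb))
      (fun a ha b hb => conn_rect ha hb)) (fun a ha b hb => conn_rect ha hb))
      (fun a ha b hb => conn_rect ha hb)
    · right
      simp only [rect, Set.mem_ofPred_eq]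
      omega
    · simp only [rect, Set.mem_ofPred_eq]
      omega
    · right
      simp only [rect, Set.mem_ofPred_eq]
      omega
    · simp only [rect, Set.mem_ofPred_eq]
      omega
    · right
      simp only [rect, Set.mem_ofPred_eq]
      omega
    · simp only [rect, Set.mem_ofPred_eq]
      omega
    · right
      simp only [rect, Set.mem_ofPred_eq]
      omega
    · simp only [rect, Set.mem_ofPred_eq]
      omega
    · simp only [rect, Set.mem_ofPred_eq]
      omega
  · rintro ω ω' hω ⟨h1, h2, h3, h4, h5, h6⟩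
    exact ⟨incr_circ v ρ ω ω' hω h1, incr_h _ _ _ _ ω ω' hω h2, incr_v _ _ _ _ ω ω' hω h3,
      incr_h _ _ _ _ ω ω' hω h4, incr_v _ _ _ _ ω ω' hω h5, incr_h _ _ _ _ ω ω' hω h6⟩
  · rintro ω ω' hω ⟨h1, h2, h3, h4, h5, h6⟩
    exact ⟨locS_circ s0 ω ω' hω h1, locS_hcross s1 ω ω' hω h2, locS_vcross s2 ω ω' hω h3,
      locS_hcross s3 ω ω' hω h4, locS_vcross s4 ω ω' hω h5, locS_hcross s5 ω ω' hω h6⟩
  · rintro ω ⟨h1, ⟨p, p', hp, hp', hP⟩, ⟨a, a', ha, ha', hA⟩, ⟨b, b', hb, hb', hB⟩,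
      ⟨e, e', he, he', hE⟩, ⟨f, f', hf, hf', hF⟩⟩ η D u u' hc hu hu'
    have mp := hP.mem_left
    have mp' := hP.mem_right
    simp only [rect, Set.mem_ofPred_eq] at mp mp'
    obtain ⟨z1, k1, k2⟩ := hv_meet hP (by omega) (by omega) hA (by omega) (by omega) (by omega)
      (by omega)
    obtain ⟨z2, k3, k4⟩ := hv_meet hB (by omega) (by omega) hA (by omega) (by omega) (by omega)
      (by omega)
    obtain ⟨z3, k5, k6⟩ := hv_meet hB (by omega) (by omega) hE (by omega) (by omega) (by omega)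
      (by omega)
    obtain ⟨z4, k7, k8⟩ := hv_meet hF (by omega) (by omega) hE (by omega) (by omega) (by omega)
      (by omega)
    obtain ⟨z, m1, m2⟩ := hook_chain hρ h1 s0 s1 s2 s3 s4 hP
      (by simp only [mem_ball]; omega) (by simp only [mem_ball]; omega) k1 k2 k4 k3 k5 k6 hc hu hu'
    refine ⟨z, m1, f, f', ?_, ?_, ?_, (m2.trans (k8.mono_set s4)).trans (k7.mono_set s5).symm⟩
    · push_cast
      omega
    · push_cast
      omega
    · refine hF.mono_set ?_
      intro x hx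
      simp only [T, rect, Set.mem_ofPred_eq] at hx ⊢
      push_cast
      omega
  · rintro z ⟨hz, hz'⟩ a (((((ha | ha) | ha) | ha) | ha) | ha) hza <;>
    · simp only [Mouth, rect, mem_ball, Set.mem_ofPred_eq, Prod.fst_zero, Prod.snd_zero]
        at ha hz hz' hza ⊢
      push_cast
      omega

open GeoS GeoT in
theorem corr_turn_S {w ρ : ℕ} {v : Vert} (hρ : 1 ≤ ρ) (hw : 64 * ρ ≤ w)
    (hv : OnSide .E (8 * w) v) : CorrData w ρ v .S (ZTS w ρ v) (NTS w ρ v) := by
  obtain ⟨⟨hvb, -⟩, hv1⟩ := hv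
  simp only [mem_ball, Prod.fst_zero, Prod.snd_zero] at hvb hv1
  have s0 : ball v (3 * ρ) ⊆ ZTS w ρ v := fun x hx => Or.inl (Or.inl (Or.inl (Or.inl (Or.inl hx))))
  have s1 : rect (8 * w) (13 * w) (v.2 - ρ) (v.2 + ρ) ⊆ ZTS w ρ v :=
    fun x hx => Or.inl (Or.inl (Or.inl (Or.inl (Or.inr hx))))
  have s2 : rect (12 * w) (13 * w) (-(13 * w)) (v.2 + ρ) ⊆ ZTS w ρ v :=
    fun x hx => Or.inl (Or.inl (Or.inl (Or.inr hx)))
  have s3 : rect (-(4 * w)) (13 * w) (-(13 * w)) (-(12 * w)) ⊆ ZTS w ρ v :=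
    fun x hx => Or.inl (Or.inl (Or.inr hx))
  have s4 : rect (-(4 * w)) (4 * w) (-(144 * w)) (-(12 * w)) ⊆ ZTS w ρ v :=
    fun x hx => Or.inl (Or.inr hx)
  have s5 : rect (-(12 * w)) (12 * w) (-(144 * w)) (-(112 * w)) ⊆ ZTS w ρ v :=
    fun x hx => Or.inr hx
  refine ⟨s0, ?_, ?_, ?_, ?_, ?_, ?_, ?_, ?_⟩
  · refine Set.Subset.trans ?_ s5
    intro x hx
    simp only [T, rect, Set.mem_ofPred_eq] at hx ⊢
    push_cast at hx
    omega
  · rintro x (((((hx | hx) | hx) | hx) | hx) | hx)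
    · left
      simp only [mem_ball, Prod.fst_zero, Prod.snd_zero] at hx ⊢
      omega
    · left
      simp only [rect, mem_ball, Set.mem_ofPred_eq, Prod.fst_zero, Prod.snd_zero] at hx ⊢
      omega
    · left
      simp only [rect, mem_ball, Set.mem_ofPred_eq, Prod.fst_zero, Prod.snd_zero] at hx ⊢
      omega
    · left
      simp only [rect, mem_ball, Set.mem_ofPred_eq, Prod.fst_zero, Prod.snd_zero] at hx ⊢
      omega
    · by_cases h : -(128 * w) ≤ x.2
      · left
        simp only [rect, mem_ball, Set.mem_ofPred_eq, Prod.fst_zero, Prod.snd_zero] at hx ⊢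
        omega
      · right
        simp only [T, rect, Set.mem_ofPred_eq] at hx ⊢
        push_cast
        omega
    · right
      simp only [T, rect, Set.mem_ofPred_eq] at hx ⊢
      push_cast
      omega
  · rintro a (((((ha | ha) | ha) | ha) | ha) | ha) b hb hba <;>
    · simp only [rect, mem_ball, Set.mem_ofPred_eq, Prod.fst_zero, Prod.snd_zero] at ha hb hba ⊢
      omega
  · refine conn_union (p := (0, -(112 * w))) ?_ ?_ (conn_union (p := (0, -(12 * w))) ?_ ?_
      (conn_union (p := (12 * w, -(12 * w))) ?_ ?_ (conn_union (p := (12 * w, v.2)) ?_ ?_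
      (conn_union (p := v) self_mem_ball ?_ (fun a ha b hb => conn_rect ha hb)
      (fun a ha b hb => conn_rect ha hb)) (fun a ha b hb => conn_rect ha hb))
      (fun a ha b hb => conn_rect ha hb)) (fun a ha b hb => conn_rect ha hb))
      (fun a ha b hb => conn_rect ha hb)
    · right
      simp only [rect, Set.mem_ofPred_eq]
      omega
    · simp only [rect, Set.mem_ofPred_eq]
      omega
    · right
      simp only [rect, Set.mem_ofPred_eq]
      omega
    · simp only [rect, Set.mem_ofPred_eq]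
      omega
    · right
      simp only [rect, Set.mem_ofPred_eq]
      omega
    · simp only [rect, Set.mem_ofPred_eq]
      omega
    · right
      simp only [rect, Set.mem_ofPred_eq]
      omega
    · simp only [rect, Set.mem_ofPred_eq]
      omega
    · simp only [rect, Set.mem_ofPred_eq]
      omega
  · rintro ω ω' hω ⟨h1, h2, h3, h4, h5, h6⟩
    exact ⟨incr_circ v ρ ω ω' hω h1, incr_h _ _ _ _ ω ω' hω h2, incr_v _ _ _ _ ω ω' hω h3,
      incr_h _ _ _ _ ω ω' hω h4, incr_v _ _ _ _ ω ω' hω h5, incr_h _ _ _ _ ω ω' hω h6⟩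
  · rintro ω ω' hω ⟨h1, h2, h3, h4, h5, h6⟩
    exact ⟨locS_circ s0 ω ω' hω h1, locS_hcross s1 ω ω' hω h2, locS_vcross s2 ω ω' hω h3,
      locS_hcross s3 ω ω' hω h4, locS_vcross s4 ω ω' hω h5, locS_hcross s5 ω ω' hω h6⟩
  · rintro ω ⟨h1, ⟨p, p', hp, hp', hP⟩, ⟨a, a', ha, ha', hA⟩, ⟨b, b', hb, hb', hB⟩,
      ⟨e, e', he, he', hE⟩, ⟨f, f', hf, hf', hF⟩⟩ η D u u' hc hu hu'
    have mp := hP.mem_left
    have mp' := hP.mem_right
    simp only [rect, Set.mem_ofPred_eq] at mp mp'
    obtain ⟨z1, k1, k2⟩ := hv_meet hP (by omega) (by omega) hA (by omega) (by omega) (by omega)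
      (by omega)
    obtain ⟨z2, k3, k4⟩ := hv_meet hB (by omega) (by omega) hA (by omega) (by omega) (by omega)
      (by omega)
    obtain ⟨z3, k5, k6⟩ := hv_meet hB (by omega) (by omega) hE (by omega) (by omega) (by omega)
      (by omega)
    obtain ⟨z4, k7, k8⟩ := hv_meet hF (by omega) (by omega) hE (by omega) (by omega) (by omega)
      (by omega)
    obtain ⟨z, m1, m2⟩ := hook_chain hρ h1 s0 s1 s2 s3 s4 hP
      (by simp only [mem_ball]; omega) (by simp only [mem_ball]; omega) k1 k2 k4 k3 k5 k6 hc hu hu'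
    refine ⟨z, m1, f, f', ?_, ?_, ?_, (m2.trans (k8.mono_set s4)).trans (k7.mono_set s5).symm⟩
    · push_cast
      omega
    · push_cast
      omega
    · refine hF.mono_set ?_
      intro x hx
      simp only [T, rect, Set.mem_ofPred_eq] at hx ⊢
      push_cast
      omega
  · rintro z ⟨hz, hz'⟩ a (((((ha | ha) | ha) | ha) | ha) | ha) hza <;>
    · simp only [Mouth, rect, mem_ball, Set.mem_ofPred_eq, Prod.fst_zero, Prod.snd_zero]
        at ha hz hz' hza ⊢
      push_cast
      omega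

end Pool.Agent.H59.EX
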