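import Pool.Agent.H59.EX.MoveTurn
import Pool.Agent.H29.Sep.Tools

/-!
# The straight corridors of the moves, probabilities
-/

open MeasureTheory ProbabilityTheory unitInterval

namespace Pool.Agent.H59.EX

open Pool.Agent.H89.Perc Pool.Agent.H61.NC
open Pool.Agent.H85.Strict (hv_meet)

theorem move_str_E {k : ℕ} (hk : 4 ≤ k) : MoveData k .E .E (CM .E k) (NM .E k) := by
  have r1 : rect (28 * k) (144 * k) (-(3 * (k : ℤ))) (3 * k) ⊆ CM .E k := by
    intro v hv
    simp only [CM, T, rect, Set.mem_union, Set.mem_ofPred_eq] at hv ⊢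
    omega
  have r2 : rect (112 * k) (144 * k) (-(12 * (k : ℤ))) (12 * k) ⊆ CM .E k := by
    intro v hv
    simp only [CM, T, rect, Set.mem_union, Set.mem_ofPred_eq] at hv ⊢
    omega
  have rT : T .E k ⊆ CM .E k := fun v hv => Or.inl hv
  refine ⟨rT, ?_, ?_, ?_, ?_, ?_, ?_, ?_⟩
  · intro v hv
    simp only [CM, T, rect, Set.mem_union, Set.mem_ofPred_eq] at hv ⊢
    push_cast at hv
    omega
  · rintro v ⟨h1, h2⟩
    simp only [CM, T, rect, ball, Set.mem_union, Set.mem_ofPred_eq, Prod.fst_zero,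
      Prod.snd_zero] at h1 h2 ⊢
    push_cast at h2
    omega
  · intro v h1
    simp only [CM, T, rect, ball, Set.mem_union, Set.mem_ofPred_eq, Prod.fst_zero,
      Prod.snd_zero] at h1 ⊢
    push_cast
    omega
  · rintro ω ω' h ⟨h1, h2⟩
    exact ⟨mt_incr_h ω ω' h h1, mt_incr_v ω ω' h h2⟩
  · rintro ω ω' h ⟨h1, h2⟩
    exact ⟨mt_locS_h r1 ω ω' h h1, mt_locS_v r2 ω ω' h h2⟩
  · rintro ω ⟨⟨p1, q1, hp1, hq1, h1⟩, ⟨p2, q2, hp2, hq2, h2⟩⟩ η D x hη ⟨u, v, hu, hv, hf, hxu⟩
    have g1 := mt_lift hη r1 h1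
    have g2 := mt_lift hη r2 h2
    obtain ⟨z1, m1, m1'⟩ := hv_meet (a₂ := 28 * k) (b₂ := 36 * k) g1 (by omega) (by omega) hf
      (by omega) (by omega) (by omega) (by omega)
    obtain ⟨z2, m2, m2'⟩ := hv_meet g1 (by omega) (by omega) g2 (by omega) (by omega) (by omega)
      (by omega)
    have tr : ∀ {R : Set Vert} {a b : Vert}, R ⊆ CM .E k → Conn η R a b →
        Conn η (D ∪ CM .E k) a b :=
      fun hR h => h.mono_set (hR.trans Set.subset_union_right)
    refine ⟨p2, q2, by rw [hp2]; push_cast; ring, by rw [hq2]; push_cast; ring, ?_, ?_⟩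
    · refine g2.mono_set ?_
      intro v hv
      simp only [T, rect, Set.mem_ofPred_eq] at hv ⊢
      push_cast
      omega
    · have c1 : Conn η (D ∪ CM .E k) x u := hxu.mono_set Set.subset_union_left
      have c2 := c1.trans (tr rT m1')
      have c3 := c2.trans (tr r1 m1).symm
      have c4 := c3.trans (tr r1 m2)
      exact c4.trans (tr r2 m2').symm
  · intro z hz a ha hza
    simp only [CM, T, rect, sphere, ball, Set.mem_union, Set.mem_ofPred_eq, Prod.fst_zero,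
      Prod.snd_zero, Mouth] at hz ha hza ⊢
    push_cast at hz ⊢
    omega

theorem move_str_N {k : ℕ} (hk : 4 ≤ k) : MoveData k .N .N (CM .N k) (NM .N k) := by
  have r1 : rect (-(3 * (k : ℤ))) (3 * k) (28 * k) (144 * k) ⊆ CM .N k := by
    intro v hv
    simp only [CM, T, rect, Set.mem_union, Set.mem_ofPred_eq] at hv ⊢
    omega
  have r2 : rect (-(12 * (k : ℤ))) (12 * k) (112 * k) (144 * k) ⊆ CM .N k := by
    intro v hv
    simp only [CM, T, rect, Set.mem_union, Set.mem_ofPred_eq] at hv ⊢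
    omega
  have rT : T .N k ⊆ CM .N k := fun v hv => Or.inl hv
  refine ⟨rT, ?_, ?_, ?_, ?_, ?_, ?_, ?_⟩
  · intro v hv
    simp only [CM, T, rect, Set.mem_union, Set.mem_ofPred_eq] at hv ⊢
    push_cast at hv
    omega
  · rintro v ⟨h1, h2⟩
    simp only [CM, T, rect, ball, Set.mem_union, Set.mem_ofPred_eq, Prod.fst_zero,
      Prod.snd_zero] at h1 h2 ⊢
    push_cast at h2
    omega
  · intro v h1
    simp only [CM, T, rect, ball, Set.mem_union, Set.mem_ofPred_eq, Prod.fst_zero,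
      Prod.snd_zero] at h1 ⊢
    push_cast
    omega
  · rintro ω ω' h ⟨h1, h2⟩
    exact ⟨mt_incr_v ω ω' h h1, mt_incr_h ω ω' h h2⟩
  · rintro ω ω' h ⟨h1, h2⟩
    exact ⟨mt_locS_v r1 ω ω' h h1, mt_locS_h r2 ω ω' h h2⟩
  · rintro ω ⟨⟨p1, q1, hp1, hq1, h1⟩, ⟨p2, q2, hp2, hq2, h2⟩⟩ η D x hη ⟨u, v, hu, hv, hf, hxu⟩
    have g1 := mt_lift hη r1 h1
    have g2 := mt_lift hη r2 h2
    obtain ⟨z1, m1', m1⟩ := hv_meet (c₁ := 28 * k) (d₁ := 36 * k) (a₁ := -(3 * (k : ℤ))) (b₁ := 3 * k) hf (by omega) (by omega) g1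
      (by omega) (by omega) (by omega) (by omega)
    obtain ⟨z2, m2', m2⟩ := hv_meet g2 (by omega) (by omega) g1 (by omega) (by omega) (by omega)
      (by omega)
    have tr : ∀ {R : Set Vert} {a b : Vert}, R ⊆ CM .N k → Conn η R a b →
        Conn η (D ∪ CM .N k) a b :=
      fun hR h => h.mono_set (hR.trans Set.subset_union_right)
    refine ⟨p2, q2, by rw [hp2]; push_cast; ring, by rw [hq2]; push_cast; ring, ?_, ?_⟩
    · refine g2.mono_set ?_
      intro v hv
      simp only [T, rect, Set.mem_ofPred_eq] at hv ⊢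
      push_cast
      omega
    · have c1 : Conn η (D ∪ CM .N k) x u := hxu.mono_set Set.subset_union_left
      have c2 := c1.trans (tr rT m1')
      have c3 := c2.trans (tr r1 m1).symm
      have c4 := c3.trans (tr r1 m2)
      exact c4.trans (tr r2 m2').symm
  · intro z hz a ha hza
    simp only [CM, T, rect, sphere, ball, Set.mem_union, Set.mem_ofPred_eq, Prod.fst_zero,
      Prod.snd_zero, Mouth] at hz ha hza ⊢
    push_cast at hz ⊢
    omega

theorem move_str_W {k : ℕ} (hk : 4 ≤ k) : MoveData k .W .W (CM .W k) (NM .W k) := by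
  have r1 : rect (-(144 * (k : ℤ))) (-(28 * k)) (-(3 * (k : ℤ))) (3 * k) ⊆ CM .W k := by
    intro v hv
    simp only [CM, T, rect, Set.mem_union, Set.mem_ofPred_eq] at hv ⊢
    omega
  have r2 : rect (-(144 * (k : ℤ))) (-(112 * k)) (-(12 * (k : ℤ))) (12 * k) ⊆ CM .W k := by
    intro v hv
    simp only [CM, T, rect, Set.mem_union, Set.mem_ofPred_eq] at hv ⊢
    omega
  have rT : T .W k ⊆ CM .W k := fun v hv => Or.inl hv
  refine ⟨rT, ?_, ?_, ?_, ?_, ?_, ?_, ?_⟩
  · intro v hv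
    simp only [CM, T, rect, Set.mem_union, Set.mem_ofPred_eq] at hv ⊢
    push_cast at hv
    omega
  · rintro v ⟨h1, h2⟩
    simp only [CM, T, rect, ball, Set.mem_union, Set.mem_ofPred_eq, Prod.fst_zero,
      Prod.snd_zero] at h1 h2 ⊢
    push_cast at h2
    omega
  · intro v h1
    simp only [CM, T, rect, ball, Set.mem_union, Set.mem_ofPred_eq, Prod.fst_zero,
      Prod.snd_zero] at h1 ⊢
    push_cast
    omega
  · rintro ω ω' h ⟨h1, h2⟩
    exact ⟨mt_incr_h ω ω' h h1, mt_incr_v ω ω' h h2⟩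
  · rintro ω ω' h ⟨h1, h2⟩
    exact ⟨mt_locS_h r1 ω ω' h h1, mt_locS_v r2 ω ω' h h2⟩
  · rintro ω ⟨⟨p1, q1, hp1, hq1, h1⟩, ⟨p2, q2, hp2, hq2, h2⟩⟩ η D x hη ⟨u, v, hu, hv, hf, hxu⟩
    have g1 := mt_lift hη r1 h1
    have g2 := mt_lift hη r2 h2
    obtain ⟨z1, m1, m1'⟩ := hv_meet (a₂ := -(36 * k)) (b₂ := -(28 * k)) g1 (by omega) (by omega) hf
      (by omega) (by omega) (by omega) (by omega)
    obtain ⟨z2, m2, m2'⟩ := hv_meet g1 (by omega) (by omega) g2 (by omega) (by omega) (by omega)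
      (by omega)
    have tr : ∀ {R : Set Vert} {a b : Vert}, R ⊆ CM .W k → Conn η R a b →
        Conn η (D ∪ CM .W k) a b :=
      fun hR h => h.mono_set (hR.trans Set.subset_union_right)
    refine ⟨p2, q2, by rw [hp2]; push_cast; ring, by rw [hq2]; push_cast; ring, ?_, ?_⟩
    · refine g2.mono_set ?_
      intro v hv
      simp only [T, rect, Set.mem_ofPred_eq] at hv ⊢
      push_cast
      omega
    · have c1 : Conn η (D ∪ CM .W k) x u := hxu.mono_set Set.subset_union_left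
      have c2 := c1.trans (tr rT m1')
      have c3 := c2.trans (tr r1 m1).symm
      have c4 := c3.trans (tr r1 m2)
      exact c4.trans (tr r2 m2').symm
  · intro z hz a ha hza
    simp only [CM, T, rect, sphere, ball, Set.mem_union, Set.mem_ofPred_eq, Prod.fst_zero,
      Prod.snd_zero, Mouth] at hz ha hza ⊢
    push_cast at hz ⊢
    omega

theorem move_str_S {k : ℕ} (hk : 4 ≤ k) : MoveData k .S .S (CM .S k) (NM .S k) := by
  have r1 : rect (-(3 * (k : ℤ))) (3 * k) (-(144 * (k : ℤ))) (-(28 * k)) ⊆ CM .S k := by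
    intro v hv
    simp only [CM, T, rect, Set.mem_union, Set.mem_ofPred_eq] at hv ⊢
    omega
  have r2 : rect (-(12 * (k : ℤ))) (12 * k) (-(144 * (k : ℤ))) (-(112 * k)) ⊆ CM .S k := by
    intro v hv
    simp only [CM, T, rect, Set.mem_union, Set.mem_ofPred_eq] at hv ⊢
    omega
  have rT : T .S k ⊆ CM .S k := fun v hv => Or.inl hv
  refine ⟨rT, ?_, ?_, ?_, ?_, ?_, ?_, ?_⟩
  · intro v hv
    simp only [CM, T, rect, Set.mem_union, Set.mem_ofPred_eq] at hv ⊢
    push_cast at hv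
    omega
  · rintro v ⟨h1, h2⟩
    simp only [CM, T, rect, ball, Set.mem_union, Set.mem_ofPred_eq, Prod.fst_zero,
      Prod.snd_zero] at h1 h2 ⊢
    push_cast at h2
    omega
  · intro v h1
    simp only [CM, T, rect, ball, Set.mem_union, Set.mem_ofPred_eq, Prod.fst_zero,
      Prod.snd_zero] at h1 ⊢
    push_cast
    omega
  · rintro ω ω' h ⟨h1, h2⟩
    exact ⟨mt_incr_v ω ω' h h1, mt_incr_h ω ω' h h2⟩
  · rintro ω ω' h ⟨h1, h2⟩
    exact ⟨mt_locS_v r1 ω ω' h h1, mt_locS_h r2 ω ω' h h2⟩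
  · rintro ω ⟨⟨p1, q1, hp1, hq1, h1⟩, ⟨p2, q2, hp2, hq2, h2⟩⟩ η D x hη ⟨u, v, hu, hv, hf, hxu⟩
    have g1 := mt_lift hη r1 h1
    have g2 := mt_lift hη r2 h2
    obtain ⟨z1, m1', m1⟩ := hv_meet (c₁ := -(36 * k)) (d₁ := -(28 * k)) (a₁ := -(3 * (k : ℤ))) (b₁ := 3 * k) hf (by omega) (by omega) g1
      (by omega) (by omega) (by omega) (by omega)
    obtain ⟨z2, m2', m2⟩ := hv_meet g2 (by omega) (by omega) g1 (by omega) (by omega) (by omega)
      (by omega)
    have tr : ∀ {R : Set Vert} {a b : Vert}, R ⊆ CM .S k → Conn η R a b →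
        Conn η (D ∪ CM .S k) a b :=
      fun hR h => h.mono_set (hR.trans Set.subset_union_right)
    refine ⟨p2, q2, by rw [hp2]; push_cast; ring, by rw [hq2]; push_cast; ring, ?_, ?_⟩
    · refine g2.mono_set ?_
      intro v hv
      simp only [T, rect, Set.mem_ofPred_eq] at hv ⊢
      push_cast
      omega
    · have c1 : Conn η (D ∪ CM .S k) x u := hxu.mono_set Set.subset_union_left
      have c2 := c1.trans (tr rT m1')
      have c3 := c2.trans (tr r1 m1).symm
      have c4 := c3.trans (tr r1 m2)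
      exact c4.trans (tr r2 m2').symm
  · intro z hz a ha hza
    simp only [CM, T, rect, sphere, ball, Set.mem_union, Set.mem_ofPred_eq, Prod.fst_zero,
      Prod.snd_zero, Mouth] at hz ha hza ⊢
    push_cast at hz ⊢
    omega

theorem move_straight {k : ℕ} (hk : 4 ≤ k) (d : Side) : MoveData k d d (CM d k) (NM d k) := by
  cases d
  · exact move_str_E hk
  · exact move_str_N hk
  · exact move_str_W hk
  · exact move_str_S hk

theorem msep_EW {k : ℕ} (hk : 4 ≤ k) : MoveSep k .E .W (CM .E k) (CM .W k) := by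
  intro a ha b hb hab
  simp only [CM, T, rect, ball, Set.mem_union, Set.mem_ofPred_eq, Mouth] at ha hb hab
  omega

theorem msep_EN {k : ℕ} (hk : 4 ≤ k) : MoveSep k .E .N (CM .E k) (CM .N k) := by
  intro a ha b hb hab
  simp only [CM, T, rect, ball, Set.mem_union, Set.mem_ofPred_eq, Mouth] at ha hb hab
  omega

theorem ms_local_h (a b c d : ℤ) : LocalOn (eRect a b c d) {ω | HCross ω a b c d} := by
  rintro ω ω' hω ⟨u, v, hu, hv, hc⟩
  exact ⟨u, v, hu, hv, Conn.congr (fun e h1 _ => hω e (mem_eRect.2 h1)) hc⟩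

theorem ms_local_v (a b c d : ℤ) : LocalOn (eRect a b c d) {ω | VCross ω a b c d} := by
  rintro ω ω' hω ⟨u, v, hu, hv, hc⟩
  exact ⟨u, v, hu, hv, Conn.congr (fun e h1 _ => hω e (mem_eRect.2 h1)) hc⟩

open scoped Classical in
/-- Harris inequality with a lower bound. -/
theorem ms_and {q : I} {s t : Finset Edge} {A B : Set Config} {x y : ℝ} (hx : 0 ≤ x) (hy : 0 ≤ y)
    (hA : LocalOn s A ∧ Incr A ∧ x ≤ Pr q A) (hB : LocalOn t B ∧ Incr B ∧ y ≤ Pr q B) :
    LocalOn (s ∪ t) (A ∩ B) ∧ Incr (A ∩ B) ∧ x * y ≤ Pr q (A ∩ B) :=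
  ⟨hA.1.inter' hB.1, hA.2.1.inter hB.2.1,
    (mul_le_mul hA.2.2 hB.2.2 hy (hx.trans hA.2.2)).trans (fkg hA.1 hB.1 hA.2.1 hB.2.1)⟩

theorem prob_move (c : ℝ) (hc : 0 < c) (K : ℕ) : ∃ c' : ℝ, 0 < c' ∧ ∀ (d : Side) (k n : ℕ)
    (q : I), 4 ≤ k → k ≤ K * n → RSWreg c n q → c' ≤ Pr q (NM d k) ∧ c' ≤ Pr q (NT k) := by
  classical
  obtain ⟨c₀, hc₀, h⟩ := Pool.Agent.H29.Sep.rect_lower c hc (32 * K + 20)
  refine ⟨min (c₀ * c₀) (c₀ * (c₀ * (c₀ * (c₀ * c₀)))), by positivity, ?_⟩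
  intro d k n q hk hkn hreg
  have hn : 1 ≤ n := by
    rcases Nat.eq_zero_or_pos n with h0 | h0
    · subst h0
      omega
    · exact h0
  have hknZ : (k : ℤ) ≤ K * n := by exact_mod_cast hkn
  have hK0 : (0 : ℤ) ≤ K := by positivity
  have hn0 : (0 : ℤ) ≤ n := by positivity
  have hl : ∀ a b y z : ℤ, a ≤ b → y < z → b - a ≤ 20 * (z - y) → z - y ≤ 32 * k →
      c₀ ≤ Pr q {ω | HCross ω a b y z} ∧ c₀ ≤ Pr q {ω | VCross ω y z a b} := by
    intro a b y z h1 h2 h3 h4
    refine h n q hn hreg a b y z h1 h2 ?_ ?_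
    · push_cast
      nlinarith [mul_nonneg hK0 (show (0 : ℤ) ≤ z - y by omega)]
    · push_cast
      nlinarith [mul_nonneg hK0 hn0]
  have hH : ∀ a b y z : ℤ, a ≤ b → y < z → b - a ≤ 20 * (z - y) → z - y ≤ 32 * k →
      LocalOn (eRect a b y z) {ω | HCross ω a b y z} ∧ Incr {ω | HCross ω a b y z} ∧
        c₀ ≤ Pr q {ω | HCross ω a b y z} :=
    fun a b y z h1 h2 h3 h4 => ⟨ms_local_h _ _ _ _, mt_incr_h, (hl a b y z h1 h2 h3 h4).1⟩
  have hV : ∀ y z a b : ℤ, a ≤ b → y < z → b - a ≤ 20 * (z - y) → z - y ≤ 32 * k →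
      LocalOn (eRect y z a b) {ω | VCross ω y z a b} ∧ Incr {ω | VCross ω y z a b} ∧
        c₀ ≤ Pr q {ω | VCross ω y z a b} :=
    fun y z a b h1 h2 h3 h4 => ⟨ms_local_v _ _ _ _, mt_incr_v, (hl a b y z h1 h2 h3 h4).2⟩
  have p2 : 0 ≤ c₀ * c₀ := by positivity
  have p3 : 0 ≤ c₀ * (c₀ * c₀) := by positivity
  have p4 : 0 ≤ c₀ * (c₀ * (c₀ * c₀)) := by positivity
  constructor
  · refine (min_le_left _ _).trans ?_
    cases d
    · exact (ms_and hc₀.le hc₀.le
        (hH (28 * k) (144 * k) (-(3 * k)) (3 * k) (by omega) (by omega) (by omega) (by omega))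
        (hV (112 * k) (144 * k) (-(12 * k)) (12 * k) (by omega) (by omega) (by omega)
          (by omega))).2.2
    · exact (ms_and hc₀.le hc₀.le
        (hV (-(3 * k)) (3 * k) (28 * k) (144 * k) (by omega) (by omega) (by omega) (by omega))
        (hH (-(12 * k)) (12 * k) (112 * k) (144 * k) (by omega) (by omega) (by omega)
          (by omega))).2.2
    · exact (ms_and hc₀.le hc₀.le
        (hH (-(144 * k)) (-(28 * k)) (-(3 * k)) (3 * k) (by omega) (by omega) (by omega)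
          (by omega))
        (hV (-(144 * k)) (-(112 * k)) (-(12 * k)) (12 * k) (by omega) (by omega) (by omega)
          (by omega))).2.2
    · exact (ms_and hc₀.le hc₀.le
        (hV (-(3 * k)) (3 * k) (-(144 * k)) (-(28 * k)) (by omega) (by omega) (by omega)
          (by omega))
        (hH (-(12 * k)) (12 * k) (-(144 * k)) (-(112 * k)) (by omega) (by omega) (by omega)
          (by omega))).2.2
  · refine (min_le_right _ _).trans ?_
    exact (ms_and hc₀.le p4
      (hH (28 * k) (64 * k) (-(3 * k)) (3 * k) (by omega) (by omega) (by omega) (by omega))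
      (ms_and hc₀.le p3
        (hV (60 * k) (64 * k) (-(3 * k)) (64 * k) (by omega) (by omega) (by omega) (by omega))
        (ms_and hc₀.le p2
          (hH (-(3 * k)) (64 * k) (60 * k) (64 * k) (by omega) (by omega) (by omega) (by omega))
          (ms_and hc₀.le hc₀.le
            (hV (-(3 * k)) (3 * k) (60 * k) (144 * k) (by omega) (by omega) (by omega) (by omega))
            (hH (-(12 * k)) (12 * k) (112 * k) (144 * k) (by omega) (by omega) (by omega)
              (by omega)))))).2.2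

end Pool.Agent.H59.EX
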