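import Pool.Agent.H59.EX.Sym

/-!
# Moves: extension of separated events from scale `k` to scale `4 k`, definitions
-/

open MeasureTheory ProbabilityTheory unitInterval

namespace Pool.Agent.H59.EX

open Pool.Agent.H89.Perc Pool.Agent.H61.NC

/-- Corridor from the target `T d k` to the target `T δ (4 k)` with its crossing event. -/
structure MoveData (k : ℕ) (d δ : Side) (C : Set Vert) (N : Set Config) : Prop where
  T_sub : T d k ⊆ C
  T_sub' : T δ (4 * k) ⊆ C
  inter : C ∩ ball 0 (32 * k) ⊆ T d k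
  sub : C ⊆ ball 0 (128 * k) ∪ T δ (4 * k)
  incr : Incr N
  loc : LocS (inE C) N
  hook : ∀ ω ∈ N, ∀ (η : Config) (D : Set Vert) (x : Vert),
    (∀ e ∈ inE C, ω e = true → η e = true) → Fence d k η D x → Fence δ (4 * k) η (D ∪ C) x
  mouth : ∀ z ∈ sphere 0 (128 * k), ∀ a ∈ C, z ∈ ball a k → z ∈ Mouth δ (4 * k)

/-- The two corridors are far apart. -/
def MoveSep (k : ℕ) (d d' : Side) (C C' : Set Vert) : Prop :=
  ∀ a ∈ C ∪ Mouth d k, ∀ b ∈ C' ∪ Mouth d' k, b ∉ ball a k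

/-- Straight corridor. -/
def CM (d : Side) (k : ℕ) : Set Vert :=
  match d with
  | .E => T .E k ∪ rect (32 * k + 1) (144 * k) (-(12 * k)) (12 * k)
  | .N => T .N k ∪ rect (-(12 * k)) (12 * k) (32 * k + 1) (144 * k)
  | .W => T .W k ∪ rect (-(144 * k)) (-(32 * k + 1)) (-(12 * k)) (12 * k)
  | .S => T .S k ∪ rect (-(12 * k)) (12 * k) (-(144 * k)) (-(32 * k + 1))

/-- Its crossing event. -/
def NM (d : Side) (k : ℕ) : Set Config :=
  match d with
  | .E => {ω | HCross ω (28 * k) (144 * k) (-(3 * k)) (3 * k) ∧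
      VCross ω (112 * k) (144 * k) (-(12 * k)) (12 * k)}
  | .N => {ω | VCross ω (-(3 * k)) (3 * k) (28 * k) (144 * k) ∧
      HCross ω (-(12 * k)) (12 * k) (112 * k) (144 * k)}
  | .W => {ω | HCross ω (-(144 * k)) (-(28 * k)) (-(3 * k)) (3 * k) ∧
      VCross ω (-(144 * k)) (-(112 * k)) (-(12 * k)) (12 * k)}
  | .S => {ω | VCross ω (-(3 * k)) (3 * k) (-(144 * k)) (-(28 * k)) ∧
      HCross ω (-(12 * k)) (12 * k) (-(144 * k)) (-(112 * k))}

/-- Corridor turning from the east to the north. -/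
def CT (k : ℕ) : Set Vert :=
  T .E k ∪ rect (32 * k + 1) (66 * k) (-(6 * k)) (6 * k) ∪
    rect (58 * k) (66 * k) (-(6 * k)) (66 * k) ∪ rect (-(12 * k)) (66 * k) (58 * k) (66 * k) ∪
    rect (-(12 * k)) (12 * k) (58 * k) (144 * k)

/-- Its crossing event. -/
def NT (k : ℕ) : Set Config :=
  {ω | HCross ω (28 * k) (64 * k) (-(3 * k)) (3 * k) ∧
    VCross ω (60 * k) (64 * k) (-(3 * k)) (64 * k) ∧
    HCross ω (-(3 * k)) (64 * k) (60 * k) (64 * k) ∧
    VCross ω (-(3 * k)) (3 * k) (60 * k) (144 * k) ∧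
    HCross ω (-(12 * k)) (12 * k) (112 * k) (144 * k)}

end Pool.Agent.H59.EX
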