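import Pool.Agent.H59.EX.Fact
import Pool.Agent.H29.Sep.Iface

/-!
# Bad events: two clusters close to the same vertex of the sphere
-/

open MeasureTheory ProbabilityTheory unitInterval

namespace Pool.Agent.H59.EX

open Pool.Agent.H89.Perc Pool.Agent.H61.NC
open Pool.Agent.H29.Sep (LocTwo BadIn)

variable {s : Src} {w ρ ρ' : ℕ} {v v' : Vert} {d d' : Side} {Z Zy : Set Vert} {Nev Ny : Set Config}
  {q : I}

/-- The balls around a vertex of the sphere are far from the source. -/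
private theorem bad_far {r : ℕ} {z : Vert} (hz : z ∈ sphere 0 (8 * w)) (hr : r + 2 < 8 * w)
    {a : Vert} (ha : a ∈ ball z r) : a ∉ ball 0 2 := by
  intro h
  obtain ⟨h1, h2⟩ := hz
  rw [mem_ball] at h1 ha h
  simp only [Prod.fst_zero, Prod.snd_zero, zero_sub, zero_add] at h1 h2 h
  push_cast at h1 h2 h
  omega

/-- On sets far from the source the configuration is not cut. -/
private theorem bad_uncut {ω : Config} {S : Set Vert} {a b : Vert}
    (hS : ∀ p ∈ S, p ∉ ball 0 2) (h : Conn ω S a b) : Conn (s.cut ω) S a b :=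
  h.congr fun _ he _ => (cut_of_not_ball (Or.inl (hS _ he))).symm

theorem four_mono {r r' : ℕ} (h : 2 ≤ r) (hr : r ≤ r') : Four s r' ⊆ Four s r := by
  rcases hr.eq_or_lt with h0 | h0
  · subst h0; exact le_rfl
  have hsub : ball (0 : Vert) r ⊆ ball 0 r' := by
    intro a ha
    simp only [mem_ball] at ha ⊢
    omega
  have hsub2 : ball (0 : Vert) 2 ⊆ ball 0 r := by
    intro a ha
    simp only [mem_ball] at ha ⊢
    omega
  have hout : ∀ u ∈ sphere (0 : Vert) r', u ∉ ball 0 r := by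
    rintro u ⟨hu1, hu2⟩ hu3
    simp only [mem_ball] at hu1 hu3
    omega
  rintro ω ⟨⟨u, hu, h1⟩, ⟨u', hu', h2⟩, h3⟩
  obtain ⟨x, hx, hcx⟩ := h1.to_sphere (v := 0) (r := r) (hsub2 s.hx) (Or.inl (hout u hu))
  obtain ⟨x', hx', hcx'⟩ := h2.to_sphere (v := 0) (r := r) (hsub2 s.hy) (Or.inl (hout u' hu'))
  exact ⟨⟨x, hx, hcx.mono_set Set.inter_subset_right⟩,
    ⟨x', hx', hcx'.mono_set Set.inter_subset_right⟩, fun h5 => h3 (h5.mono_set hsub)⟩

/-- If `x` lands near `v` and the cluster of `y` comes near `v`, then two distinct clusters cross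
a half annulus. -/
theorem bad0 (hρ : 1 ≤ ρ) (hw : 64 * ρ ≤ w) (hv : v ∈ sphere 0 (8 * w)) {ω : Config}
    (hω : ω ∈ Four s (8 * w))
    (hx : ∃ u ∈ sphere 0 (8 * w), u ∈ ball v ρ ∧ Conn (s.cut ω) (ball 0 (8 * w)) s.x u)
    (hy : ¬ Disjoint (SY s w ω) (ball v (11 * ρ))) :
    ω ∈ Four s (2 * w) ∧ ∃ z ∈ sphere 0 (8 * w), ω ∈ LocTwo (ball 0 (8 * w)) z (11 * ρ) (4 * w) := by
  refine ⟨four_mono (by omega) (by omega) hω, v, hv, ?_⟩
  obtain ⟨u, -, huv, hxu⟩ := hx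
  obtain ⟨p, hp, hpv⟩ := Set.not_disjoint_iff.1 hy
  have hyp : Conn (s.cut ω) (ball 0 (8 * w)) s.y p := mem_clus_single.1 hp
  have hfar : ∀ a ∈ ball v (4 * w), a ∉ ball 0 2 := fun a ha => bad_far hv (by omega) ha
  have hu11 : u ∈ ball v (11 * ρ) := by
    rw [mem_ball] at huv ⊢
    push_cast
    omega
  have hsub : ball v (11 * ρ) ⊆ ball v (4 * w) := by
    intro a ha
    rw [mem_ball] at ha ⊢
    push_cast at ha ⊢
    omega
  obtain ⟨a, ha, hca⟩ := hxu.symm.to_sphere (v := v) (r := 4 * w) (hsub hu11)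
    (Or.inl fun h => hfar _ h s.hx)
  obtain ⟨b, hb, hcb⟩ := hyp.symm.to_sphere (v := v) (r := 4 * w) (hsub hpv)
    (Or.inl fun h => hfar _ h s.hy)
  refine ⟨u, hu11, p, hpv, a, ha, b, hb, hca.mono le_rfl fun e he => cut_le he,
    hcb.mono le_rfl fun e he => cut_le he, fun h => hω.2.2 ?_⟩
  have h1 : Conn (s.cut ω) (ball 0 (8 * w) ∩ ball v (4 * w)) u p :=
    bad_uncut (fun q hq => hfar q hq.2) h
  exact (hxu.trans (h1.mono_set Set.inter_subset_left)).trans hyp.symm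

/-- If the clusters of `x` (after gluing) and of `y` come close to the same vertex, then two
distinct clusters cross a half annulus. -/
theorem bad12 (hK : CorrData w ρ v d Z Nev) (hρ' : 1 ≤ ρ') (h1 : 64 * ρ' ≤ ρ) (h2 : 64 * ρ ≤ w)
    (hv : v ∈ sphere 0 (8 * w)) {ω : Config} (hω : ω ∈ Ev0 s w ρ v)
    (hg : ω ∉ Good12 s w ρ' Z) :
    ω ∈ Four s (2 * w) ∧ ∃ z ∈ sphere 0 (8 * w), ω ∈ LocTwo (ball 0 (8 * w)) z (12 * ρ') ρ := by
  obtain ⟨⟨u, hu, huv, hxu⟩, ⟨u', hu', hyu'⟩, hxy, hdis⟩ := hω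
  refine ⟨four_mono (by omega) (by omega) ⟨⟨u, hu, hxu⟩, ⟨u', hu', hyu'⟩, hxy⟩, ?_⟩
  simp only [Good12, Set.mem_ofPred_eq, not_forall, not_not] at hg
  obtain ⟨z, hz, ⟨a, ha1, haz⟩, ⟨b, hb1, hbz⟩⟩ := hg
  refine ⟨z, hz, ?_⟩
  have hfar : ∀ p ∈ ball z ρ, p ∉ ball 0 2 := fun p hp => bad_far hz (by omega) hp
  have hsub : ball z (12 * ρ') ⊆ ball z ρ := by
    intro p hp
    rw [mem_ball] at hp ⊢
    push_cast at hp ⊢
    omega
  -- the corridor is far from `z`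
  have hbv : b ∉ ball v (11 * ρ) := Set.disjoint_left.1 hdis hb1
  have hZ : ∀ p ∈ ball z ρ, p ∉ Z := by
    intro p hp hpZ
    have h3 : z ∈ ball v (5 * ρ) := by
      refine hK.inter p hpZ z hz.1 ?_
      rw [mem_ball] at hp ⊢
      omega
    apply hbv
    rw [mem_ball] at h3 hbz ⊢
    push_cast at h3 hbz ⊢
    omega
  have hca : Conn (fillV Z (s.cut ω)) (ball 0 (8 * w) ∪ Z) s.x a := mem_clus_single.1 ha1
  have hcb : Conn (s.cut ω) (ball 0 (8 * w)) s.y b := mem_clus_single.1 hb1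
  obtain ⟨a', ha', haa'⟩ := hca.symm.to_sphere (v := z) (r := ρ) (hsub haz)
    (Or.inl fun h => hfar _ h s.hx)
  obtain ⟨b', hb', hbb'⟩ := hcb.symm.to_sphere (v := z) (r := ρ) (hsub hbz)
    (Or.inl fun h => hfar _ h s.hy)
  have hDa : Conn ω (ball 0 (8 * w) ∩ ball z ρ) a a' := by
    have h4 : Conn (s.cut ω) ((ball 0 (8 * w) ∪ Z) ∩ ball z ρ) a a' := by
      refine haa'.congr fun e he _ => ?_
      have h5 : e ∉ inE Z := fun h => hZ _ he.2 h.1
      simp [fillV, h5]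
    refine h4.mono ?_ fun e he => cut_le he
    rintro p ⟨hp | hp, hp'⟩
    · exact ⟨hp, hp'⟩
    · exact absurd hp (hZ p hp')
  refine ⟨a, haz, b, hbz, a', ha', b', hb', hDa, hbb'.mono le_rfl fun e he => cut_le he, fun h => ?_⟩
  have h6 : Conn (s.cut ω) (ball 0 (8 * w) ∩ ball z ρ) a b :=
    bad_uncut (fun q hq => hfar q hq.2) h
  have h7 : b ∈ S1 s w Z ω := by
    refine clus_conn ha1 (h6.mono ?_ fun e he => fillV_true.2 (Or.inl he))
    exact Set.inter_subset_left.trans Set.subset_union_left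
  exact Set.disjoint_left.1 (S1_disj_SY hK (by omega) hdis hxy) h7 hb1

private theorem bad_localOn_four (r : ℕ) :
    LocalOn (eRect (-r) r (-r) r) (Four s r) := by
  have key : ∀ ω ω' : Config, (∀ f ∈ eRect (-r) r (-r) r,
      ω f = ω' f) → ∀ u v : Vert, Conn (s.cut ω) (ball 0 r) u v →
        Conn (s.cut ω') (ball 0 r) u v := by
    intro ω ω' h u v hc
    refine Conn.congr (fun f hf _ => ?_) hc
    have : ω f = ω' f := by
      refine h f (mem_eRect.2 ?_)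
      rw [mem_ball] at hf
      simpa [rect] using hf
    simp only [Src.cut, closeS, this]
  rintro ω ω' h ⟨⟨u, hu, h1⟩, ⟨u', hu', h2⟩, h3⟩
  exact ⟨⟨u, hu, key _ _ h _ _ h1⟩, ⟨u', hu', key _ _ h _ _ h2⟩,
    fun h4 => h3 (key _ _ (fun f hf => (h f hf).symm) _ _ h4)⟩

/-- Independence of the inner four-arm event and of the events near the sphere. -/
theorem four_bad_indep {t ρ₁ : ℕ} (ht : t ≤ ρ₁) (hρ₁ : ρ₁ ≤ 4 * w) (hw : 1 ≤ w) :
    Pr q (Four s (2 * w) ∩ {ω | ∃ z ∈ sphere 0 (8 * w), ω ∈ LocTwo (ball 0 (8 * w)) z t ρ₁}) =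
      Pr q (Four s (2 * w)) *
        Pr q {ω | ∃ z ∈ sphere 0 (8 * w), ω ∈ LocTwo (ball 0 (8 * w)) z t ρ₁} := by
  classical
  set Λ : Finset Edge := eRect (-(8 * w : ℕ)) (8 * w : ℕ) (-(8 * w : ℕ)) (8 * w : ℕ) \
    eRect (-(2 * w : ℕ)) (2 * w : ℕ) (-(2 * w : ℕ)) (2 * w : ℕ) with hΛ
  refine Pr_inter_of_disjoint (bad_localOn_four (2 * w)) (t := Λ) ?_ ?_
  · have key : ∀ z ∈ sphere (0 : Vert) (8 * w), ∀ ω ω' : Config, (∀ f ∈ Λ, ω f = ω' f) →
        ∀ u v : Vert, Conn ω (ball 0 (8 * w) ∩ ball z ρ₁) u v →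
          Conn ω' (ball 0 (8 * w) ∩ ball z ρ₁) u v := by
      intro z hz ω ω' h u v hc
      refine Conn.congr (fun f hf _ => h f ?_) hc
      obtain ⟨hf1, hf2⟩ := hf
      obtain ⟨hz1, hz2⟩ := hz
      rw [hΛ, Finset.mem_sdiff, mem_eRect, mem_eRect]
      simp only [mem_ball, rect, Set.mem_ofPred_eq, Prod.fst_zero, Prod.snd_zero, zero_sub,
        zero_add] at hf1 hf2 hz1 hz2 ⊢
      push_cast at hf1 hf2 hz1 hz2 ⊢
      omega
    rintro ω ω' h ⟨z, hz, u, hu, u', hu', p, hp, p', hp', h1, h2, h3⟩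
    exact ⟨z, hz, u, hu, u', hu', p, hp, p', hp', key z hz _ _ h _ _ h1, key z hz _ _ h _ _ h2,
      fun h4 => h3 (key z hz _ _ (fun f hf => (h f hf).symm) _ _ h4)⟩
  · exact Finset.disjoint_sdiff

end Pool.Agent.H59.EX
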