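import Pool.Agent.H59.EX.Out
import Pool.Agent.H59.EX.Bad
import Pool.Agent.H59.EX.GeoAll
import Pool.Agent.H59.EX.Sym

/-!
# Outward separation: assembly
-/

open MeasureTheory ProbabilityTheory unitInterval

namespace Pool.Agent.H59.EX

open Pool.Agent.H89.Perc Pool.Agent.H61.NC
open Pool.Agent.H29.Sep (LocTwo BadIn)

/-! ### Nets -/

/-- Points with step `ρ` in `[-8 w, 8 w]`. -/
theorem oute_net1 {w ρ : ℕ} (hρ : 1 ≤ ρ) {y : ℤ} (h1 : -(8 * (w : ℤ)) ≤ y) (h2 : y ≤ 8 * w) :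
    ∃ j ∈ Finset.range (16 * w / ρ + 1), -(8 * (w : ℤ)) + j * ρ ≤ y ∧
      y ≤ -(8 * (w : ℤ)) + j * ρ + ρ := by
  obtain ⟨t, ht⟩ := Int.eq_ofNat_of_zero_le (show 0 ≤ y + 8 * w by omega)
  have ht' : t ≤ 16 * w := by omega
  refine ⟨t / ρ, ?_, ?_, ?_⟩
  · rw [Finset.mem_range, Nat.lt_succ_iff]
    exact Nat.div_le_div_right ht'
  · have h3 := Nat.div_mul_le_self t ρ
    have h4 : ((t / ρ : ℕ) : ℤ) * (ρ : ℤ) ≤ t := by exact_mod_cast h3
    omega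
  · have h3 : t < t / ρ * ρ + ρ := Nat.lt_div_mul_add (by omega)
    have h4 : (t : ℤ) < ((t / ρ : ℕ) : ℤ) * (ρ : ℤ) + ρ := by exact_mod_cast h3
    omega

theorem oute_net2 {w ρ j : ℕ} (hj : j ∈ Finset.range (16 * w / ρ + 1)) :
    0 ≤ (j : ℤ) * ρ ∧ (j : ℤ) * ρ ≤ 16 * w := by
  rw [Finset.mem_range, Nat.lt_succ_iff] at hj
  have h3 : j * ρ ≤ 16 * w := (Nat.mul_le_mul_right ρ hj).trans (Nat.div_mul_le_self _ _)
  exact ⟨by positivity, by exact_mod_cast h3⟩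

theorem oute_netE {w ρ : ℕ} (hρ : 1 ≤ ρ) : ∃ V : Finset Vert,
    (∀ v ∈ V, OnSide .E (8 * w) v) ∧ V.card ≤ 16 * w / ρ + 1 ∧
      ∀ u, OnSide .E (8 * w) u → ∃ v ∈ V, u ∈ ball v ρ := by
  classical
  refine ⟨(Finset.range (16 * w / ρ + 1)).image
    (fun j : ℕ => ((8 * w : ℕ), -(8 * (w : ℤ)) + j * ρ)), ?_, ?_, ?_⟩
  · intro v hv
    obtain ⟨j, hj, rfl⟩ := Finset.mem_image.1 hv
    obtain ⟨h1, h2⟩ := oute_net2 hj
    refine ⟨?_, rfl⟩
    simp only [sphere, ball, rect, Set.mem_ofPred_eq, Prod.fst_zero, Prod.snd_zero]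
    push_cast
    omega
  · exact Finset.card_image_le.trans (by simp)
  · rintro u ⟨⟨h1, -⟩, h2⟩
    simp only [ball, rect, Set.mem_ofPred_eq, Prod.fst_zero, Prod.snd_zero] at h1 h2
    push_cast at h1 h2
    obtain ⟨j, hj, h3, h4⟩ := oute_net1 (w := w) hρ (y := u.2) (by omega) (by omega)
    refine ⟨_, Finset.mem_image_of_mem _ hj, ?_⟩
    simp only [ball, rect, Set.mem_ofPred_eq]
    push_cast
    omega

theorem oute_netS {w ρ : ℕ} (hρ : 1 ≤ ρ) : ∃ V : Finset Vert,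
    (∀ v ∈ V, v ∈ sphere 0 (8 * w)) ∧ V.card ≤ 4 * (16 * w / ρ + 1) ∧
      ∀ u ∈ sphere 0 (8 * w), ∃ v ∈ V, u ∈ ball v ρ := by
  classical
  set r := Finset.range (16 * w / ρ + 1) with hr
  refine ⟨(r.image (fun j : ℕ => (((8 * w : ℕ) : ℤ), -(8 * (w : ℤ)) + j * ρ)) ∪
    r.image (fun j : ℕ => (-((8 * w : ℕ) : ℤ), -(8 * (w : ℤ)) + j * ρ))) ∪
    (r.image (fun j : ℕ => (-(8 * (w : ℤ)) + j * ρ, ((8 * w : ℕ) : ℤ))) ∪
    r.image (fun j : ℕ => (-(8 * (w : ℤ)) + j * ρ, -((8 * w : ℕ) : ℤ)))), ?_, ?_, ?_⟩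
  · intro v hv
    simp only [Finset.mem_union, Finset.mem_image] at hv
    rcases hv with (⟨j, hj, rfl⟩ | ⟨j, hj, rfl⟩) | (⟨j, hj, rfl⟩ | ⟨j, hj, rfl⟩) <;>
      obtain ⟨h1, h2⟩ := oute_net2 (hr ▸ hj) <;>
      simp only [sphere, ball, rect, Set.mem_ofPred_eq, Prod.fst_zero, Prod.snd_zero] <;>
      push_cast <;> omega
  · have hc : r.card = 16 * w / ρ + 1 := by rw [hr]; simp
    have h1 : ∀ f : ℕ → Vert, (r.image f).card ≤ 16 * w / ρ + 1 := fun f =>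
      Finset.card_image_le.trans hc.le
    refine (Finset.card_union_le _ _).trans ?_
    refine (Nat.add_le_add (Finset.card_union_le _ _) (Finset.card_union_le _ _)).trans ?_
    have h2 := h1 (fun j : ℕ => (((8 * w : ℕ) : ℤ), -(8 * (w : ℤ)) + j * ρ))
    have h3 := h1 (fun j : ℕ => (-((8 * w : ℕ) : ℤ), -(8 * (w : ℤ)) + j * ρ))
    have h4 := h1 (fun j : ℕ => (-(8 * (w : ℤ)) + j * ρ, ((8 * w : ℕ) : ℤ)))
    have h5 := h1 (fun j : ℕ => (-(8 * (w : ℤ)) + j * ρ, -((8 * w : ℕ) : ℤ)))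
    omega
  · rintro u ⟨h1, h2⟩
    simp only [ball, rect, Set.mem_ofPred_eq, Prod.fst_zero, Prod.snd_zero] at h1 h2
    push_cast at h1 h2
    rcases h2 with h2 | h2 | h2 | h2
    · obtain ⟨j, hj, h3, h4⟩ := oute_net1 (w := w) hρ (y := u.2) (by omega) (by omega)
      refine ⟨(-((8 * w : ℕ) : ℤ), -(8 * (w : ℤ)) + j * ρ), ?_, ?_⟩
      · exact Finset.mem_union_left _ (Finset.mem_union_right _ (Finset.mem_image_of_mem _ hj))
      · simp only [ball, rect, Set.mem_ofPred_eq]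
        push_cast
        omega
    · obtain ⟨j, hj, h3, h4⟩ := oute_net1 (w := w) hρ (y := u.2) (by omega) (by omega)
      refine ⟨(((8 * w : ℕ) : ℤ), -(8 * (w : ℤ)) + j * ρ), ?_, ?_⟩
      · exact Finset.mem_union_left _ (Finset.mem_union_left _ (Finset.mem_image_of_mem _ hj))
      · simp only [ball, rect, Set.mem_ofPred_eq]
        push_cast
        omega
    · obtain ⟨j, hj, h3, h4⟩ := oute_net1 (w := w) hρ (y := u.1) (by omega) (by omega)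
      refine ⟨(-(8 * (w : ℤ)) + j * ρ, -((8 * w : ℕ) : ℤ)), ?_, ?_⟩
      · exact Finset.mem_union_right _ (Finset.mem_union_right _ (Finset.mem_image_of_mem _ hj))
      · simp only [ball, rect, Set.mem_ofPred_eq]
        push_cast
        omega
    · obtain ⟨j, hj, h3, h4⟩ := oute_net1 (w := w) hρ (y := u.1) (by omega) (by omega)
      refine ⟨(-(8 * (w : ℤ)) + j * ρ, ((8 * w : ℕ) : ℤ)), ?_, ?_⟩
      · exact Finset.mem_union_right _ (Finset.mem_union_left _ (Finset.mem_image_of_mem _ hj))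
      · simp only [ball, rect, Set.mem_ofPred_eq]
        push_cast
        omega

/-! ### Numbers -/

theorem oute_pow {a κ δ : ℝ} (ha : 0 < a) (hκ : 0 < κ) (hδ : 0 < δ) : ∃ K₀ : ℕ, ∀ K : ℕ, K₀ ≤ K →
    (a / K) ^ κ ≤ δ := by
  refine ⟨⌈a / δ ^ (1 / κ)⌉₊ + 1, fun K hK => ?_⟩
  have h1 : 0 < δ ^ (1 / κ) := Real.rpow_pos_of_pos hδ _
  have h2 : a / δ ^ (1 / κ) ≤ K := by
    refine (Nat.le_ceil _).trans ?_
    exact_mod_cast (Nat.le_succ _).trans hK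
  have h3 : (0 : ℝ) < K := lt_of_lt_of_le (by positivity) h2
  have h4 : a / K ≤ δ ^ (1 / κ) := by
    rw [div_le_iff₀ h3]
    rwa [div_le_iff₀ h1, mul_comm] at h2
  calc (a / K) ^ κ ≤ (δ ^ (1 / κ)) ^ κ := Real.rpow_le_rpow (by positivity) h4 hκ.le
    _ = δ := by rw [← Real.rpow_mul hδ.le, one_div, inv_mul_cancel₀ hκ.ne', Real.rpow_one]

/-- Comparison of `w` and `w / K`. -/
theorem oute_div {w K : ℕ} (hK : 1 ≤ K) (hw : K ≤ w) :
    1 ≤ w / K ∧ K * (w / K) ≤ w ∧ w ≤ 2 * K * (w / K) := by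
  have h1 : 1 ≤ w / K := (Nat.one_le_div_iff (by omega)).2 hw
  have h2 : K * (w / K) ≤ w := Nat.mul_div_le w K
  have h3 : w < K * (w / K) + K := by
    have := Nat.lt_mul_div_succ w (show 0 < K by omega)
    rwa [Nat.mul_succ] at this
  refine ⟨h1, h2, ?_⟩
  nlinarith

theorem oute_card {w K ρ : ℕ} (hρ : 1 ≤ ρ) (h : w ≤ 2 * K * ρ) : 16 * w / ρ + 1 ≤ 32 * K + 1 := by
  have : 16 * w / ρ ≤ 32 * K := by
    rw [Nat.div_le_iff_le_mul_add_pred (by omega)]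
    nlinarith
  omega

/-! ### Events -/

variable {s : Src} {w ρ ρ' : ℕ} {v v' : Vert} {d d' : Side} {Z Zy : Set Vert} {Nev Ny : Set Config}
  {q : I}

/-- The bad event of the inner boundary. -/
def BadZ (w t ρ : ℕ) : Set Config := {ω | ∃ z ∈ sphere 0 (8 * w), ω ∈ LocTwo (ball 0 (8 * w)) z t ρ}

theorem oute_cover1 (hρ : 1 ≤ ρ) (hw : 64 * ρ ≤ w) {V : Finset Vert}
    (hV : ∀ v ∈ V, OnSide .E (8 * w) v)
    (hV' : ∀ u, OnSide .E (8 * w) u → ∃ v ∈ V, u ∈ ball v ρ) :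
    Four s (8 * w) ∩ Land .E s w ⊆
      (⋃ v ∈ V, Ev0 s w ρ v) ∪ (Four s (2 * w) ∩ BadZ w (11 * ρ) (4 * w)) := by
  rintro ω ⟨h1, u, hu, hc⟩
  obtain ⟨v, hv, huv⟩ := hV' u hu
  by_cases hd : Disjoint (SY s w ω) (ball v (11 * ρ))
  · left
    simp only [Set.mem_iUnion]
    exact ⟨v, hv, ⟨u, hu.1, huv, hc⟩, h1.2.1, h1.2.2, hd⟩
  · right
    exact bad0 hρ hw (hV v hv).1 h1 ⟨u, hu.1, huv, hc⟩ hd

theorem oute_ball {u v : Vert} {a b : ℕ} (h : u ∈ ball v a) {z : Vert} (hz : z ∈ ball v b) :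
    z ∈ ball u (a + b) := by
  simp only [ball, rect, Set.mem_ofPred_eq] at h hz ⊢
  push_cast
  omega

open scoped Classical in
theorem oute_cover2 (_hρ' : 1 ≤ ρ') (h1 : 64 * ρ' ≤ ρ) {V : Finset Vert}
    (hV' : ∀ u ∈ sphere 0 (8 * w), ∃ v' ∈ V, u ∈ ball v' ρ') :
    Ev2 s w ρ ρ' v d Z ⊆ ⋃ v' ∈ V.filter (fun v' => v' ∉ ball v (10 * ρ)), Ev3 s w ρ' v' d Z := by
  rintro ω ⟨h2, u, hu, huv, hc, hd⟩
  obtain ⟨v', hv', huv'⟩ := hV' u hu
  simp only [Set.mem_iUnion]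
  refine ⟨v', Finset.mem_filter.2 ⟨hv', fun h => huv ?_⟩, h2, ⟨u, hu, huv', hc⟩, ?_⟩
  · simp only [ball, rect, Set.mem_ofPred_eq] at h huv' ⊢
    push_cast at h huv' ⊢
    omega
  · refine hd.mono_right fun z hz => ?_
    have := oute_ball huv' hz
    have h8 : ρ' + 7 * ρ' = 8 * ρ' := by ring
    rwa [h8] at this

theorem bE_nonneg (q : I) (s : Src) (d : Side) (k : ℕ) : 0 ≤ ∑ d' : Side, Pr q (Sep s d d' k) :=
  Finset.sum_nonneg fun _ _ => Pr_nonneg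

/-- Outward separation, landing of `x` on the east side. -/
theorem outE (hB : BadIn) (c ε : ℝ) (hc : 0 < c) (hε : 0 < ε) : ∃ (C : ℝ) (w₀ : ℕ), 0 < C ∧
    ∀ (s : Src) (w n : ℕ) (q : I), w₀ ≤ w → 8 * w ≤ n → RSWreg c n q →
      Pr q (Four s (8 * w) ∩ Land .E s w) ≤
        C * (∑ d' : Side, Pr q (Sep s .E d' (4 * w))) + ε * Pr q (Four s (2 * w)) := by
  classical
  obtain ⟨CB, κ, hCB, hκ, hbad⟩ := hB c hc
  -- coarse scale
  obtain ⟨A₁, hA₁⟩ := oute_pow (a := 11 / 4) (κ := κ) (δ := ε / 2 / (CB * 2)) (by norm_num) hκ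
    (by positivity)
  set K₁ : ℕ := max A₁ 128 with hK₁
  have hK₁A : A₁ ≤ K₁ := le_max_left _ _
  have hK₁1 : 128 ≤ K₁ := le_max_right _ _
  obtain ⟨c₁, hc₁, hc₁'⟩ := prob_straight c hc (2 * K₁)
  -- fine scale
  obtain ⟨A₂, hA₂⟩ := oute_pow (a := 24 * K₁) (κ := κ)
    (δ := ε / 2 / ((32 * K₁ + 1) / c₁ * (CB * (16 * K₁)))) (by positivity) hκ (by positivity)
  set K₂ : ℕ := max A₂ (128 * K₁) with hK₂
  have hK₂A : A₂ ≤ K₂ := le_max_left _ _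
  have hK₂1 : 128 * K₁ ≤ K₂ := le_max_right _ _
  obtain ⟨c₂, hc₂, hst2⟩ := stage2 c hc (2 * K₂)
  obtain ⟨c₃, hc₃, hcy⟩ := exists_corr_y c hc (2 * K₂)
  obtain ⟨c₄, hc₄, hst4⟩ := stage4 c hc (2 * K₂)
  refine ⟨(32 * K₁ + 1) / c₁ * ((4 * (32 * K₂ + 1)) / (c₂ * c₃ * c₄)), 4 * K₂, by positivity, ?_⟩
  intro s w n q hw hwn hreg
  obtain ⟨r1, r2, r3⟩ := oute_div (w := w) (K := K₁) (by omega) (by omega)
  obtain ⟨r1', r2', r3'⟩ := oute_div (w := w) (K := K₂) (by omega) (by omega)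
  set ρ : ℕ := w / K₁ with hρ
  set ρ' : ℕ := w / K₂ with hρ'
  have hρ'4 : 4 ≤ ρ' := by
    rw [hρ', Nat.le_div_iff_mul_le (by omega)]
    omega
  have hwn' : w ≤ n := by omega
  have h64 : 64 * ρ ≤ w := by nlinarith
  have h64' : 64 * ρ' ≤ ρ := by
    have h1 : 128 * K₁ * ρ' ≤ w := (Nat.mul_le_mul_right ρ' hK₂1).trans r2'
    have h2 : w < K₁ * ρ + K₁ := by
      have := Nat.lt_mul_div_succ w (show 0 < K₁ by omega)
      rwa [Nat.mul_succ] at this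
    have h3 : K₁ * (128 * ρ') < K₁ * (ρ + 1) := by nlinarith
    have h4 : 128 * ρ' < ρ + 1 := Nat.lt_of_mul_lt_mul_left h3
    omega
  have hw1 : 1 ≤ w := by omega
  -- real versions
  have hwR : (0 : ℝ) < w := by exact_mod_cast hw1
  have hρR : (0 : ℝ) < ρ := by exact_mod_cast r1
  have hρ'R : (0 : ℝ) < ρ' := by exact_mod_cast r1'
  have hK₁R : (0 : ℝ) < K₁ := by exact_mod_cast (show 0 < K₁ by omega)
  have hK₂R : (0 : ℝ) < K₂ := by exact_mod_cast (show 0 < K₂ by omega)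
  have e1 : (K₁ : ℝ) * ρ ≤ w := by exact_mod_cast r2
  have e2 : (w : ℝ) ≤ 2 * K₁ * ρ := by exact_mod_cast r3
  have e3 : (K₂ : ℝ) * ρ' ≤ w := by exact_mod_cast r2'
  -- the bad events
  have hF0 : 0 ≤ Pr q (Four s (2 * w)) := Pr_nonneg
  have hb1 : Pr q (BadZ w (11 * ρ) (4 * w)) ≤ ε / 2 := by
    have h1 := hbad n (11 * ρ) (4 * w) (8 * w) q (by omega) (by omega) (by omega) hwn hreg
    refine h1.trans ?_
    have h2 : (((8 * w : ℕ) : ℝ) / ((4 * w : ℕ) : ℝ)) = 2 := by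
      push_cast
      field_simp
      norm_num
    have h3 : (((11 * ρ : ℕ) : ℝ) / ((4 * w : ℕ) : ℝ)) ≤ 11 / 4 / K₁ := by
      push_cast
      rw [div_le_div_iff₀ (by positivity) hK₁R]
      nlinarith
    have h4 : (((11 * ρ : ℕ) : ℝ) / ((4 * w : ℕ) : ℝ)) ^ κ ≤ ε / 2 / (CB * 2) :=
      (Real.rpow_le_rpow (by positivity) h3 hκ.le).trans (hA₁ K₁ hK₁A)
    rw [h2]
    calc CB * 2 * (((11 * ρ : ℕ) : ℝ) / ((4 * w : ℕ) : ℝ)) ^ κ
        ≤ CB * 2 * (ε / 2 / (CB * 2)) := mul_le_mul_of_nonneg_left h4 (by positivity)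
      _ = ε / 2 := by field_simp
  have hb2 : (32 * K₁ + 1) / c₁ * Pr q (BadZ w (12 * ρ') ρ) ≤ ε / 2 := by
    have h1 := hbad n (12 * ρ') ρ (8 * w) q (by omega) (by omega) (by omega) hwn hreg
    have h2 : (((8 * w : ℕ) : ℝ) / (ρ : ℝ)) ≤ 16 * K₁ := by
      push_cast
      rw [div_le_iff₀ hρR]
      nlinarith
    have h3 : (((12 * ρ' : ℕ) : ℝ) / (ρ : ℝ)) ≤ 24 * K₁ / K₂ := by
      push_cast
      rw [div_le_div_iff₀ hρR hK₂R]
      nlinarith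
    have h4 : (((12 * ρ' : ℕ) : ℝ) / (ρ : ℝ)) ^ κ ≤
        ε / 2 / ((32 * K₁ + 1) / c₁ * (CB * (16 * K₁))) :=
      (Real.rpow_le_rpow (by positivity) h3 hκ.le).trans (hA₂ K₂ hK₂A)
    have h5 : Pr q (BadZ w (12 * ρ') ρ) ≤
        CB * (16 * K₁) * (ε / 2 / ((32 * K₁ + 1) / c₁ * (CB * (16 * K₁)))) := by
      refine h1.trans ?_
      exact mul_le_mul (mul_le_mul_of_nonneg_left h2 hCB.le) h4 (by positivity) (by positivity)
    calc (32 * K₁ + 1) / c₁ * Pr q (BadZ w (12 * ρ') ρ)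
        ≤ (32 * K₁ + 1) / c₁ *
          (CB * (16 * K₁) * (ε / 2 / ((32 * K₁ + 1) / c₁ * (CB * (16 * K₁))))) :=
          mul_le_mul_of_nonneg_left h5 (by positivity)
      _ = ε / 2 := by field_simp
  -- nets
  obtain ⟨V₁, hV₁, hV₁c, hV₁'⟩ := oute_netE (w := w) (ρ := ρ) r1
  obtain ⟨V₂, hV₂, hV₂c, hV₂'⟩ := oute_netS (w := w) (ρ := ρ') r1'
  have hcard1 : (V₁.card : ℝ) ≤ 32 * K₁ + 1 := by
    exact_mod_cast hV₁c.trans (oute_card r1 r3)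
  have hcard2 : (V₂.card : ℝ) ≤ 4 * (32 * K₂ + 1) := by
    exact_mod_cast hV₂c.trans (Nat.mul_le_mul_left 4 (oute_card r1' r3'))
  set B : ℝ := ∑ d' : Side, Pr q (Sep s .E d' (4 * w)) with hBdef
  have hB0 : 0 ≤ B := bE_nonneg q s .E (4 * w)
  -- stage 3 and stage 4
  have step34 : ∀ v ∈ V₁, ∀ v' ∈ V₂.filter (fun v' => v' ∉ ball v (10 * ρ)),
      Pr q (Ev3 s w ρ' v' .E (ZS .E w ρ v)) ≤ B / (c₃ * c₄) := by
    intro v hv v' hv'
    rw [Finset.mem_filter] at hv'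
    obtain ⟨d', Zy, Ny, -, hKy, hKS, hNy⟩ := hcy w ρ ρ' n v v' q r1' h64' h64 r3' hwn' (hV₁ v hv)
      (hV₂ v' hv'.1) hv'.2 hreg
    have hK := corr_straight (d := .E) (w := w) (ρ := ρ) (v := v) r1 h64 (hV₁ v hv)
    have h3 := stage3 (s := s) (q := q) hK hKy hKS r1' h64' h64 (hV₁ v hv).1 (hV₂ v' hv'.1) hc₃.le
      hNy
    have h4 := hst4 s w ρ ρ' v v' .E d' (ZS .E w ρ v) Zy (NS .E w ρ v) Ny n q hK hKy hKS hρ'4 h64'
      h64 r3' (hV₁ v hv).1 (hV₂ v' hv'.1) hwn' hreg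
    have h5 : Pr q (Sep s .E d' (4 * w)) ≤ B :=
      Finset.single_le_sum (f := fun d' => Pr q (Sep s .E d' (4 * w)))
        (fun _ _ => Pr_nonneg) (Finset.mem_univ d')
    rw [le_div_iff₀ (by positivity)]
    calc Pr q (Ev3 s w ρ' v' .E (ZS .E w ρ v)) * (c₃ * c₄)
        = c₄ * (c₃ * Pr q (Ev3 s w ρ' v' .E (ZS .E w ρ v))) := by ring
      _ ≤ c₄ * Pr q (Ev3 s w ρ' v' .E (ZS .E w ρ v) ∩ Ny) := mul_le_mul_of_nonneg_left h3 hc₄.le
      _ ≤ B := h4.trans h5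
  -- stage 2
  have step2 : ∀ v ∈ V₁, Pr q (Ev0 s w ρ v ∩ NS .E w ρ v ∩ Good12 s w ρ' (ZS .E w ρ v)) ≤
      4 * (32 * K₂ + 1) / (c₂ * c₃ * c₄) * B := by
    intro v hv
    have hK := corr_straight (d := .E) (w := w) (ρ := ρ) (v := v) r1 h64 (hV₁ v hv)
    have h2 := hst2 s w ρ ρ' v .E (ZS .E w ρ v) (NS .E w ρ v) n q hK hρ'4 h64' h64 r3'
      (hV₁ v hv).1 hwn' hreg
    have h3 : Pr q (Ev2 s w ρ ρ' v .E (ZS .E w ρ v)) ≤ 4 * (32 * K₂ + 1) * (B / (c₃ * c₄)) := by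
      refine (Pr_mono (oute_cover2 r1' h64' hV₂')).trans ((Pr_biUnion_le _ _).trans ?_)
      refine (Finset.sum_le_card_nsmul _ _ _ (step34 v hv)).trans ?_
      rw [nsmul_eq_mul]
      refine mul_le_mul_of_nonneg_right ?_ (by positivity)
      refine le_trans ?_ hcard2
      exact_mod_cast Finset.card_filter_le _ _
    rw [div_mul_eq_mul_div, le_div_iff₀ (by positivity)]
    calc Pr q (Ev0 s w ρ v ∩ NS .E w ρ v ∩ Good12 s w ρ' (ZS .E w ρ v)) * (c₂ * c₃ * c₄)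
        = (c₂ * Pr q (Ev0 s w ρ v ∩ NS .E w ρ v ∩ Good12 s w ρ' (ZS .E w ρ v))) * (c₃ * c₄) := by
          ring
      _ ≤ (4 * (32 * K₂ + 1) * (B / (c₃ * c₄))) * (c₃ * c₄) :=
          mul_le_mul_of_nonneg_right (h2.trans h3) (by positivity)
      _ = 4 * (32 * K₂ + 1) * B := by field_simp
  -- stage 1
  have step1 : ∀ v ∈ V₁, Pr q (Ev0 s w ρ v) ≤
      (4 * (32 * K₂ + 1) / (c₂ * c₃ * c₄) * B +
        Pr q (Four s (2 * w)) * Pr q (BadZ w (12 * ρ') ρ)) / c₁ := by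
    intro v hv
    have hK := corr_straight (d := .E) (w := w) (ρ := ρ) (v := v) r1 h64 (hV₁ v hv)
    have hN := hc₁' .E w ρ n v q r1 (by omega) r3 hwn' (hV₁ v hv) hreg
    have h1 := stage1 (s := s) (q := q) hK r1 h64 (hV₁ v hv).1 hc₁.le hN
    have h2 : Ev0 s w ρ v ∩ NS .E w ρ v ⊆
        (Ev0 s w ρ v ∩ NS .E w ρ v ∩ Good12 s w ρ' (ZS .E w ρ v)) ∪
          (Four s (2 * w) ∩ BadZ w (12 * ρ') ρ) := by
      rintro ω ⟨h3, h4⟩
      by_cases h5 : ω ∈ Good12 s w ρ' (ZS .E w ρ v)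
      · exact Or.inl ⟨⟨h3, h4⟩, h5⟩
      · exact Or.inr (bad12 hK r1' h64' h64 (hV₁ v hv).1 h3 h5)
    have h3 : Pr q (Four s (2 * w) ∩ BadZ w (12 * ρ') ρ) =
        Pr q (Four s (2 * w)) * Pr q (BadZ w (12 * ρ') ρ) :=
      four_bad_indep (by omega) (by omega) hw1
    rw [le_div_iff₀ hc₁, mul_comm]
    refine h1.trans ((Pr_mono h2).trans (Pr_union_le.trans ?_))
    rw [h3]
    exact add_le_add (step2 v hv) le_rfl
  -- conclusion
  have h3 : Pr q (Four s (2 * w) ∩ BadZ w (11 * ρ) (4 * w)) =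
      Pr q (Four s (2 * w)) * Pr q (BadZ w (11 * ρ) (4 * w)) :=
    four_bad_indep (by omega) (by omega) hw1
  have hcov := (Pr_mono (p := q) (oute_cover1 (s := s) r1 h64 hV₁ hV₁')).trans Pr_union_le
  rw [h3] at hcov
  have hsum : Pr q (⋃ v ∈ V₁, Ev0 s w ρ v) ≤ (32 * K₁ + 1) *
      ((4 * (32 * K₂ + 1) / (c₂ * c₃ * c₄) * B +
        Pr q (Four s (2 * w)) * Pr q (BadZ w (12 * ρ') ρ)) / c₁) := by
    refine (Pr_biUnion_le _ _).trans ((Finset.sum_le_card_nsmul _ _ _ step1).trans ?_)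
    rw [nsmul_eq_mul]
    refine mul_le_mul_of_nonneg_right hcard1 ?_
    have : 0 ≤ Pr q (BadZ w (12 * ρ') ρ) := Pr_nonneg
    positivity
  have hfin : (32 * (K₁ : ℝ) + 1) *
      ((4 * (32 * K₂ + 1) / (c₂ * c₃ * c₄) * B +
        Pr q (Four s (2 * w)) * Pr q (BadZ w (12 * ρ') ρ)) / c₁) =
      (32 * K₁ + 1) / c₁ * ((4 * (32 * K₂ + 1)) / (c₂ * c₃ * c₄)) * B +
        ((32 * K₁ + 1) / c₁ * Pr q (BadZ w (12 * ρ') ρ)) * Pr q (Four s (2 * w)) := by ring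
  rw [hfin] at hsum
  have h4 := mul_le_mul_of_nonneg_right hb2 hF0
  have h5 := mul_le_mul_of_nonneg_left hb1 hF0
  nlinarith [hcov, hsum, h4, h5]

/-- Transport of the bound by a symmetry. -/
theorem oute_transport {C ε : ℝ} {w : ℕ} {q : I} (g : Gen) (d : Side)
    (h : ∀ s : Src, Pr q (Four s (8 * w) ∩ Land (g.s d) s w) ≤
      C * (∑ d' : Side, Pr q (Sep s (g.s d) d' (4 * w))) + ε * Pr q (Four s (2 * w))) (s : Src) :
    Pr q (Four s (8 * w) ∩ Land d s w) ≤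
      C * (∑ d' : Side, Pr q (Sep s d d' (4 * w))) + ε * Pr q (Four s (2 * w)) := by
  have h1 := h (s.map g)
  rw [four_land_map, four_map] at h1
  have h2 : (∑ d' : Side, Pr q (Sep (s.map g) (g.s d) d' (4 * w))) =
      ∑ d' : Side, Pr q (Sep s d d' (4 * w)) := by
    refine Finset.sum_bij' (fun d' _ => g.s d') (fun d' _ => g.s d') (fun _ _ => Finset.mem_univ _)
      (fun _ _ => Finset.mem_univ _) (fun d' _ => g.s_s d') (fun d' _ => g.s_s d') ?_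
    intro d' _
    have h3 := sep_map (q := q) (s := s) (d := d) (d' := g.s d') (k := 4 * w) g
    rw [g.s_s] at h3
    exact h3
  rw [h2] at h1
  exact h1

/-- **One step of the outward separation.** -/
theorem out_step (hB : BadIn) (c ε : ℝ) (hc : 0 < c) (hε : 0 < ε) : ∃ (C : ℝ) (w₀ : ℕ), 0 < C ∧
    ∀ (s : Src) (w n : ℕ) (q : I), w₀ ≤ w → 8 * w ≤ n → RSWreg c n q →
      Pr q (Four s (8 * w)) ≤ C * bS q s (4 * w) + ε * Pr q (Four s (2 * w)) := by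
  obtain ⟨C, w₀, hC, h⟩ := outE hB c (ε / 4) hc (by positivity)
  refine ⟨C, w₀, hC, ?_⟩
  intro s w n q hw hwn hreg
  have hE : ∀ s : Src, Pr q (Four s (8 * w) ∩ Land .E s w) ≤
      C * (∑ d' : Side, Pr q (Sep s .E d' (4 * w))) + ε / 4 * Pr q (Four s (2 * w)) :=
    fun s => h s w n q hw hwn hreg
  have hN := oute_transport (g := .sw) (d := .N) hE
  have hW := oute_transport (g := .rx) (d := .W) hE
  have hS := oute_transport (g := .ry) (d := .S) hN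
  have hall : ∀ d : Side, Pr q (Four s (8 * w) ∩ Land d s w) ≤
      C * (∑ d' : Side, Pr q (Sep s d d' (4 * w))) + ε / 4 * Pr q (Four s (2 * w)) := by
    intro d
    cases d
    · exact hE s
    · exact hN s
    · exact hW s
    · exact hS s
  have h1 : Pr q (Four s (8 * w)) ≤ ∑ d : Side, Pr q (Four s (8 * w) ∩ Land d s w) := by
    have h2 := Pr_biUnion_le (p := q) (Finset.univ : Finset Side)
      (fun d => Four s (8 * w) ∩ Land d s w)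
    refine (Pr_mono ?_).trans h2
    refine four_land.trans ?_
    simp
  refine h1.trans ((Finset.sum_le_sum fun d _ => hall d).trans ?_)
  rw [Finset.sum_add_distrib, ← Finset.mul_sum, Finset.sum_const, Finset.card_univ]
  have h4 : Fintype.card Side = 4 := rfl
  rw [h4, nsmul_eq_mul]
  unfold bS
  push_cast
  linarith

end Pool.Agent.H59.EX
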