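import Pool.Agent.H59.EX.MoveDef
import Pool.Agent.H59.EX.Fact
import Pool.Agent.H59.EX.Corr
import Pool.Agent.H59.EX.SealProb

/-!
# Extension of separated events along abstract corridors
-/

open MeasureTheory ProbabilityTheory unitInterval

namespace Pool.Agent.H59.EX

open Pool.Agent.H89.Perc Pool.Agent.H61.NC

/-! ### Rectangles are connected -/

private theorem mc_h {S : Set Vert} {y : ℤ} (x : ℤ) (n : ℕ)
    (h : ∀ z : ℤ, x ≤ z → z ≤ x + n → ((z, y) : Vert) ∈ S) : Conn allOpen S (x, y) (x + n, y) := by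
  induction n with
  | zero =>
    have h0 := h x le_rfl (by simp)
    simpa using (Conn.refl h0 : Conn allOpen S (x, y) (x, y))
  | succ n ih =>
    have h1 := ih fun z hz hz' => h z hz (by push_cast; omega)
    refine h1.tail ⟨h _ (by omega) (by push_cast; omega), h _ (by push_cast; omega) le_rfl,
      (x + n, y, false), Or.inl ⟨rfl, ?_⟩, rfl⟩
    simp [tgt]
    ring

private theorem mc_v {S : Set Vert} {x : ℤ} (y : ℤ) (n : ℕ)
    (h : ∀ z : ℤ, y ≤ z → z ≤ y + n → ((x, z) : Vert) ∈ S) : Conn allOpen S (x, y) (x, y + n) := by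
  induction n with
  | zero =>
    have h0 := h y le_rfl (by simp)
    simpa using (Conn.refl h0 : Conn allOpen S (x, y) (x, y))
  | succ n ih =>
    have h1 := ih fun z hz hz' => h z hz (by push_cast; omega)
    refine h1.tail ⟨h _ (by omega) (by push_cast; omega), h _ (by push_cast; omega) le_rfl,
      (x, y + n, true), Or.inl ⟨rfl, ?_⟩, rfl⟩
    simp [tgt]
    ring

private theorem mc_h' {S : Set Vert} {x x' y : ℤ}
    (h : ∀ z : ℤ, min x x' ≤ z → z ≤ max x x' → ((z, y) : Vert) ∈ S) :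
    Conn allOpen S (x, y) (x', y) := by
  rcases le_total x x' with hx | hx
  · have h1 := mc_h (S := S) (y := y) x (x' - x).toNat fun z hz hz' => h z (by omega) (by omega)
    rwa [Int.toNat_of_nonneg (by omega), add_sub_cancel] at h1
  · have h1 := mc_h (S := S) (y := y) x' (x - x').toNat fun z hz hz' => h z (by omega) (by omega)
    rw [Int.toNat_of_nonneg (by omega), add_sub_cancel] at h1
    exact h1.symm

private theorem mc_v' {S : Set Vert} {x y y' : ℤ}
    (h : ∀ z : ℤ, min y y' ≤ z → z ≤ max y y' → ((x, z) : Vert) ∈ S) :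
    Conn allOpen S (x, y) (x, y') := by
  rcases le_total y y' with hx | hx
  · have h1 := mc_v (S := S) (x := x) y (y' - y).toNat fun z hz hz' => h z (by omega) (by omega)
    rwa [Int.toNat_of_nonneg (by omega), add_sub_cancel] at h1
  · have h1 := mc_v (S := S) (x := x) y' (y - y').toNat fun z hz hz' => h z (by omega) (by omega)
    rw [Int.toNat_of_nonneg (by omega), add_sub_cancel] at h1
    exact h1.symm

private theorem mc_rect {a b c d : ℤ} {u v : Vert} (hu : u ∈ rect a b c d)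
    (hv : v ∈ rect a b c d) : Conn allOpen (rect a b c d) u v := by
  obtain ⟨u1, u2⟩ := u
  obtain ⟨v1, v2⟩ := v
  simp only [rect, Set.mem_ofPred_eq] at hu hv
  have h1 : Conn allOpen (rect a b c d) (u1, u2) (v1, u2) := mc_h' fun z hz hz' => by
    simp only [rect, Set.mem_ofPred_eq]
    omega
  have h2 : Conn allOpen (rect a b c d) (v1, u2) (v1, v2) := mc_v' fun z hz hz' => by
    simp only [rect, Set.mem_ofPred_eq]
    omega
  exact h1.trans h2

private theorem mc_T {d : Side} {k : ℕ} {u v : Vert} (hu : u ∈ T d k) (hv : v ∈ T d k) :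
    Conn allOpen (T d k) u v := by
  cases d <;> exact mc_rect hu hv

/-! ### Elementary geometry -/

private theorem mc_ball_symm {a b : Vert} {r : ℕ} (h : a ∈ ball b r) : b ∈ ball a r := by
  simp only [mem_ball] at h ⊢
  omega

private theorem mc_ball_mono {a : Vert} {r r' : ℕ} (h : r ≤ r') : ball a r ⊆ ball a r' := by
  intro b hb
  simp only [mem_ball] at hb ⊢
  omega

private theorem mc_T_ball {d : Side} {k : ℕ} : T d k ⊆ ball 0 (36 * k) := by
  intro a ha
  cases d
  all_goals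
    simp only [T, rect, Set.mem_ofPred_eq] at ha
    simp only [mem_ball, Prod.fst_zero, Prod.snd_zero, Nat.cast_mul, Nat.cast_ofNat]
    omega

private theorem mc_T_far {d : Side} {k : ℕ} (hk : 1 ≤ k) {a : Vert} (ha : a ∈ T d k) :
    a ∉ ball 0 2 := by
  intro hb
  simp only [mem_ball, Prod.fst_zero, Prod.snd_zero, Nat.cast_ofNat] at hb
  cases d
  all_goals
    simp only [T, rect, Set.mem_ofPred_eq] at ha
    omega

private theorem mc_Mouth_ball {d : Side} {k : ℕ} : Mouth d k ⊆ ball 0 (32 * k) := by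
  intro a ha
  cases d
  all_goals
    simp only [Mouth, rect, Set.mem_ofPred_eq] at ha
    simp only [mem_ball, Prod.fst_zero, Prod.snd_zero, Nat.cast_mul, Nat.cast_ofNat]
    omega

/-- One cluster is confined (abstract form). -/
private theorem mc_conf {k ρ : ℕ} {ω cut : Config} {Dm C C' X Y Mx My : Set Vert}
    {G : Finset Vert} {t : Set Edge}
    (ht : t = touch Dm (X ∪ Y) ∪ inE (C ∪ C')) (hk : 1 ≤ k) (hρk : 4 * ρ ≤ k)
    (hcut : ∀ e, cut e = true → ω e = true)
    (hX : ∀ a b e, Joins e a b → cut e = true → a ∈ X → b ∈ Dm → b ∈ X)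
    (hY : ∀ a b e, Joins e a b → cut e = true → a ∈ Y → b ∈ Dm → b ∈ Y)
    (hXD : X ⊆ Dm) (hYD : Y ⊆ Dm) (hXY : ∀ a ∈ X, a ∉ Y)
    (hCX : ∀ a ∈ C, a ∈ Dm → a ∈ X) (hCY : ∀ a ∈ C', a ∈ Dm → a ∈ Y)
    (hXe : ∀ a b e, Joins e a b → a ∈ X → b ∉ Dm → a ∈ C ∪ Mx)
    (hYe : ∀ a b e, Joins e a b → a ∈ Y → b ∉ Dm → a ∈ C' ∪ My)
    (hsep : ∀ a ∈ C ∪ Mx, ∀ b ∈ C' ∪ My, b ∉ ball a k)
    (hG : ∀ a ∈ C ∪ Mx, ∃ g ∈ G, a ∈ ball g ρ)
    (hseal : ω ∈ Seal G ρ t) {x z : Vert} (hx : x ∈ X)
    (hc : Conn (fillV (C ∪ C') cut) Set.univ x z) :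
    z ∈ X ∪ C ∨ (z ∉ Y ∪ C' ∧ ∃ a ∈ C ∪ Mx, z ∈ ball a (4 * ρ)) := by
  have hadj : ∀ a b e, Joins e a b → a ∈ C ∪ Mx → b ∉ C' ∪ My := by
    intro a b e hj ha hb
    exact hsep a ha b hb (mc_ball_mono hk (ball_of_joins hj.symm))
  refine seal_confine (ω := ω) (W := Set.univ) (S := X ∪ C) (F := Y ∪ C') (Ex := C ∪ Mx) (t := t)
    (G := G) ?_ hseal hG ?_ ?_ ?_ ?_ (Or.inl hx) hc
  · intro e he ho
    rcases fillV_true.1 ho with h | h
    · exact hcut e h
    · refine absurd ?_ he
      rw [ht]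
      exact Or.inr h
  · intro a b e hj ho _ _ ha hb
    rcases fillV_true.1 ho with h | h
    · -- open in `cut`
      have hbX : b ∉ X := fun h' => hb (Or.inl h')
      have hbC : b ∉ C := fun h' => hb (Or.inr h')
      by_cases haX : a ∈ X
      · have hbD : b ∉ Dm := fun h' => hbX (hX a b e hj h haX h')
        have haE := hXe a b e hj haX hbD
        have hbC' := hadj a b e hj haE
        refine ⟨haE, ?_, ?_⟩
        · rintro (h' | h')
          · exact hbD (hYD h')
          · exact hbC' (Or.inl h')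
        · rw [ht]
          rintro (h' | h')
          · exact hbD ((touch_of_joins hj).1 h').1.2
          · rcases ((inE_of_joins hj).1 h').2 with h' | h'
            · exact hbC h'
            · exact hbC' (Or.inl h')
      · have haC : a ∈ C := ha.resolve_left haX
        have haD : a ∉ Dm := fun h' => haX (hCX a haC h')
        have hbC' := hadj a b e hj (Or.inl haC)
        refine ⟨Or.inl haC, ?_, ?_⟩
        · rintro (h' | h')
          · exact hbC' (hYe b a e hj.symm h' haD)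
          · exact hbC' (Or.inl h')
        · rw [ht]
          rintro (h' | h')
          · exact haD ((touch_of_joins hj).1 h').1.1
          · rcases ((inE_of_joins hj).1 h').2 with h' | h'
            · exact hbC h'
            · exact hbC' (Or.inl h')
    · -- a filled edge
      exfalso
      obtain ⟨h1, h2⟩ := (inE_of_joins hj).1 h
      have hbC' : b ∈ C' := h2.resolve_left fun h' => hb (Or.inr h')
      rcases h1 with h1 | h1
      · exact hadj a b e hj (Or.inl h1) (Or.inl hbC')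
      · rcases ha with ha | ha
        · exact hXY a ha (hCY a h1 (hXD ha))
        · exact hadj a b e hj (Or.inl ha) (Or.inl hbC')
  · intro a b e hj ho _ _ ha1 ha2 hb x' hx' hbx
    have hnear : b ∈ ball x' k := mc_ball_mono hρk hbx
    rcases hb with hb | hb
    · rcases fillV_true.1 ho with h | h
      · have haD : a ∉ Dm := fun h' => ha2 (Or.inl (hY b a e hj.symm h hb h'))
        exact hsep x' hx' b (hYe b a e hj.symm hb haD) hnear
      · rcases ((inE_of_joins hj).1 h).1 with h' | h'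
        · exact ha1 (Or.inr h')
        · exact ha2 (Or.inr h')
    · exact hsep x' hx' b (Or.inl hb) hnear
  · intro a b e hj ho _ _ ha1 ha2 hb1 hb2
    rw [ht]
    rintro (h | h)
    · rcases ((touch_of_joins hj).1 h).2 with (h | h) | (h | h)
      · exact ha1 (Or.inl h)
      · exact ha2 (Or.inl h)
      · exact hb1 (Or.inl h)
      · exact hb2 (Or.inl h)
    · rcases ((inE_of_joins hj).1 h).1 with h' | h'
      · exact ha1 (Or.inr h')
      · exact ha2 (Or.inr h')
  · intro a b e hj ho _ _ ha1 ha2 hb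
    have hcute : cut e = true := by
      rcases fillV_true.1 ho with h | h
      · exact h
      · exfalso
        rcases ((inE_of_joins hj).1 h).1 with h' | h'
        · exact ha1 (Or.inr h')
        · exact ha2 (Or.inr h')
    rw [ht]
    rintro (h | h)
    · obtain ⟨haD, hbD⟩ := ((touch_of_joins hj).1 h).1
      have hbY : b ∈ Y := by
        rcases hb with hb | hb
        · exact hb
        · exact hCY b hb hbD
      exact ha2 (Or.inl (hY b a e hj.symm hcute hbY haD))
    · rcases ((inE_of_joins hj).1 h).1 with h' | h'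
      · exact ha1 (Or.inr h')
      · exact ha2 (Or.inr h')

/-- Facts about one side of a separated event and its corridor. -/
private theorem mc_step {s : Src} {d d' : Side} {k : ℕ} {ω : Config} {x₀ : Vert} {a b : Vert}
    {e : Edge} (hj : Joins e a b) (ho : s.cut ω e = true)
    (ha : a ∈ clus (fillV (T d k ∪ T d' k) (s.cut ω)) (dom d d' k) {x₀}) (hb : b ∈ dom d d' k) :
    b ∈ clus (fillV (T d k ∪ T d' k) (s.cut ω)) (dom d d' k) {x₀} :=
  clus_step ha ⟨clus_sub ha, hb, e, hj, fillV_true.2 (Or.inl ho)⟩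

private theorem mc_exit {d d' : Side} {k : ℕ} {a b : Vert} {e : Edge} (hj : Joins e a b)
    (ha : a ∈ dom d d' k) (hb : b ∉ dom d d' k) :
    a ∈ sphere 0 (32 * k) ∨ a ∈ T d k ∨ a ∈ T d' k := by
  rcases ha with ha | ha | ha
  · exact Or.inl (mem_sphere_of_joins hj ha fun h => hb (Or.inl h))
  · exact Or.inr (Or.inl ha)
  · exact Or.inr (Or.inr ha)

private theorem mc_dom_ball {d d' : Side} {k : ℕ} : dom d d' k ⊆ ball 0 (36 * k) := by
  rintro a (ha | ha | ha)
  · exact mc_ball_mono (by omega) ha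
  · exact mc_T_ball ha
  · exact mc_T_ball ha

/-- The corridor keeps away from the source. -/
private theorem mc_corr_cut {s : Src} {d δ : Side} {k : ℕ} {C : Set Vert} {N : Set Config}
    (hk : 1 ≤ k) (hM : MoveData k d δ C N) {ω : Config} {e : Edge} (he : e ∈ inE C) :
    s.cut ω e = ω e := by
  refine cut_of_not_ball (Or.inl fun h => ?_)
  exact mc_T_far hk (hM.inter ⟨he.1, mc_ball_mono (by omega) h⟩) h

/-- The new fence. -/
private theorem mc_fence {s : Src} {d δ : Side} {k : ℕ} {C D D' : Set Vert} {N : Set Config}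
    (hk : 1 ≤ k) (hM : MoveData k d δ C N) {ω : Config} (hN : ω ∈ N) {x : Vert}
    (hf : Fence d k (s.cut ω) D x) (hD : D ∪ C ⊆ D') : Fence δ (4 * k) (s.cut ω) D' x := by
  refine fence_mono hD (fun _ h => h) (hM.hook ω hN (s.cut ω) D x (fun e he ho => ?_) hf)
  rw [mc_corr_cut hk hM he]
  exact ho

private theorem mc_C_dom' {d δ δ' : Side} {k : ℕ} {C : Set Vert} {N : Set Config}
    (hM : MoveData k d δ C N) : C ⊆ ball 0 (32 * (4 * k)) ∪ (T δ (4 * k) ∪ T δ' (4 * k)) := by
  intro a ha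
  rcases hM.sub ha with h | h
  · exact Or.inl (mc_ball_mono (by omega) h)
  · exact Or.inr (Or.inl h)

/-- The new mouth. -/
private theorem mc_mouth {d d₁ d₂ δ : Side} {k ρ : ℕ} {C X : Set Vert} {N : Set Config}
    (hk : 1 ≤ k) (hρk : 4 * ρ ≤ k) (hM : MoveData k d δ C N) (hX : X ⊆ dom d₁ d₂ k) {v : Vert}
    (hv : v ∈ sphere 0 (32 * (4 * k)))
    (h : v ∈ X ∪ C ∨ ∃ a ∈ C ∪ Mouth d k, v ∈ ball a (4 * ρ)) : v ∈ Mouth δ (4 * k) := by
  have e1 : 32 * (4 * k) = 128 * k := by ring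
  rw [e1] at hv
  have hfar : v ∉ ball 0 (36 * k) := by
    intro hb
    have h2 := hv.2
    simp only [mem_ball, Prod.fst_zero, Prod.snd_zero] at hb h2
    push_cast at hb h2
    omega
  rcases h with (h | h) | ⟨a, ha | ha, h⟩
  · exact absurd (mc_dom_ball (hX h)) hfar
  · exact hM.mouth v hv v h self_mem_ball
  · exact hM.mouth v hv a ha (mc_ball_mono hρk h)
  · refine absurd ?_ hfar
    have h1 := mc_Mouth_ball ha
    simp only [mem_ball, Prod.fst_zero, Prod.snd_zero] at h1 h ⊢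
    push_cast at h1 h ⊢
    omega

/-- Deterministic part. -/
theorem move_det {s : Src} {d d' δ δ' : Side} {k ρ : ℕ} {C C' : Set Vert} {N N' : Set Config}
    {G : Finset Vert} (hk : 4 ≤ k) (hρ : 1 ≤ ρ) (hρk : 4 * ρ ≤ k) (hM : MoveData k d δ C N)
    (hM' : MoveData k d' δ' C' N') (hS : MoveSep k d d' C C')
    (hG : ∀ a ∈ ball 0 (144 * k), ∃ g ∈ G, a ∈ ball g ρ) {ω : Config} (hω : ω ∈ Sep s d d' k)
    (hN : ω ∈ N) (hN' : ω ∈ N')
    (hseal : ω ∈ Seal G ρ (touch (dom d d' k) (FX s d d' k ω ∪ FY s d d' k ω) ∪ inE (C ∪ C'))) :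
    ω ∈ Sep s δ δ' (4 * k) := by
  have hk1 : 1 ≤ k := by omega
  obtain ⟨hf, hf', hxy, hm, hm'⟩ := hω
  set Dm : Set Vert := dom d d' k with hDm
  set X : Set Vert := FX s d d' k ω with hXdef
  set Y : Set Vert := FY s d d' k ω with hYdef
  have hXD : X ⊆ Dm := clus_sub
  have hYD : Y ⊆ Dm := clus_sub
  have hxD : s.x ∈ Dm := by
    obtain ⟨u, _, h⟩ := fence_mem hf
    exact h.mem_left
  have hyD : s.y ∈ Dm := by
    obtain ⟨u, _, h⟩ := fence_mem hf'
    exact h.mem_left
  have hxX : s.x ∈ X := ⟨s.x, rfl, Conn.refl hxD⟩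
  have hyY : s.y ∈ Y := ⟨s.y, rfl, Conn.refl hyD⟩
  have hXY : ∀ a ∈ X, a ∉ Y := by
    intro a ha hb
    exact hxy ((mem_clus_single.1 ha).trans (mem_clus_single.1 hb).symm)
  have hTX : T d k ⊆ X := by
    intro a ha
    obtain ⟨u, hu, hc⟩ := fence_mem hf
    refine clus_conn (a := u) ⟨s.x, rfl, hc.mono subset_rfl fun e he => fillV_true.2 (Or.inl he)⟩ ?_
    have h1 : Conn (fillV (T d k) (s.cut ω)) (dom d d' k) u a :=
      conn_fillV (fun z hz => Or.inr (Or.inl hz)) (mc_T hu ha)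
    exact h1.mono subset_rfl fun e he => fillV_mono Set.subset_union_left he
  have hTY : T d' k ⊆ Y := by
    intro a ha
    obtain ⟨u, hu, hc⟩ := fence_mem hf'
    refine clus_conn (a := u) ⟨s.y, rfl, hc.mono subset_rfl fun e he => fillV_true.2 (Or.inl he)⟩ ?_
    have h1 : Conn (fillV (T d' k) (s.cut ω)) (dom d d' k) u a :=
      conn_fillV (fun z hz => Or.inr (Or.inr hz)) (mc_T hu ha)
    exact h1.mono subset_rfl fun e he => fillV_mono Set.subset_union_right he
  have hdisj : ∀ a ∈ C, a ∉ C' := fun a ha hb => hS a (Or.inl ha) a (Or.inl hb) self_mem_ball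
  have hCX : ∀ a ∈ C, a ∈ Dm → a ∈ X := by
    rintro a ha (h | h | h)
    · exact hTX (hM.inter ⟨ha, h⟩)
    · exact hTX h
    · exact absurd (hM'.T_sub h) (hdisj a ha)
  have hCY : ∀ a ∈ C', a ∈ Dm → a ∈ Y := by
    rintro a ha (h | h | h)
    · exact hTY (hM'.inter ⟨ha, h⟩)
    · exact absurd ha (hdisj a (hM.T_sub h))
    · exact hTY h
  have hXe : ∀ a b e, Joins e a b → a ∈ X → b ∉ Dm → a ∈ C ∪ Mouth d k := by
    intro a b e hj ha hb
    rcases mc_exit hj (hXD ha) hb with h | h | h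
    · exact Or.inr (hm a h (mem_clus_single.1 ha))
    · exact Or.inl (hM.T_sub h)
    · exact absurd (hTY h) (hXY a ha)
  have hYe : ∀ a b e, Joins e a b → a ∈ Y → b ∉ Dm → a ∈ C' ∪ Mouth d' k := by
    intro a b e hj ha hb
    rcases mc_exit hj (hYD ha) hb with h | h | h
    · exact Or.inr (hm' a h (mem_clus_single.1 ha))
    · exact absurd ha (hXY a (hTX h))
    · exact Or.inl (hM'.T_sub h)
  have hC144 : ∀ {dd δδ : Side} {CC : Set Vert} {NN : Set Config}, MoveData k dd δδ CC NN →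
      ∀ a ∈ CC ∪ Mouth dd k, a ∈ ball (0 : Vert) (144 * k) := by
    rintro dd δδ CC NN hMM a (ha | ha)
    · rcases hMM.sub ha with h | h
      · exact mc_ball_mono (by omega) h
      · exact mc_ball_mono (by omega) (mc_T_ball h)
    · exact mc_ball_mono (by omega) (mc_Mouth_ball ha)
  have confX : ∀ z, Conn (fillV (C ∪ C') (s.cut ω)) Set.univ s.x z →
      z ∈ X ∪ C ∨ (z ∉ Y ∪ C' ∧ ∃ a ∈ C ∪ Mouth d k, z ∈ ball a (4 * ρ)) := by
    intro z hz
    exact mc_conf (Dm := Dm) (My := Mouth d' k) rfl hk1 hρk (fun e he => cut_le he)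
      (fun a b e hj ho ha hb => mc_step hj ho ha hb) (fun a b e hj ho ha hb => mc_step hj ho ha hb)
      hXD hYD hXY hCX hCY hXe hYe hS (fun a ha => hG a (hC144 hM a ha)) hseal hxX hz
  have confY : ∀ z, Conn (fillV (C ∪ C') (s.cut ω)) Set.univ s.y z →
      z ∈ Y ∪ C' ∨ (z ∉ X ∪ C ∧ ∃ a ∈ C' ∪ Mouth d' k, z ∈ ball a (4 * ρ)) := by
    intro z hz
    rw [Set.union_comm C C'] at hz
    refine mc_conf (Dm := Dm) (X := Y) (Y := X) (C := C') (C' := C) (Mx := Mouth d' k)
      (My := Mouth d k) (t := touch Dm (X ∪ Y) ∪ inE (C ∪ C')) ?_ hk1 hρk (fun e he => cut_le he)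
      (fun a b e hj ho ha hb => mc_step hj ho ha hb) (fun a b e hj ho ha hb => mc_step hj ho ha hb)
      hYD hXD (fun a ha hb => hXY a hb ha) hCY hCX hYe hXe
      (fun a ha b hb h => hS b hb a ha (mc_ball_symm h))
      (fun a ha => hG a (hC144 hM' a ha)) hseal hyY hz
    rw [Set.union_comm Y X, Set.union_comm C' C]
  -- comparison of the new filled configuration with the filled corridors
  have hle : ∀ e, fillV (T δ (4 * k) ∪ T δ' (4 * k)) (s.cut ω) e = true →
      fillV (C ∪ C') (s.cut ω) e = true := fun e he =>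
    fillV_mono (Set.union_subset_union hM.T_sub' hM'.T_sub') he
  have hD1 : dom d d' k ∪ C ⊆ dom δ δ' (4 * k) := by
    apply Set.union_subset
    · intro a ha
      exact Or.inl (mc_ball_mono (by omega) (mc_dom_ball ha))
    · exact mc_C_dom' hM
  have hD2 : dom d d' k ∪ C' ⊆ dom δ δ' (4 * k) := by
    apply Set.union_subset
    · intro a ha
      exact Or.inl (mc_ball_mono (by omega) (mc_dom_ball ha))
    · intro a ha
      rcases mc_C_dom' (δ' := δ) hM' ha with h | h | h
      · exact Or.inl h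
      · exact Or.inr (Or.inr h)
      · exact Or.inr (Or.inl h)
  refine ⟨mc_fence hk1 hM hN hf hD1, mc_fence hk1 hM' hN' hf' hD2, ?_, ?_, ?_⟩
  · intro hc
    rcases confX s.y (hc.mono (Set.subset_univ _) hle) with (h | h) | ⟨h, -⟩
    · exact hXY s.y h hyY
    · exact hXY s.y (hCX s.y h hyD) hyY
    · exact h (Or.inl hyY)
  · intro v hv hc
    refine mc_mouth hk1 hρk hM hXD hv ?_
    rcases confX v (hc.mono (Set.subset_univ _) hle) with h | ⟨-, h⟩
    · exact Or.inl h
    · exact Or.inr h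
  · intro v hv hc
    refine mc_mouth hk1 hρk hM' hYD hv ?_
    rcases confY v (hc.mono (Set.subset_univ _) hle) with h | ⟨-, h⟩
    · exact Or.inl h
    · exact Or.inr h

theorem move_core (c : ℝ) (hc : 0 < c) (K : ℕ) (c₁ : ℝ) (hc₁ : 0 < c₁) : ∃ C₀ : ℝ, 0 < C₀ ∧
    ∀ (s : Src) (d d' δ δ' : Side) (k n : ℕ) (C C' : Set Vert) (N N' : Set Config) (q : I),
      4 ≤ k → k ≤ K * n → RSWreg c n q → MoveData k d δ C N → MoveData k d' δ' C' N' →
      MoveSep k d d' C C' → c₁ ≤ Pr q N → c₁ ≤ Pr q N' →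
        Pr q (Sep s d d' k) ≤ C₀ * Pr q (Sep s δ δ' (4 * k)) := by
  classical
  obtain ⟨c₂, hc₂, hlow⟩ := seal_lower c hc K ((2 * 1200 + 1) ^ 2)
  refine ⟨(c₁ * c₁ * c₂)⁻¹, inv_pos.2 (by positivity), ?_⟩
  intro s d d' δ δ' k n C C' N N' q hk hkn hR hM hM' hS hN hN'
  have hk1 : 1 ≤ k := by omega
  have hn : 1 ≤ n := by
    rcases Nat.eq_zero_or_pos n with h | h
    · subst h
      omega
    · exact h
  set ρ : ℕ := k / 4 with hρdef
  have hρ : 1 ≤ ρ := by omega
  have hρk : 4 * ρ ≤ k := by omega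
  set G : Finset Vert := grid ρ 1200 with hGdef
  have hG : ∀ a ∈ ball (0 : Vert) (144 * k), ∃ g ∈ G, a ∈ ball g ρ := by
    intro a ha
    exact exists_grid hρ (mc_ball_mono (by omega) ha)
  have hC144 : ∀ {dd δδ : Side} {CC : Set Vert} {NN : Set Config}, MoveData k dd δδ CC NN →
      CC ⊆ ball (0 : Vert) (144 * k) := by
    intro dd δδ CC NN hMM a ha
    rcases hMM.sub ha with h | h
    · exact mc_ball_mono (by omega) h
    · exact mc_ball_mono (by omega) (mc_T_ball h)
  have hfin : (C ∪ C').Finite := by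
    have h1 : (ball (0 : Vert) (144 * k)).Finite := by
      refine Set.Finite.subset ((Set.finite_Icc (-(144 * k : ℤ)) (144 * k)).prod
        (Set.finite_Icc (-(144 * k : ℤ)) (144 * k))) ?_
      rintro ⟨x, y⟩ h
      simp only [mem_ball, Prod.fst_zero, Prod.snd_zero, Nat.cast_mul, Nat.cast_ofNat] at h
      refine ⟨⟨?_, ?_⟩, ⟨?_, ?_⟩⟩ <;> simp only <;> omega
    exact h1.subset (Set.union_subset (hC144 hM) (hC144 hM'))
  -- local events
  set Λ : Finset Edge := eRect (-(144 * k : ℕ)) (144 * k : ℕ) (-(144 * k : ℕ)) (144 * k : ℕ) with hΛ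
  have hΛC : ∀ {dd δδ : Side} {CC : Set Vert} {NN : Set Config}, MoveData k dd δδ CC NN →
      LocalOn Λ NN := by
    intro dd δδ CC NN hMM ω ω' h hω
    refine hMM.loc ω ω' (fun e he => h e ?_) hω
    rw [hΛ, mem_eRect]
    have h1 := hC144 hMM he.1
    unfold ball at h1
    simp only [Prod.fst_zero, Prod.snd_zero, zero_sub, zero_add] at h1
    exact h1
  have hloc : LocS (inE (C ∪ C')) (N ∩ N') := by
    rintro ω ω' h ⟨h1, h2⟩
    exact ⟨hM.loc ω ω' (fun e he => h e ⟨Or.inl he.1, Or.inl he.2⟩) h1,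
      hM'.loc ω ω' (fun e he => h e ⟨Or.inr he.1, Or.inr he.2⟩) h2⟩
  have hP : c₁ * c₁ ≤ Pr q {ω | pb id ω ∈ N ∩ N'} := by
    have h1 := fkg (p := q) (hΛC hM) (hΛC hM') hM.incr hM'.incr
    exact (mul_le_mul hN hN' hc₁.le Pr_nonneg).trans h1
  have hdisj : ∀ a ∈ C, a ∉ C' := fun a ha hb => hS a (Or.inl ha) a (Or.inl hb) self_mem_ball
  have hdet : ∀ S, det id d d' k (C ∪ C') S = touch (dom d d' k) S ∪ inE (C ∪ C') := by
    intro S
    ext e
    constructor
    · rintro ⟨e', he', h⟩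
      have h' : e = e' := h
      rwa [h']
    · intro he
      exact ⟨e, he, rfl⟩
  have main := corridor_prob (q := q) (π := id) (s := s) (d := d) (d' := d') hk1
    (C := C ∪ C') (Np := N ∩ N')
    (H := fun S => Seal G ρ (touch (dom d d' k) S ∪ inE (C ∪ C')))
    (c₁ := c₁ * c₁) (c₂ := c₂) (by positivity) hc₂.le (Set.injOn_id _)
    (Set.union_subset_union hM.T_sub hM'.T_sub)
    (by
      rintro a ⟨ha | ha, h | h | h⟩
      · exact Or.inl (hM.inter ⟨ha, h⟩)
      · exact Or.inl h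
      · exact absurd (hM'.T_sub h) (hdisj a ha)
      · exact Or.inr (hM'.inter ⟨ha, h⟩)
      · exact absurd ha (hdisj a (hM.T_sub h))
      · exact Or.inr h)
    hfin hloc (hM.incr.inter hM'.incr) hP
    (fun S => by
      rw [hdet S]
      exact locS_seal _ _ _)
    (by
      obtain ⟨Λ', h⟩ := localOn_seal G ρ
      exact ⟨Λ', fun S => h _⟩)
    (fun S => hlow n ρ q G _ hn hR hρ (by omega) (card_grid _ _))
  have h2 : {ω | pb id ω ∈ Sep s d d' k ∧ pb id ω ∈ N ∩ N' ∧
      pb id ω ∈ (fun S => Seal G ρ (touch (dom d d' k) S ∪ inE (C ∪ C')))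
        (FX s d d' k (pb id ω) ∪ FY s d d' k (pb id ω))} ⊆ Sep s δ δ' (4 * k) := by
    rintro ω ⟨h1, ⟨h2, h3⟩, h4⟩
    exact move_det hk hρ hρk hM hM' hS hG h1 h2 h3 h4
  have h3 := main.trans (Pr_mono h2)
  have hpos : 0 < c₁ * c₁ * c₂ := by positivity
  rw [inv_mul_eq_div, le_div_iff₀ hpos, mul_comm]
  exact h3

end Pool.Agent.H59.EX
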