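import Pool.Agent.H59.EX.MoveDef
import Pool.Agent.H29.Sep.Tools

/-!
# The turning corridor of the moves
-/

open MeasureTheory ProbabilityTheory unitInterval

namespace Pool.Agent.H59.EX

open Pool.Agent.H89.Perc Pool.Agent.H61.NC

namespace MoveT

variable {ω ω' η : Config} {S S' : Set Vert} {u v u' v' : Vert}

open Classical in
/-- Only the edges inside `S`. -/
noncomputable def restr (S : Set Vert) (ω : Config) : Config :=
  fun e => ω e && decide (src e ∈ S ∧ tgt e ∈ S)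

theorem restr_iff {e : Edge} : restr S ω e = true ↔ ω e = true ∧ src e ∈ S ∧ tgt e ∈ S := by
  classical
  rw [restr, Bool.and_eq_true, decide_eq_true_iff]

theorem conn_restr (h : Conn (restr S ω) S' u v) (hu : u ∈ S) : Conn ω S u v := by
  refine h.induction_right (P := fun w => Conn ω S u w) (Conn.refl hu) ?_
  intro w w' _ hs hw
  refine hw.tail ?_
  obtain ⟨e, hj, he⟩ := hs.2.2
  rw [restr_iff] at he
  refine ⟨hw.mem_right, ?_, e, hj, he.1⟩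
  rcases hj with ⟨-, h2⟩ | ⟨-, h2⟩
  · rw [h2]; exact he.2.2
  · rw [h2]; exact he.2.1

theorem restr_conn (h : Conn ω (S ∩ S') u v) : Conn (restr S ω) S' u v := by
  have h1 : Conn (restr S ω) (S ∩ S') u v := h.congr fun e h1 h2 => by
    rw [Bool.eq_iff_iff, restr_iff]
    exact ⟨fun h => ⟨h, h1.1, h2.1⟩, fun h => h.1⟩
  exact h1.mono_set Set.inter_subset_right

/-- Two crossing paths meet. -/
theorem meet {a b c d : ℤ} (h : Conn ω S u v) (hu : u.1 ≤ a) (hv : b ≤ v.1)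
    (h' : Conn ω' S' u' v') (hu' : u'.2 ≤ c) (hv' : d ≤ v'.2) (hab : a ≤ b) (hcd : c ≤ d)
    (hS : ∀ x ∈ S, c ≤ x.2 ∧ x.2 ≤ d) (hS' : ∀ x ∈ S', a ≤ x.1 ∧ x.1 ≤ b) :
    ∃ w, Conn ω S u w ∧ Conn ω' S' u' w := by
  obtain ⟨p, q, hp, hq, h1, h2, -⟩ := h.cross_x hu hv hab
  obtain ⟨p', q', hp', hq', h1', h2', -⟩ := h'.cross_y hu' hv' hcd
  have h3 : Conn (restr S ω) (rect a b c d) p q := by
    refine restr_conn (h1.mono_set fun x hx => ⟨hx.1, ?_⟩)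
    exact ⟨hx.2.1, hx.2.2, hS x hx.1⟩
  have h3' : Conn (restr S' ω') (rect a b c d) p' q' := by
    refine restr_conn (h1'.mono_set fun x hx => ⟨hx.1, ?_⟩)
    exact ⟨(hS' x hx.1).1, (hS' x hx.1).2, hx.2.1, hx.2.2⟩
  obtain ⟨w, hw, hw'⟩ := cross h3 hp hq h3' hp' hq'
  exact ⟨w, h2.trans (conn_restr hw h2.mem_right), h2'.trans (conn_restr hw' h2'.mem_right)⟩

theorem conn_mono_on (h : Conn ω S u v) (hω : ∀ e, src e ∈ S → tgt e ∈ S → ω e = true → η e = true) :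
    Conn η S u v := by
  have h1 : Conn (restr S ω) S u v := restr_conn (by rwa [Set.inter_self])
  refine h1.mono subset_rfl fun e he => ?_
  rw [restr_iff] at he
  exact hω e he.2.1 he.2.2 he.1

end MoveT

open MoveT

theorem move_turn {k : ℕ} (hk : 4 ≤ k) : MoveData k .E .N (CT k) (NT k) := by
  have hR1 : rect (28 * k) (64 * k) (-(3 * k)) (3 * k) ⊆ CT k := by
    rintro ⟨x, y⟩ h
    simp only [CT, T, rect, Set.mem_union, Set.mem_setOf_eq] at h ⊢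
    omega
  have hR2 : rect (60 * k) (64 * k) (-(3 * k)) (64 * k) ⊆ CT k := by
    rintro ⟨x, y⟩ h
    simp only [CT, T, rect, Set.mem_union, Set.mem_setOf_eq] at h ⊢
    omega
  have hR3 : rect (-(3 * k)) (64 * k) (60 * k) (64 * k) ⊆ CT k := by
    rintro ⟨x, y⟩ h
    simp only [CT, T, rect, Set.mem_union, Set.mem_setOf_eq] at h ⊢
    omega
  have hR4 : rect (-(3 * k)) (3 * k) (60 * k) (144 * k) ⊆ CT k := by
    rintro ⟨x, y⟩ h
    simp only [CT, T, rect, Set.mem_union, Set.mem_setOf_eq] at h ⊢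
    omega
  have hR5 : rect (-(12 * k)) (12 * k) (112 * k) (144 * k) ⊆ CT k := by
    rintro ⟨x, y⟩ h
    simp only [CT, T, rect, Set.mem_union, Set.mem_setOf_eq] at h ⊢
    omega
  have hT5 : rect (-(12 * k)) (12 * k) (112 * k) (144 * k) ⊆ T .N (4 * k) := by
    rintro ⟨x, y⟩ h
    simp only [T, rect, Set.mem_setOf_eq] at h ⊢
    push_cast
    omega
  refine ⟨?_, ?_, ?_, ?_, ?_, ?_, ?_, ?_⟩
  · rintro ⟨x, y⟩ h
    simp only [CT, Set.mem_union]
    exact Or.inl (Or.inl (Or.inl (Or.inl h)))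
  · rintro ⟨x, y⟩ h
    simp only [CT, T, rect, Set.mem_union, Set.mem_setOf_eq] at h ⊢
    push_cast at h
    omega
  · rintro ⟨x, y⟩ ⟨h, hb⟩
    simp only [CT, T, rect, ball, Set.mem_union, Set.mem_setOf_eq, Prod.fst_zero, Prod.snd_zero]
      at h hb ⊢
    push_cast at hb
    omega
  · rintro ⟨x, y⟩ h
    simp only [CT, T, rect, ball, Set.mem_union, Set.mem_setOf_eq, Prod.fst_zero, Prod.snd_zero]
      at h ⊢
    push_cast
    omega
  · rintro ω ω' hle ⟨h1, h2, h3, h4, h5⟩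
    exact ⟨incr_hcross _ _ _ _ ω ω' hle h1, incr_vcross _ _ _ _ ω ω' hle h2,
      incr_hcross _ _ _ _ ω ω' hle h3, incr_vcross _ _ _ _ ω ω' hle h4,
      incr_hcross _ _ _ _ ω ω' hle h5⟩
  · rintro ω ω' hag ⟨⟨a1, b1, p1, q1, h1⟩, ⟨a2, b2, p2, q2, h2⟩, ⟨a3, b3, p3, q3, h3⟩,
      ⟨a4, b4, p4, q4, h4⟩, ⟨a5, b5, p5, q5, h5⟩⟩
    exact ⟨⟨a1, b1, p1, q1, h1.congr fun e h h' => hag e ⟨hR1 h, hR1 h'⟩⟩,
      ⟨a2, b2, p2, q2, h2.congr fun e h h' => hag e ⟨hR2 h, hR2 h'⟩⟩,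
      ⟨a3, b3, p3, q3, h3.congr fun e h h' => hag e ⟨hR3 h, hR3 h'⟩⟩,
      ⟨a4, b4, p4, q4, h4.congr fun e h h' => hag e ⟨hR4 h, hR4 h'⟩⟩,
      ⟨a5, b5, p5, q5, h5.congr fun e h h' => hag e ⟨hR5 h, hR5 h'⟩⟩⟩
  · rintro ω ⟨⟨a1, b1, p1, q1, h1⟩, ⟨a2, b2, p2, q2, h2⟩, ⟨a3, b3, p3, q3, h3⟩,
      ⟨a4, b4, p4, q4, h4⟩, ⟨a5, b5, p5, q5, h5⟩⟩ η D x hη ⟨u, v, hu, hv, huv, hxu⟩
    -- consecutive crossings meet
    obtain ⟨w1, m1, m1'⟩ := meet (a := 28 * k) (b := 36 * k) (c := -(3 * k)) (d := 3 * k)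
      h1 (by omega) (by omega) huv (by omega) (by omega) (by omega) (by omega)
      (fun x hx => ⟨hx.2.2.1, hx.2.2.2⟩) (fun x hx => ⟨hx.1, hx.2.1⟩)
    obtain ⟨w2, m2, m2'⟩ := meet (a := 60 * k) (b := 64 * k) (c := -(3 * k)) (d := 3 * k)
      h1 (by omega) (by omega) h2 (by omega) (by omega) (by omega) (by omega)
      (fun x hx => ⟨hx.2.2.1, hx.2.2.2⟩) (fun x hx => ⟨hx.1, hx.2.1⟩)
    obtain ⟨w3, m3, m3'⟩ := meet (a := 60 * k) (b := 64 * k) (c := 60 * k) (d := 64 * k)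
      h3 (by omega) (by omega) h2 (by omega) (by omega) (by omega) (by omega)
      (fun x hx => ⟨hx.2.2.1, hx.2.2.2⟩) (fun x hx => ⟨hx.1, hx.2.1⟩)
    obtain ⟨w4, m4, m4'⟩ := meet (a := -(3 * k)) (b := 3 * k) (c := 60 * k) (d := 64 * k)
      h3 (by omega) (by omega) h4 (by omega) (by omega) (by omega) (by omega)
      (fun x hx => ⟨hx.2.2.1, hx.2.2.2⟩) (fun x hx => ⟨hx.1, hx.2.1⟩)
    obtain ⟨w5, m5, m5'⟩ := meet (a := -(3 * k)) (b := 3 * k) (c := 112 * k) (d := 144 * k)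
      h5 (by omega) (by omega) h4 (by omega) (by omega) (by omega) (by omega)
      (fun x hx => ⟨hx.2.2.1, hx.2.2.2⟩) (fun x hx => ⟨hx.1, hx.2.1⟩)
    -- lift to `η` and `D ∪ C`
    have lift : ∀ {R : Set Vert} {p q : Vert}, R ⊆ CT k → Conn ω R p q → Conn η (D ∪ CT k) p q :=
      fun {R p q} hR h => (conn_mono_on h fun e e1 e2 => hη e ⟨hR e1, hR e2⟩).mono_set
        (hR.trans Set.subset_union_right)
    have hTE : T .E k ⊆ D ∪ CT k := fun z hz => by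
      refine Or.inr ?_
      simp only [CT, Set.mem_union]
      exact Or.inl (Or.inl (Or.inl (Or.inl hz)))
    refine ⟨a5, b5, by push_cast; omega, by push_cast; omega, ?_, ?_⟩
    · exact (conn_mono_on h5 fun e e1 e2 => hη e ⟨hR5 e1, hR5 e2⟩).mono_set hT5
    · exact (hxu.mono_set Set.subset_union_left).trans ((m1'.mono_set hTE).trans
        ((lift hR1 m1).symm.trans ((lift hR1 m2).trans ((lift hR2 m2').symm.trans
        ((lift hR2 m3').trans ((lift hR3 m3).symm.trans ((lift hR3 m4).trans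
        ((lift hR4 m4').symm.trans ((lift hR4 m5').trans (lift hR5 m5).symm)))))))))
  · rintro ⟨z1, z2⟩ ⟨hz, hz'⟩ ⟨a1, a2⟩ ha hza
    simp only [CT, T, rect, ball, Mouth, Set.mem_union, Set.mem_setOf_eq, Prod.fst_zero,
      Prod.snd_zero] at hz hz' ha hza ⊢
    push_cast at hz hz' ⊢
    omega

theorem msep_WT {k : ℕ} (hk : 4 ≤ k) : MoveSep k .W .E (CM .W k) (CT k) := by
  rintro ⟨a1, a2⟩ ha ⟨b1, b2⟩ hb hab
  simp only [CM, CT, T, Mouth, rect, ball, Set.mem_union, Set.mem_setOf_eq] at ha hb hab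
  omega

theorem msep_ST {k : ℕ} (hk : 4 ≤ k) : MoveSep k .S .E (CM .S k) (CT k) := by
  rintro ⟨a1, a2⟩ ha ⟨b1, b2⟩ hb hab
  simp only [CM, CT, T, Mouth, rect, ball, Set.mem_union, Set.mem_setOf_eq] at ha hb hab
  omega

end Pool.Agent.H59.EX
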