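import Pool.Agent.H59.EX.MoveDef
import Pool.Agent.H85.Strict.Corr

/-!
# The turning corridor of the moves
-/

open MeasureTheory ProbabilityTheory unitInterval

namespace Pool.Agent.H59.EX

open Pool.Agent.H89.Perc Pool.Agent.H61.NC
open Pool.Agent.H85.Strict (hv_meet)

theorem mt_locS_h {C : Set Vert} {a b c d : ℤ} (h : rect a b c d ⊆ C) :
    LocS (inE C) {ω | HCross ω a b c d} := by
  rintro ω ω' hω ⟨u, v, hu, hv, hc⟩
  exact ⟨u, v, hu, hv, Conn.congr (fun e h1 h2 => hω e ⟨h h1, h h2⟩) hc⟩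

theorem mt_locS_v {C : Set Vert} {a b c d : ℤ} (h : rect a b c d ⊆ C) :
    LocS (inE C) {ω | VCross ω a b c d} := by
  rintro ω ω' hω ⟨u, v, hu, hv, hc⟩
  exact ⟨u, v, hu, hv, Conn.congr (fun e h1 h2 => hω e ⟨h h1, h h2⟩) hc⟩

theorem mt_incr_h {a b c d : ℤ} : Incr {ω | HCross ω a b c d} := by
  rintro ω ω' hω ⟨u, v, hu, hv, hc⟩
  exact ⟨u, v, hu, hv, Conn.mono le_rfl hω hc⟩

theorem mt_incr_v {a b c d : ℤ} : Incr {ω | VCross ω a b c d} := by
  rintro ω ω' hω ⟨u, v, hu, hv, hc⟩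
  exact ⟨u, v, hu, hv, Conn.mono le_rfl hω hc⟩

/-- Open paths of `ω` inside `C` are open for `η`. -/
theorem mt_lift {C R : Set Vert} {ω η : Config} (h : ∀ e ∈ inE C, ω e = true → η e = true)
    (hR : R ⊆ C) {u v : Vert} (hc : Conn ω R u v) : Conn η R u v := by
  refine hc.induction_right (P := fun w => Conn η R u w) (Conn.refl hc.mem_left) ?_
  rintro a b _ ⟨ha, hb, e, he, ho⟩ ih
  refine ih.tail ⟨ha, hb, e, he, h e ?_ ho⟩
  rcases he with ⟨h1, h2⟩ | ⟨h1, h2⟩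
  · exact ⟨hR (h1 ▸ ha), hR (h2 ▸ hb)⟩
  · exact ⟨hR (h2 ▸ hb), hR (h1 ▸ ha)⟩

theorem move_turn {k : ℕ} (hk : 4 ≤ k) : MoveData k .E .N (CT k) (NT k) := by
  have r1 : rect (28 * k) (64 * k) (-(3 * (k : ℤ))) (3 * k) ⊆ CT k := by
    intro v hv
    simp only [CT, T, rect, Set.mem_union, Set.mem_ofPred_eq] at hv ⊢
    omega
  have r2 : rect (60 * k) (64 * k) (-(3 * (k : ℤ))) (64 * k) ⊆ CT k := by
    intro v hv
    simp only [CT, T, rect, Set.mem_union, Set.mem_ofPred_eq] at hv ⊢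
    omega
  have r3 : rect (-(3 * (k : ℤ))) (64 * k) (60 * k) (64 * k) ⊆ CT k := by
    intro v hv
    simp only [CT, T, rect, Set.mem_union, Set.mem_ofPred_eq] at hv ⊢
    omega
  have r4 : rect (-(3 * (k : ℤ))) (3 * k) (60 * k) (144 * k) ⊆ CT k := by
    intro v hv
    simp only [CT, T, rect, Set.mem_union, Set.mem_ofPred_eq] at hv ⊢
    omega
  have r5 : rect (-(12 * (k : ℤ))) (12 * k) (112 * k) (144 * k) ⊆ CT k := by
    intro v hv
    simp only [CT, T, rect, Set.mem_union, Set.mem_ofPred_eq] at hv ⊢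
    omega
  have rT : T .E k ⊆ CT k := fun v hv => Or.inl (Or.inl (Or.inl (Or.inl hv)))
  refine ⟨rT, ?_, ?_, ?_, ?_, ?_, ?_, ?_⟩
  · intro v hv
    simp only [CT, T, rect, Set.mem_union, Set.mem_ofPred_eq] at hv ⊢
    push_cast at hv
    omega
  · rintro v ⟨h1, h2⟩
    simp only [CT, T, rect, ball, Set.mem_union, Set.mem_ofPred_eq, Prod.fst_zero,
      Prod.snd_zero] at h1 h2 ⊢
    push_cast at h2
    omega
  · intro v h1
    simp only [CT, T, rect, ball, Set.mem_union, Set.mem_ofPred_eq, Prod.fst_zero,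
      Prod.snd_zero] at h1 ⊢
    push_cast
    omega
  · rintro ω ω' h ⟨h1, h2, h3, h4, h5⟩
    exact ⟨mt_incr_h ω ω' h h1, mt_incr_v ω ω' h h2, mt_incr_h ω ω' h h3, mt_incr_v ω ω' h h4,
      mt_incr_h ω ω' h h5⟩
  · rintro ω ω' h ⟨h1, h2, h3, h4, h5⟩
    exact ⟨mt_locS_h r1 ω ω' h h1, mt_locS_v r2 ω ω' h h2, mt_locS_h r3 ω ω' h h3,
      mt_locS_v r4 ω ω' h h4, mt_locS_h r5 ω ω' h h5⟩
  · rintro ω ⟨⟨p1, q1, hp1, hq1, h1⟩, ⟨p2, q2, hp2, hq2, h2⟩, ⟨p3, q3, hp3, hq3, h3⟩,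
      ⟨p4, q4, hp4, hq4, h4⟩, ⟨p5, q5, hp5, hq5, h5⟩⟩ η D x hη ⟨u, v, hu, hv, hf, hxu⟩
    have g1 := mt_lift hη r1 h1
    have g2 := mt_lift hη r2 h2
    have g3 := mt_lift hη r3 h3
    have g4 := mt_lift hη r4 h4
    have g5 := mt_lift hη r5 h5
    obtain ⟨z1, m1, m1'⟩ := hv_meet (a₂ := 28 * k) (b₂ := 36 * k) g1 (by omega) (by omega) hf
      (by omega) (by omega) (by omega) (by omega)
    obtain ⟨z2, m2, m2'⟩ := hv_meet g1 (by omega) (by omega) g2 (by omega) (by omega) (by omega)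
      (by omega)
    obtain ⟨z3, m3, m3'⟩ := hv_meet g3 (by omega) (by omega) g2 (by omega) (by omega) (by omega)
      (by omega)
    obtain ⟨z4, m4, m4'⟩ := hv_meet g3 (by omega) (by omega) g4 (by omega) (by omega) (by omega)
      (by omega)
    obtain ⟨z5, m5, m5'⟩ := hv_meet g5 (by omega) (by omega) g4 (by omega) (by omega) (by omega)
      (by omega)
    have tr : ∀ {R : Set Vert} {a b : Vert}, R ⊆ CT k → Conn η R a b → Conn η (D ∪ CT k) a b :=
      fun hR h => h.mono_set (hR.trans Set.subset_union_right)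
    refine ⟨p5, q5, by rw [hp5]; push_cast; ring, by rw [hq5]; push_cast; ring, ?_, ?_⟩
    · refine g5.mono_set ?_
      intro v hv
      simp only [T, rect, Set.mem_ofPred_eq] at hv ⊢
      push_cast
      omega
    · have c1 : Conn η (D ∪ CT k) x u := hxu.mono_set Set.subset_union_left
      have c2 := c1.trans (tr rT m1')
      have c3 := c2.trans (tr r1 m1).symm
      have c4 := c3.trans (tr r1 m2)
      have c5 := c4.trans (tr r2 m2').symm
      have c6 := c5.trans (tr r2 m3')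
      have c7 := c6.trans (tr r3 m3).symm
      have c8 := c7.trans (tr r3 m4)
      have c9 := c8.trans (tr r4 m4').symm
      have c10 := c9.trans (tr r4 m5')
      exact c10.trans (tr r5 m5).symm
  · intro z hz a ha hza
    simp only [CT, T, rect, sphere, ball, Set.mem_union, Set.mem_ofPred_eq, Prod.fst_zero,
      Prod.snd_zero, Mouth] at hz ha hza ⊢
    push_cast at hz ⊢
    omega

theorem msep_WT {k : ℕ} (hk : 4 ≤ k) : MoveSep k .W .E (CM .W k) (CT k) := by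
  intro a ha b hb hab
  simp only [CM, CT, T, rect, ball, Set.mem_union, Set.mem_ofPred_eq, Mouth] at ha hb hab
  omega

theorem msep_ST {k : ℕ} (hk : 4 ≤ k) : MoveSep k .S .E (CM .S k) (CT k) := by
  intro a ha b hb hab
  simp only [CM, CT, T, rect, ball, Set.mem_union, Set.mem_ofPred_eq, Mouth] at ha hb hab
  omega

end Pool.Agent.H59.EX
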