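import Pool.Agent.H59.EX.Fact
import Pool.Agent.H59.EX.SealProb

/-!
# Outward separation: stage 2
-/

open MeasureTheory ProbabilityTheory unitInterval

namespace Pool.Agent.H59.EX

open Pool.Agent.H89.Perc Pool.Agent.H61.NC

variable {s : Src} {w ρ ρ' : ℕ} {v v' : Vert} {d d' : Side} {Z Zy : Set Vert} {Nev Ny : Set Config}
  {q : I}

private theorem st2_cut_congr {s : Src} {ω ω' : Config} {e : Edge} (h : ω e = ω' e) :
    s.cut ω e = s.cut ω' e := by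
  unfold Src.cut closeS
  rw [h]

private theorem st2_fill_congr {s : Src} {Z : Set Vert} {ω ω' : Config} {e : Edge}
    (h : ω e = ω' e) : fillV Z (s.cut ω) e = fillV Z (s.cut ω') e := by
  unfold fillV
  rw [st2_cut_congr h]

/-- A path depends only on the edges touching the cluster. -/
private theorem st2_conn_transfer {ω ω' : Config} {D : Set Vert} {S : Set Vert} {x u : Vert}
    (hS : ∀ a, Conn ω D x a → a ∈ S)
    (h : ∀ a b e, Joins e a b → a ∈ D → b ∈ D → a ∈ S → ω e = ω' e) (hc : Conn ω D x u) :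
    Conn ω' D x u := by
  refine hc.induction_right (P := fun u => Conn ω' D x u) (Conn.refl hc.mem_left) ?_
  rintro a b hxa ⟨ha, hb, e, hj, ho⟩ ih
  exact ih.tail ⟨ha, hb, e, hj, by rw [← h a b e hj ha hb (hS a hxa)]; exact ho⟩

/-- The clusters depend only on the edges of `D ∪ Z`. -/
private theorem st2_clus_congr {ω ω' : Config} {D X : Set Vert}
    (h : ∀ e ∈ inE D, ω e = ω' e) : clus ω D X = clus ω' D X := by
  ext a
  constructor
  · rintro ⟨x, hx, hc⟩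
    exact ⟨x, hx, hc.congr fun e h1 h2 => h e ⟨h1, h2⟩⟩
  · rintro ⟨x, hx, hc⟩
    exact ⟨x, hx, hc.congr fun e h1 h2 => (h e ⟨h1, h2⟩).symm⟩

/-- The point `x` of the source is far from `v`. -/
private theorem st2_x_far (hρ : 1 ≤ ρ) (hw : 64 * ρ ≤ w) (hv : v ∈ sphere 0 (8 * w)) :
    s.x ∉ ball v (3 * ρ) := by
  intro h
  have h1 := s.hx
  have h2 := hv.2
  simp only [mem_ball, Prod.fst_zero, Prod.snd_zero] at h h1 h2
  push_cast at h h1 h2
  omega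

/-- The landing gives `Z ⊆ S1`. -/
private theorem st2_Z_sub (hK : CorrData w ρ v d Z Nev) {ω : Config}
    (h : ∃ u ∈ sphere 0 (8 * w), u ∈ ball v ρ ∧ Conn (s.cut ω) (ball 0 (8 * w)) s.x u) :
    Z ⊆ S1 s w Z ω := by
  obtain ⟨u, _, hu, hc⟩ := h
  have huZ : u ∈ Z := by
    apply hK.ball_sub
    simp only [mem_ball] at hu ⊢
    push_cast
    omega
  refine Z_sub_S1 hK huZ ?_
  exact ⟨s.x, rfl, hc.mono Set.subset_union_left fun e he => fillV_true.2 (Or.inl he)⟩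

private theorem st2_x_mem_S1 (hw : 1 ≤ w) {ω : Config} : s.x ∈ S1 s w Z ω := by
  refine ⟨s.x, rfl, Conn.refl (Or.inl ?_)⟩
  have h1 := s.hx
  simp only [mem_ball, Prod.fst_zero, Prod.snd_zero] at h1 ⊢
  push_cast at h1 ⊢
  omega

private theorem st2_y_mem_SY (hw : 1 ≤ w) {ω : Config} : s.y ∈ SY s w ω := by
  refine ⟨s.y, rfl, Conn.refl ?_⟩
  have h1 := s.hy
  simp only [mem_ball, Prod.fst_zero, Prod.snd_zero] at h1 ⊢
  push_cast at h1 ⊢
  omega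

private theorem st2_ball_symm {a b : Vert} {r : ℕ} (h : a ∈ ball b r) : b ∈ ball a r := by
  simp only [mem_ball] at h ⊢
  omega

/-- The determined edges. -/
private def st2_t (w : ℕ) (Z : Set Vert) (i : Set Vert × Set Vert) : Set Edge :=
  touch (ball 0 (8 * w) ∪ Z) (i.2 ∪ i.1)

/-- The pair of clusters depends only on the determined edges. -/
private theorem st2_X_congr {i : Set Vert × Set Vert} (hZ : Z ⊆ i.2) {ω ω' : Config}
    (h : ∀ e ∈ st2_t w Z i, ω e = ω' e) (hω : (SY s w ω, S1 s w Z ω) = i) :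
    (SY s w ω', S1 s w Z ω') = i := by
  refine Prod.ext ?_ ?_
  · exact locS_clus (ball 0 (8 * w)) {s.y} i.1 (s.cut ω) (s.cut ω')
      (fun e he => st2_cut_congr (h e ⟨⟨Or.inl he.1.1, Or.inl he.1.2⟩, he.2.imp Or.inr Or.inr⟩))
      (congrArg Prod.fst hω)
  · exact locS_clus_fill (D := ball 0 (8 * w) ∪ Z) (X := {s.x}) hZ (s.cut ω) (s.cut ω')
      (fun e he => st2_cut_congr (h e ⟨he.1.1, he.1.2.imp Or.inl Or.inl⟩))
      (congrArg Prod.snd hω)

/-- The event depends only on the determined edges. -/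
private theorem st2_A_congr (hK : CorrData w ρ v d Z Nev) {ω ω' : Config}
    (h : ∀ e ∈ st2_t w Z (SY s w ω, S1 s w Z ω), ω e = ω' e)
    (hω : ω ∈ Ev0 s w ρ v ∩ Nev ∩ Good12 s w ρ' Z) :
    (SY s w ω', S1 s w Z ω') = (SY s w ω, S1 s w Z ω) ∧
      ω' ∈ Ev0 s w ρ v ∩ Nev ∩ Good12 s w ρ' Z := by
  have hZ : Z ⊆ S1 s w Z ω := st2_Z_sub hK hω.1.1.1
  have hX := st2_X_congr (s := s) (w := w) (Z := Z) (i := (SY s w ω, S1 s w Z ω)) hZ h rfl
  refine ⟨hX, ?_⟩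
  have hY : SY s w ω' = SY s w ω := congrArg Prod.fst hX
  have h1 : S1 s w Z ω' = S1 s w Z ω := congrArg Prod.snd hX
  obtain ⟨⟨⟨⟨u, hu, huv, hxu⟩, ⟨u', hu', hyu⟩, hxy, hdis⟩, hN⟩, hG⟩ := hω
  refine ⟨⟨⟨⟨u, hu, huv, ?_⟩, ⟨u', hu', ?_⟩, ?_, ?_⟩, ?_⟩, ?_⟩
  · refine st2_conn_transfer (S := S1 s w Z ω) (fun a ha => ?_) (fun a b e hj ha hb haS => ?_) hxu
    · exact ⟨s.x, rfl, ha.mono Set.subset_union_left fun e he => fillV_true.2 (Or.inl he)⟩
    · exact st2_cut_congr (h e ((touch_of_joins hj).2 ⟨⟨Or.inl ha, Or.inl hb⟩,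
        Or.inl (Or.inl haS)⟩))
  · have h2 : u' ∈ SY s w ω' := by
      rw [hY]
      exact ⟨s.y, rfl, hyu⟩
    exact mem_clus_single.1 h2
  · intro hc
    have h2 : s.x ∈ SY s w ω' := ⟨s.y, rfl, hc.symm⟩
    rw [hY] at h2
    exact hxy (mem_clus_single.1 h2).symm
  · rw [hY]
    exact hdis
  · exact hK.loc ω ω' (fun e he => h e ⟨⟨Or.inr he.1, Or.inr he.2⟩, Or.inl (Or.inl (hZ he.1))⟩) hN
  · intro z hz
    rw [hY, h1]
    exact hG z hz

/-- Deterministic part of stage 2. -/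
private theorem st2_det (hK : CorrData w ρ v d Z Nev) (hρ' : 4 ≤ ρ') (hρ : 64 * ρ' ≤ ρ)
    (hw : 64 * ρ ≤ w) {K : ℕ} (hwK : w ≤ K * ρ') (hv : v ∈ sphere 0 (8 * w)) {ω : Config}
    (h0 : ω ∈ Ev0 s w ρ v) (hN : ω ∈ Nev) (hG : ω ∈ Good12 s w ρ' Z)
    (hs : ω ∈ Seal (grid ρ' (160 * K)) ρ' (st2_t w Z (SY s w ω, S1 s w Z ω))) :
    ω ∈ Ev2 s w ρ ρ' v d Z := by
  have hρ1 : 1 ≤ ρ := by omega
  have hw1 : 1 ≤ w := by omega
  obtain ⟨hx, hy, hxy, hdis⟩ := h0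
  have hZS1 : Z ⊆ S1 s w Z ω := st2_Z_sub hK hx
  have F1 := S1_disj_SY hK hρ1 hdis hxy
  have F1' : ∀ a, a ∈ S1 s w Z ω → a ∉ SY s w ω := fun a h1 h2 => Set.disjoint_left.1 F1 h1 h2
  have hS1D : S1 s w Z ω ⊆ ball 0 (8 * w) ∪ Z := clus_sub
  have hSYD : SY s w ω ⊆ ball 0 (8 * w) := clus_sub
  have hD160 : ball (0 : Vert) (8 * w) ∪ Z ⊆ ball 0 (160 * w) := by
    apply Set.union_subset
    · intro a ha
      simp only [mem_ball, Prod.fst_zero, Prod.snd_zero] at ha ⊢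
      push_cast at ha ⊢
      omega
    · exact corr_sub160 hK
  have hS1H : S1 s w Z ω ⊆ SH s w Z ω := S1_sub_SH hK
  -- off the clusters: a step into `SY`
  have key : ∀ a b e, Joins e a b → fillV Z (s.cut ω) e = true → a ∉ SY s w ω → b ∈ SY s w ω →
      a ∉ ball 0 (8 * w) ∪ Z := by
    intro a b e hj ho ha hb haD
    exact ha (SY_closed hK hρ1 hdis hb ⟨Or.inl (hSYD hb), haD, e, hj.symm, ho⟩)
  set Ex : Set Vert := {a | a ∈ S1 s w Z ω ∧ ∃ b e, Joins e a b ∧ b ∉ ball 0 (8 * w) ∪ Z} with hEx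
  have conf : ∀ z ∈ SH s w Z ω, z ∈ S1 s w Z ω ∨ (z ∉ SY s w ω ∧ ∃ a ∈ Ex, z ∈ ball a (4 * ρ')) := by
    rintro z ⟨x, hxx, hz⟩
    rw [Set.mem_singleton_iff] at hxx
    subst hxx
    refine seal_confine (ω := ω) (F := SY s w ω) (t := st2_t w Z (SY s w ω, S1 s w Z ω))
      (G := grid ρ' (160 * K)) ?_ hs ?_ ?_ ?_ ?_ ?_ (st2_x_mem_S1 hw1) hz
    · intro e he ho
      rcases fillV_true.1 ho with h | h
      · exact cut_le h
      · exact absurd ⟨⟨Or.inr h.1, Or.inr h.2⟩, Or.inl (Or.inl (hZS1 h.1))⟩ he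
    · rintro a ⟨ha, -⟩
      refine exists_grid (by omega) ?_
      have h1 := hD160 (hS1D ha)
      have h2 : (160 * w : ℕ) ≤ 160 * K * ρ' := by
        calc 160 * w ≤ 160 * (K * ρ') := Nat.mul_le_mul_left _ hwK
          _ = 160 * K * ρ' := by ring
      have h3 : ((160 * w : ℕ) : ℤ) ≤ ((160 * K * ρ' : ℕ) : ℤ) := by exact_mod_cast h2
      simp only [mem_ball, Prod.fst_zero, Prod.snd_zero] at h1 ⊢
      omega
    · intro a b e hj ho _ _ ha hb
      have hb' : b ∉ ball 0 (8 * w) ∪ Z := fun h =>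
        hb (clus_step ha ⟨hS1D ha, h, e, hj, ho⟩)
      refine ⟨⟨ha, b, e, hj, hb'⟩, fun h => hb' (Or.inl (hSYD h)), fun h => ?_⟩
      exact hb' ((touch_of_joins hj).1 h).1.2
    · intro a b e hj ho _ _ ha1 ha2 hb x' hx' hbx
      have haD := key a b e hj ho ha2 hb
      have hbs : b ∈ sphere 0 (8 * w) :=
        mem_sphere_of_joins hj.symm (hSYD hb) fun h => haD (Or.inl h)
      refine hG b hbs ⟨x', hx'.1, ?_⟩ ⟨b, hb, self_mem_ball⟩
      simp only [mem_ball] at hbx ⊢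
      push_cast at hbx ⊢
      omega
    · intro a b e hj _ _ _ ha1 ha2 hb1 hb2 h
      rcases ((touch_of_joins hj).1 h).2 with (h | h) | (h | h)
      · exact ha1 h
      · exact ha2 h
      · exact hb1 h
      · exact hb2 h
    · intro a b e hj ho _ _ ha1 ha2 hb h
      exact key a b e hj ho ha2 hb ((touch_of_joins hj).1 h).1.1
  have hSYH : ∀ a ∈ SY s w ω, a ∉ SH s w Z ω := by
    intro a ha h
    rcases conf a h with h | ⟨h, -⟩
    · exact F1' a h ha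
    · exact h ha
  have hZH : Z ⊆ SH s w Z ω := hZS1.trans hS1H
  refine ⟨⟨hSYH _ (st2_y_mem_SY hw1), ?_, ?_⟩, ?_⟩
  · -- the fence
    obtain ⟨u, hu, huv, hxu⟩ := hx
    obtain ⟨z, hz, hf⟩ := hK.hook ω hN (s.cut ω) (ball 0 (8 * w)) u s.x hxu.symm huv
      (st2_x_far hρ1 hw hv)
    have hcut : ∀ e ∈ inE Z, ω e = s.cut ω e := fun e he => (corr_cut hK hρ1 hw hv he).symm
    have hf' : Fence d (4 * w) (s.cut ω) Z z :=
      fence_congr (fun e he => hcut e ⟨hK.T_sub he.1, hK.T_sub he.2⟩) hcut hf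
    have hxz : Conn (s.cut ω) (ball 0 (8 * w)) s.x z := hxu.trans hz
    have hxz' : Conn (s.cut ω) (SH s w Z ω ∩ (ball 0 (8 * w) ∪ Z)) s.x z := by
      have h1 : Conn (s.cut ω) (clus (s.cut ω) (ball 0 (8 * w)) {s.x}) s.x z :=
        conn_in_clus (mem_clus rfl (Conn.refl hxz.mem_left)) hxz
      refine h1.mono_set ?_
      rintro a ⟨x, hxx, hc⟩
      refine ⟨?_, Or.inl hc.mem_right⟩
      exact hS1H ⟨x, hxx, hc.mono Set.subset_union_left fun e he => fillV_true.2 (Or.inl he)⟩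
    exact fence_trans hxz' (fence_mono (fun a ha => ⟨hZH ha, Or.inr ha⟩) (fun _ h => h) hf')
  · -- confinement
    intro z hz
    rcases conf z hz with h | ⟨-, a, ha, hza⟩
    · rcases hS1D h with h | h
      · exact Or.inl h
      · exact Or.inr (Or.inl ⟨z, h, self_mem_ball⟩)
    · obtain ⟨ha1, b, e, hj, hb⟩ := ha
      rcases hS1D ha1 with h | h
      · exact Or.inr (Or.inr ⟨a, hS1H ha1, mem_sphere_of_joins hj h fun h => hb (Or.inl h), hza⟩)
      · exact Or.inr (Or.inl ⟨a, h, hza⟩)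
  · -- the cluster of `y`
    obtain ⟨u, hu, hyu⟩ := hy
    have huY : u ∈ SY s w ω := ⟨s.y, rfl, hyu⟩
    refine ⟨u, hu, fun h => Set.disjoint_left.1 hdis huY h, ?_, ?_⟩
    · have h1 : Conn (s.cut ω) (SY s w ω) s.y u := conn_in_clus (st2_y_mem_SY hw1) hyu
      exact h1.mono_set fun a ha => ⟨hSYD ha, hSYH a ha⟩
    · refine Set.disjoint_left.2 fun z hz hzu => ?_
      rcases conf z hz with h | ⟨-, a, ha, hza⟩
      · refine hG u hu ⟨z, h, ?_⟩ ⟨u, huY, self_mem_ball⟩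
        simp only [mem_ball] at hzu ⊢
        push_cast at hzu ⊢
        omega
      · refine hG u hu ⟨a, ha.1, ?_⟩ ⟨u, huY, self_mem_ball⟩
        simp only [mem_ball] at hzu hza ⊢
        push_cast at hzu hza ⊢
        omega

/-- Stage 2: seal the cluster of `x`. -/
theorem stage2 (c : ℝ) (hc : 0 < c) (K : ℕ) : ∃ c' : ℝ, 0 < c' ∧ ∀ (s : Src) (w ρ ρ' : ℕ)
    (v : Vert) (d : Side) (Z : Set Vert) (Nev : Set Config) (n : ℕ) (q : I),
    CorrData w ρ v d Z Nev → 4 ≤ ρ' → 64 * ρ' ≤ ρ → 64 * ρ ≤ w → w ≤ K * ρ' →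
    v ∈ sphere 0 (8 * w) → w ≤ n → RSWreg c n q →
      c' * Pr q (Ev0 s w ρ v ∩ Nev ∩ Good12 s w ρ' Z) ≤ Pr q (Ev2 s w ρ ρ' v d Z) := by
  classical
  obtain ⟨c', hc', hlow⟩ := seal_lower c hc 1 ((2 * (160 * K) + 1) ^ 2)
  refine ⟨c', hc', fun s w ρ ρ' v d Z Nev n q hK hρ' hρ hw hwK hv hn hR => ?_⟩
  have hρ1 : 1 ≤ ρ := by omega
  have hw1 : 1 ≤ w := by omega
  set D : Set Vert := ball 0 (8 * w) with hD
  -- the finite set of edges
  obtain ⟨Λ1, hΛ1⟩ : ∃ Λ : Finset Edge, ∀ e ∈ inE (ball 0 (160 * w)), e ∈ Λ :=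
    ⟨eRect (-(160 * w : ℕ)) (160 * w : ℕ) (-(160 * w : ℕ)) (160 * w : ℕ), fun e he => by
      rw [mem_eRect]
      have h := he.1
      unfold ball at h
      simp only [Prod.fst_zero, Prod.snd_zero, zero_sub, zero_add] at h
      exact h⟩
  obtain ⟨Λ2, hΛ2⟩ := localOn_seal (grid ρ' (160 * K)) ρ'
  have hD160 : D ∪ Z ⊆ ball 0 (160 * w) := by
    apply Set.union_subset
    · intro a ha
      simp only [hD, mem_ball, Prod.fst_zero, Prod.snd_zero] at ha ⊢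
      push_cast at ha ⊢
      omega
    · exact corr_sub160 hK
  have hΛ : ∀ e ∈ inE (D ∪ Z), e ∈ Λ1 ∪ Λ2 := fun e he =>
    Finset.mem_union_left _ (hΛ1 e ⟨hD160 he.1, hD160 he.2⟩)
  have hXc : ∀ ω ω' : Config, (∀ e ∈ Λ1 ∪ Λ2, ω e = ω' e) →
      (SY s w ω, S1 s w Z ω) = (SY s w ω', S1 s w Z ω') := by
    intro ω ω' h
    refine Prod.ext ?_ ?_
    · exact st2_clus_congr fun e he => st2_cut_congr (h e (hΛ e ⟨Or.inl he.1, Or.inl he.2⟩))
    · exact st2_clus_congr fun e he => st2_fill_congr (h e (hΛ e he))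
  have main := markov_indep (Λ := Λ1 ∪ Λ2) (q := q) (c := c')
    (fun ω => (SY s w ω, S1 s w Z ω))
    (fun i => Z ⊆ i.2) (fun i => st2_t w Z i)
    (fun i => {ω | (SY s w ω, S1 s w Z ω) = i} ∩ (Ev0 s w ρ v ∩ Nev ∩ Good12 s w ρ' Z))
    (fun i => Seal (grid ρ' (160 * K)) ρ' (st2_t w Z i))
    ?_ ?_ ?_ ?_ ?_ ?_ ?_ hc'.le
  · have e1 : Ev0 s w ρ v ∩ Nev ∩ Good12 s w ρ' Z ⊆
        {ω | Z ⊆ (SY s w ω, S1 s w Z ω).2 ∧
          ω ∈ {ω' | (SY s w ω', S1 s w Z ω') = (SY s w ω, S1 s w Z ω)} ∩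
            (Ev0 s w ρ v ∩ Nev ∩ Good12 s w ρ' Z)} := by
      intro ω hω
      exact ⟨st2_Z_sub hK hω.1.1.1, rfl, hω⟩
    refine le_trans (mul_le_mul_of_nonneg_left (Pr_mono e1) hc'.le) (le_trans main (Pr_mono ?_))
    rintro ω ⟨_, ⟨_, ⟨⟨h0, hN⟩, hG⟩⟩, hs⟩
    exact st2_det hK hρ' hρ hw hwK hv h0 hN hG hs
  · intro i ω ω' h hω
    change (SY s w ω', S1 s w Z ω') = i
    rw [← hXc ω ω' h]
    exact hω
  · intro i hi ω ω' h hω
    exact st2_X_congr hi h hω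
  · rintro i ω ω' h ⟨hω, hA⟩
    obtain ⟨h1, h2⟩ := st2_A_congr (ω' := ω') hK (fun e he => h e (hΛ e he.1)) hA
    exact ⟨h1.trans hω, h2⟩
  · rintro i hi ω ω' h ⟨hω, hA⟩
    obtain ⟨h1, h2⟩ := st2_A_congr (ω' := ω') hK
      (fun e he => h e (by
        have hω' : (SY s w ω, S1 s w Z ω) = i := hω
        rw [← hω']
        exact he)) hA
    exact ⟨h1.trans hω, h2⟩
  · intro i ω ω' h
    exact hΛ2 _ ω ω' fun e he => h e (Finset.mem_union_right _ he)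
  · intro i _
    exact locS_seal _ _ _
  · intro i _
    exact hlow n ρ' q _ _ (by omega) hR (by omega) (by omega) (card_grid _ _)

end Pool.Agent.H59.EX
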