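import Pool.Agent.H59.EX.Fact

/-!
# Outward separation: stage 3
-/

open MeasureTheory ProbabilityTheory unitInterval

namespace Pool.Agent.H59.EX

open Pool.Agent.H89.Perc Pool.Agent.H61.NC

variable {s : Src} {w ρ ρ' : ℕ} {v v' : Vert} {d d' : Side} {Z Zy : Set Vert} {Nev Ny : Set Config}
  {q : I}

private theorem st3_cut_congr {s : Src} {ω ω' : Config} {e : Edge} (h : ω e = ω' e) :
    s.cut ω e = s.cut ω' e := by
  unfold Src.cut closeS
  rw [h]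

private theorem st3_cut_incr {s : Src} {ω ω' : Config} (h : ∀ e, ω e = true → ω' e = true)
    (e : Edge) (he : s.cut ω e = true) : s.cut ω' e = true := by
  unfold Src.cut at he ⊢
  rw [closeS_true] at he ⊢
  exact ⟨h e he.1, he.2⟩

private theorem st3_fill_congr {s : Src} {Z : Set Vert} {ω ω' : Config} {e : Edge}
    (h : ω e = ω' e) : fillV Z (s.cut ω) e = fillV Z (s.cut ω') e := by
  unfold fillV
  rw [st3_cut_congr h]

/-- The cluster of `x` depends on the edges of `ball 0 (160 w)` only. -/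
private theorem st3_SH_congr {s : Src} {w : ℕ} {Z : Set Vert} {ω ω' : Config}
    (h : ∀ e ∈ inE (ball 0 (160 * w)), ω e = ω' e) : SH s w Z ω = SH s w Z ω' := by
  have key : ∀ ω ω' : Config, (∀ e ∈ inE (ball 0 (160 * w)), ω e = ω' e) →
      SH s w Z ω ⊆ SH s w Z ω' := by
    rintro ω ω' h a ⟨y, hy, hc⟩
    exact ⟨y, hy, hc.congr fun e h1 h2 => st3_fill_congr (h e ⟨h1, h2⟩)⟩
  exact Set.Subset.antisymm (key _ _ h) (key _ _ fun e he => (h e he).symm)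

/-- Conditions on the value of the cluster of `x`. -/
private def st3_Good (s : Src) (w ρ' : ℕ) (v' : Vert) (Z : Set Vert) (S : Set Vert) : Prop :=
  Z ⊆ S ∧ s.y ∉ S ∧ (∀ z ∈ S, z ∈ ball 0 (8 * w) ∨ (∃ a ∈ Z, z ∈ ball a (4 * ρ')) ∨
    ∃ a ∈ S, a ∈ sphere 0 (8 * w) ∧ z ∈ ball a (4 * ρ')) ∧ Disjoint S (ball v' (7 * ρ'))

/-- Stage 3: conditional FKG given the sealed cluster of `x`. -/
theorem stage3 (hK : CorrData w ρ v d Z Nev) (hKy : CorrData w ρ' v' d' Zy Ny)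
    (hS : CorrSep w ρ' v' Z Zy) (hρ' : 1 ≤ ρ') (h1 : 64 * ρ' ≤ ρ) (h2 : 64 * ρ ≤ w)
    (hv : v ∈ sphere 0 (8 * w)) (hv' : v' ∈ sphere 0 (8 * w)) {c : ℝ} (hc : 0 ≤ c)
    (hN : c ≤ Pr q Ny) :
    c * Pr q (Ev3 s w ρ' v' d Z) ≤ Pr q (Ev3 s w ρ' v' d Z ∩ Ny) := by
  classical
  have _ := h1
  have _ := h2
  have _ := hv
  have _ := hv'
  -- the finite set of edges
  obtain ⟨Λ, hΛ⟩ : ∃ Λ : Finset Edge, ∀ e ∈ inE (ball 0 (160 * w)), e ∈ Λ :=
    ⟨eRect (-(160 * w : ℕ)) (160 * w : ℕ) (-(160 * w : ℕ)) (160 * w : ℕ), fun e he => by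
      rw [mem_eRect]
      have h := he.1
      unfold ball at h
      simp only [Prod.fst_zero, Prod.snd_zero, zero_sub, zero_add] at h
      exact h⟩
  have hball : ball (0 : Vert) (8 * w) ⊆ ball 0 (160 * w) := by
    intro a ha
    simp only [mem_ball, Prod.fst_zero, Prod.snd_zero] at ha ⊢
    omega
  have hZ160 := corr_sub160 hK
  have hZy160 := corr_sub160 hKy
  have hDZ : ball (0 : Vert) (8 * w) ∪ Z ⊆ ball 0 (160 * w) := Set.union_subset hball hZ160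
  have hN1 : LocalOn Λ Ny := fun ω ω' h hω =>
    hKy.loc ω ω' (fun e he => h e (hΛ e ⟨hZy160 he.1, hZy160 he.2⟩)) hω
  -- the second corridor misses the cluster
  have hdis : ∀ S : Set Vert, st3_Good s w ρ' v' Z S → ∀ z ∈ Zy, z ∉ S := by
    rintro S ⟨-, -, hconf, hd⟩ z hz hzS
    have h57 : ball v' (5 * ρ') ⊆ ball v' (7 * ρ') := by
      intro a ha
      simp only [mem_ball] at ha ⊢
      omega
    rcases hconf z hzS with h | ⟨a, ha, h⟩ | ⟨a, ha, ha', h⟩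
    · exact Set.disjoint_left.1 hd hzS (h57 (corr_inter hKy ⟨hz, h⟩))
    · refine hS.far a ha z hz ?_
      simp only [mem_ball] at h ⊢
      push_cast at h ⊢
      omega
    · exact Set.disjoint_left.1 hd ha (hS.fringe z hz a ha' h)
  have main := markov_incr (Λ := Λ) (q := q) (c := c) (SH s w Z)
    (st3_Good s w ρ' v' Z)
    (fun S => touch (ball 0 (160 * w)) S)
    (fun S => {ω | Fence d (4 * w) (s.cut ω) (S ∩ (ball 0 (8 * w) ∪ Z)) s.x})
    (fun S => {ω | ∃ u ∈ sphere 0 (8 * w), u ∈ ball v' ρ' ∧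
      Conn (s.cut ω) (ball 0 (8 * w) \ S) s.y u}) (fun _ => Ny)
    (by
      intro i ω ω' h hω
      have h1 : SH s w Z ω = SH s w Z ω' := st3_SH_congr fun e he => h e (hΛ e he)
      change SH s w Z ω' = i
      rw [← h1]
      exact hω)
    (by
      rintro i ⟨hi, -⟩ ω ω' h hω
      exact locS_clus_fill (D := ball 0 (160 * w)) (X := {s.x}) hi (s.cut ω) (s.cut ω')
        (fun e he => st3_cut_congr (h e he.1)) hω)
    (by
      intro S ω ω' h hω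
      refine fence_congr (fun e he => ?_) (fun e he => ?_) hω
      · exact st3_cut_congr (h e (hΛ e ⟨hZ160 (hK.T_sub he.1), hZ160 (hK.T_sub he.2)⟩))
      · exact st3_cut_congr (h e (hΛ e ⟨hDZ he.1.2, hDZ he.2.2⟩)))
    (by
      rintro S ⟨hZS, -⟩ ω ω' h hω
      refine fence_congr (fun e he => ?_) (fun e he => ?_) hω
      · exact st3_cut_congr (h e ⟨⟨hZ160 (hK.T_sub he.1), hZ160 (hK.T_sub he.2)⟩,
          Or.inl (hZS (hK.T_sub he.1))⟩)
      · exact st3_cut_congr (h e ⟨⟨hDZ he.1.2, hDZ he.2.2⟩, Or.inl he.1.1⟩))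
    (by
      rintro _ ω ω' h ⟨u, h1, h2, h3⟩
      exact ⟨u, h1, h2, h3.congr fun e k1 k2 =>
        st3_cut_congr (h e (hΛ e ⟨hball k1.1, hball k2.1⟩))⟩)
    (by
      rintro _ _ ω ω' h ⟨u, h1, h2, h3⟩
      exact ⟨u, h1, h2, h3.mono le_rfl (st3_cut_incr h)⟩)
    (fun _ => hN1)
    (by
      intro S hG ω ω' h hω
      refine hKy.loc ω ω' (fun e he => h e ?_) hω
      rintro ⟨-, hS | hS⟩
      · exact hdis S hG _ he.1 hS
      · exact hdis S hG _ he.2 hS)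
    (fun _ _ => hKy.incr) (fun _ _ => hN) hc
  have e1 : {ω | st3_Good s w ρ' v' Z (SH s w Z ω) ∧
      ω ∈ {ω' | Fence d (4 * w) (s.cut ω') (SH s w Z ω ∩ (ball 0 (8 * w) ∪ Z)) s.x} ∧
      ω ∈ {ω' | ∃ u ∈ sphere 0 (8 * w), u ∈ ball v' ρ' ∧
        Conn (s.cut ω') (ball 0 (8 * w) \ SH s w Z ω) s.y u}} = Ev3 s w ρ' v' d Z := by
    ext ω
    constructor
    · rintro ⟨⟨hZ, hy, hconf, hd⟩, hF, hL⟩
      exact ⟨⟨hy, hF, hconf⟩, hL, hd⟩
    · rintro ⟨hC, hL, hd⟩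
      have hZ := Z_sub_SH_of_conf hK hC
      obtain ⟨hy, hF, hconf⟩ := hC
      exact ⟨⟨hZ, hy, hconf, hd⟩, hF, hL⟩
  have e2 : {ω | st3_Good s w ρ' v' Z (SH s w Z ω) ∧
      ω ∈ {ω' | Fence d (4 * w) (s.cut ω') (SH s w Z ω ∩ (ball 0 (8 * w) ∪ Z)) s.x} ∧
      ω ∈ {ω' | ∃ u ∈ sphere 0 (8 * w), u ∈ ball v' ρ' ∧
        Conn (s.cut ω') (ball 0 (8 * w) \ SH s w Z ω) s.y u} ∧ ω ∈ Ny} =
      Ev3 s w ρ' v' d Z ∩ Ny := by
    rw [← e1]
    ext ω
    simp only [Set.mem_inter_iff, Set.mem_ofPred_eq]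
    tauto
  rw [e1, e2] at main
  exact main

end Pool.Agent.H59.EX
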