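import Pool.Agent.H59.EX.Fact
import Pool.Agent.H59.EX.SealProb

/-!
# Outward separation: stage 4
-/

open MeasureTheory ProbabilityTheory unitInterval

namespace Pool.Agent.H59.EX

open Pool.Agent.H89.Perc Pool.Agent.H61.NC

variable {s : Src} {w ρ ρ' : ℕ} {v v' : Vert} {d d' : Side} {Z Zy : Set Vert} {Nev Ny : Set Config}
  {q : I}

private theorem st4_cut_congr {s : Src} {ω ω' : Config} {e : Edge} (h : ω e = ω' e) :
    s.cut ω e = s.cut ω' e := by
  unfold Src.cut closeS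
  rw [h]

private theorem st4_fill_congr {s : Src} {Z : Set Vert} {ω ω' : Config} {e : Edge}
    (h : ω e = ω' e) : fillV Z (s.cut ω) e = fillV Z (s.cut ω') e := by
  unfold fillV
  rw [st4_cut_congr h]

/-- A path depends only on the edges touching the cluster. -/
private theorem st4_conn_transfer {ω ω' : Config} {D : Set Vert} {S : Set Vert} {x u : Vert}
    (hS : ∀ a, Conn ω D x a → a ∈ S)
    (h : ∀ a b e, Joins e a b → a ∈ D → b ∈ D → a ∈ S → ω e = ω' e) (hc : Conn ω D x u) :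
    Conn ω' D x u := by
  refine hc.induction_right (P := fun u => Conn ω' D x u) (Conn.refl hc.mem_left) ?_
  rintro a b hxa ⟨ha, hb, e, hj, ho⟩ ih
  exact ih.tail ⟨ha, hb, e, hj, by rw [← h a b e hj ha hb (hS a hxa)]; exact ho⟩

/-- The clusters depend only on the edges of the domain. -/
private theorem st4_clus_congr {ω ω' : Config} {D X : Set Vert}
    (h : ∀ e ∈ inE D, ω e = ω' e) : clus ω D X = clus ω' D X := by
  ext a
  constructor
  · rintro ⟨x, hx, hc⟩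
    exact ⟨x, hx, hc.congr fun e h1 h2 => h e ⟨h1, h2⟩⟩
  · rintro ⟨x, hx, hc⟩
    exact ⟨x, hx, hc.congr fun e h1 h2 => (h e ⟨h1, h2⟩).symm⟩

/-- The cluster of `y` in `ball 0 (8 w) ∪ Zy` off the set `H`, with `Zy` filled. -/
private def st4_RR (s : Src) (w : ℕ) (Zy : Set Vert) (H : Set Vert) (ω : Config) : Set Vert :=
  clus (fillV Zy (s.cut ω)) ((ball 0 (8 * w) ∪ Zy) \ H) {s.y}

/-- The pair of clusters. -/
private def st4_X (s : Src) (w : ℕ) (Z Zy : Set Vert) (ω : Config) : Set Vert × Set Vert :=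
  (SH s w Z ω, st4_RR s w Zy (SH s w Z ω) ω)

/-- The determined edges. -/
private def st4_t (w : ℕ) (Zy : Set Vert) (i : Set Vert × Set Vert) : Set Edge :=
  touch (ball 0 (160 * w)) i.1 ∪ touch ((ball 0 (8 * w) ∪ Zy) \ i.1) i.2

/-- The point `y` of the source is far from `v'`. -/
private theorem st4_y_far (hρ : 1 ≤ ρ) (hw : 64 * ρ ≤ w) (hv : v ∈ sphere 0 (8 * w)) :
    s.y ∉ ball v (3 * ρ) := by
  intro h
  have h1 := s.hy
  have h2 := hv.2
  simp only [mem_ball, Prod.fst_zero, Prod.snd_zero] at h h1 h2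
  push_cast at h h1 h2
  omega

private theorem st4_y_mem_ball (hw : 1 ≤ w) : s.y ∈ ball 0 (8 * w) := by
  have h1 := s.hy
  simp only [mem_ball, Prod.fst_zero, Prod.snd_zero] at h1 ⊢
  push_cast at h1 ⊢
  omega

/-- The landing of `y` gives `Zy ⊆ R`. -/
private theorem st4_Zy_sub (hKy : CorrData w ρ' v' d' Zy Ny) {H : Set Vert} {ω : Config}
    (hd : Disjoint Zy H)
    (h : ∃ u ∈ sphere 0 (8 * w), u ∈ ball v' ρ' ∧ Conn (s.cut ω) (ball 0 (8 * w) \ H) s.y u) :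
    Zy ⊆ st4_RR s w Zy H ω := by
  obtain ⟨u, _, hu, hc⟩ := h
  have huZ : u ∈ Zy := by
    apply hKy.ball_sub
    simp only [mem_ball] at hu ⊢
    push_cast
    omega
  have hsub : Zy ⊆ (ball 0 (8 * w) ∪ Zy) \ H := fun a ha =>
    ⟨Or.inr ha, fun h => Set.disjoint_left.1 hd ha h⟩
  have huR : u ∈ st4_RR s w Zy H ω :=
    ⟨s.y, rfl, hc.mono (fun a ha => ⟨Or.inl ha.1, ha.2⟩) fun e he => fillV_true.2 (Or.inl he)⟩
  intro b hb
  exact clus_conn huR (conn_fillV hsub (hKy.conn u huZ b hb))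

/-- The pair of clusters depends only on the determined edges. -/
private theorem st4_X_congr {i : Set Vert × Set Vert} (hZ : Z ⊆ i.1) (hZy : Zy ⊆ i.2)
    {ω ω' : Config} (h : ∀ e ∈ st4_t w Zy i, ω e = ω' e) (hω : st4_X s w Z Zy ω = i) :
    st4_X s w Z Zy ω' = i := by
  have h1 : SH s w Z ω' = i.1 :=
    locS_clus_fill (D := ball 0 (160 * w)) (X := {s.x}) hZ (s.cut ω) (s.cut ω')
      (fun e he => st4_cut_congr (h e (Or.inl he.1))) (congrArg Prod.fst hω)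
  have h0 : SH s w Z ω = i.1 := congrArg Prod.fst hω
  have h2 : st4_RR s w Zy i.1 ω = i.2 := by
    have := congrArg Prod.snd hω
    rw [← h0]
    exact this
  have h3 : st4_RR s w Zy i.1 ω' = i.2 :=
    locS_clus_fill (D := (ball 0 (8 * w) ∪ Zy) \ i.1) (X := {s.y}) hZy (s.cut ω) (s.cut ω')
      (fun e he => st4_cut_congr (h e (Or.inr he.1))) h2
  refine Prod.ext h1 ?_
  change st4_RR s w Zy (SH s w Z ω') ω' = i.2
  rw [h1]
  exact h3

/-- The event depends only on the determined edges. -/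
private theorem st4_A_congr (hK : CorrData w ρ v d Z Nev) (hKy : CorrData w ρ' v' d' Zy Ny)
    (hS : CorrSep w ρ' v' Z Zy) (hρ' : 1 ≤ ρ') {ω ω' : Config}
    (h : ∀ e ∈ st4_t w Zy (st4_X s w Z Zy ω), ω e = ω' e)
    (hω : ω ∈ Ev3 s w ρ' v' d Z ∩ Ny) :
    st4_X s w Z Zy ω' = st4_X s w Z Zy ω ∧ ω' ∈ Ev3 s w ρ' v' d Z ∩ Ny := by
  obtain ⟨⟨hC, hL, hdis⟩, hN⟩ := hω
  have hZ : Z ⊆ SH s w Z ω := Z_sub_SH_of_conf hK hC
  have hdZ : Disjoint Zy (SH s w Z ω) := Zy_disj_SH hKy hS hρ' hC hdis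
  have hZy : Zy ⊆ st4_RR s w Zy (SH s w Z ω) ω := st4_Zy_sub hKy hdZ hL
  have hX := st4_X_congr (s := s) (w := w) (Z := Z) (i := st4_X s w Z Zy ω) hZ hZy h rfl
  refine ⟨hX, ?_⟩
  have h1 : SH s w Z ω' = SH s w Z ω := congrArg Prod.fst hX
  have hHW : SH s w Z ω ⊆ ball 0 (160 * w) := clus_sub
  obtain ⟨hy, hF, hconf⟩ := hC
  obtain ⟨u, hu, huv, hyu⟩ := hL
  refine ⟨⟨⟨?_, ?_, ?_⟩, ⟨u, hu, huv, ?_⟩, ?_⟩, ?_⟩
  · rw [h1]
    exact hy
  · rw [h1]
    refine fence_congr (fun e he => ?_) (fun e he => ?_) hF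
    · refine st4_cut_congr (h e (Or.inl ⟨⟨?_, ?_⟩, Or.inl ?_⟩))
      · exact hHW (hZ (hK.T_sub he.1))
      · exact hHW (hZ (hK.T_sub he.2))
      · exact hZ (hK.T_sub he.1)
    · exact st4_cut_congr (h e (Or.inl ⟨⟨hHW he.1.1, hHW he.2.1⟩, Or.inl he.1.1⟩))
  · rw [h1]
    exact hconf
  · rw [h1]
    refine st4_conn_transfer (S := st4_RR s w Zy (SH s w Z ω) ω) (fun a ha => ?_)
      (fun a b e hj ha hb haS => ?_) hyu
    · exact ⟨s.y, rfl, ha.mono (fun a ha => ⟨Or.inl ha.1, ha.2⟩)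
        fun e he => fillV_true.2 (Or.inl he)⟩
    · refine st4_cut_congr (h e (Or.inr ((touch_of_joins hj).2 ⟨⟨?_, ?_⟩, Or.inl haS⟩)))
      · exact ⟨Or.inl ha.1, ha.2⟩
      · exact ⟨Or.inl hb.1, hb.2⟩
  · rw [h1]
    exact hdis
  · refine hKy.loc ω ω' (fun e he => h e (Or.inr ⟨⟨⟨Or.inr he.1, ?_⟩, ⟨Or.inr he.2, ?_⟩⟩,
      Or.inl (hZy he.1)⟩)) hN
    · exact fun hh => Set.disjoint_left.1 hdZ he.1 hh
    · exact fun hh => Set.disjoint_left.1 hdZ he.2 hh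

private theorem st4_dom_sub (hK : CorrData w ρ v d Z Nev) (hKy : CorrData w ρ' v' d' Zy Ny) :
    dom d d' (4 * w) ⊆ ball 0 (160 * w) := by
  rintro a (h | h | h)
  · simp only [mem_ball, Prod.fst_zero, Prod.snd_zero] at h ⊢
    push_cast at h ⊢
    omega
  · exact corr_sub160 hK (hK.T_sub h)
  · exact corr_sub160 hKy (hKy.T_sub h)

private theorem st4_corr_dom_left (hK : CorrData w ρ v d Z Nev) :
    ball 0 (8 * w) ∪ Z ⊆ dom d d' (4 * w) := by
  have hb : ball (0 : Vert) (128 * w) ⊆ dom d d' (4 * w) := by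
    intro a ha
    refine Or.inl ?_
    simp only [mem_ball, Prod.fst_zero, Prod.snd_zero] at ha ⊢
    push_cast at ha ⊢
    omega
  rintro a (h | h)
  · apply hb
    simp only [mem_ball, Prod.fst_zero, Prod.snd_zero] at h ⊢
    push_cast at h ⊢
    omega
  · rcases hK.sub h with h | h
    · exact hb h
    · exact Or.inr (Or.inl h)

private theorem st4_corr_dom_right (hKy : CorrData w ρ' v' d' Zy Ny) :
    ball 0 (8 * w) ∪ Zy ⊆ dom d d' (4 * w) := by
  have hb : ball (0 : Vert) (128 * w) ⊆ dom d d' (4 * w) := by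
    intro a ha
    refine Or.inl ?_
    simp only [mem_ball, Prod.fst_zero, Prod.snd_zero] at ha ⊢
    push_cast at ha ⊢
    omega
  rintro a (h | h)
  · apply hb
    simp only [mem_ball, Prod.fst_zero, Prod.snd_zero] at h ⊢
    push_cast at h ⊢
    omega
  · rcases hKy.sub h with h | h
    · exact hb h
    · exact Or.inr (Or.inr h)

/-- Deterministic part of stage 4. -/
private theorem st4_det (hK : CorrData w ρ v d Z Nev) (hKy : CorrData w ρ' v' d' Zy Ny)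
    (hS : CorrSep w ρ' v' Z Zy) (hρ' : 4 ≤ ρ') (hρ : 64 * ρ' ≤ ρ)
    (hw : 64 * ρ ≤ w) {K : ℕ} (hwK : w ≤ K * ρ') (hv' : v' ∈ sphere 0 (8 * w)) {ω : Config}
    (h3 : ω ∈ Ev3 s w ρ' v' d Z) (hN : ω ∈ Ny)
    (hs : ω ∈ Seal (grid ρ' (160 * K)) ρ' (st4_t w Zy (st4_X s w Z Zy ω))) :
    ω ∈ Sep s d d' (4 * w) := by
  have hρ'1 : 1 ≤ ρ' := by omega
  have hw1 : 1 ≤ w := by omega
  have hw' : 64 * ρ' ≤ w := by omega
  obtain ⟨hC, hL, hdis⟩ := h3
  have hZ : Z ⊆ SH s w Z ω := Z_sub_SH_of_conf hK hC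
  have hdZ : Disjoint Zy (SH s w Z ω) := Zy_disj_SH hKy hS hρ'1 hC hdis
  have hZy : Zy ⊆ st4_RR s w Zy (SH s w Z ω) ω := st4_Zy_sub hKy hdZ hL
  obtain ⟨hy, hF, hconf⟩ := hC
  obtain ⟨u, hu, huv, hyu⟩ := hL
  set H : Set Vert := SH s w Z ω with hH
  set R : Set Vert := st4_RR s w Zy H ω with hR
  have hRsub : ∀ a ∈ R, a ∈ ball 0 (8 * w) ∪ Zy ∧ a ∉ H := fun a ha => clus_sub ha
  have hZyH : ∀ a ∈ Zy, a ∉ H := fun a ha h => Set.disjoint_left.1 hdZ ha h
  have hDW : ball (0 : Vert) (8 * w) ∪ Zy ⊆ ball 0 (160 * w) :=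
    (st4_corr_dom_right (d := d) hKy).trans (st4_dom_sub hK hKy)
  -- the edges of `Z ∪ Zy`
  have hZZ : ∀ {e : Edge} {a b : Vert}, Joins e a b → e ∈ inE (Z ∪ Zy) →
      (a ∈ Z ∧ b ∈ Z) ∨ (a ∈ Zy ∧ b ∈ Zy) := by
    intro e a b hj he
    have h1 := (inE_of_joins hj).1 he
    have hfar : ∀ {p p' : Vert}, p ∈ Z → p' ∈ Zy → ¬ p' ∈ ball p 1 := by
      intro p p' hp hp' hpp
      refine hS.far p hp p' hp' ?_
      simp only [mem_ball] at hpp ⊢
      push_cast at hpp ⊢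
      omega
    rcases h1 with ⟨h1 | h1, h2 | h2⟩
    · exact Or.inl ⟨h1, h2⟩
    · exact absurd (ball_of_joins hj.symm) (hfar h1 h2)
    · exact absurd (ball_of_joins hj) (hfar h2 h1)
    · exact Or.inr ⟨h1, h2⟩
  -- `H` is closed
  have hclosed : ∀ {e : Edge} {a b : Vert}, Joins e a b → fillV (Z ∪ Zy) (s.cut ω) e = true →
      a ∈ ball 0 (160 * w) → b ∈ ball 0 (160 * w) → a ∈ H → b ∈ H := by
    intro e a b hj ho ha hb haH
    have haH' := haH
    refine clus_step (ω := fillV Z (s.cut ω)) (D := ball 0 (160 * w)) (X := {s.x}) haH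
      ⟨ha, hb, e, hj, ?_⟩
    rw [fillV_true] at ho ⊢
    rcases ho with ho | ho
    · exact Or.inl ho
    · rcases hZZ hj ho with h | h
      · exact Or.inr ((inE_of_joins hj).2 h)
      · exact absurd haH' (hZyH a h.1)
  have hxH : s.x ∈ H := by
    refine ⟨s.x, rfl, Conn.refl ?_⟩
    have h1 := s.hx
    simp only [mem_ball, Prod.fst_zero, Prod.snd_zero] at h1 ⊢
    push_cast at h1 ⊢
    omega
  have hconnH : ∀ z, Conn (fillV (Z ∪ Zy) (s.cut ω)) (ball 0 (160 * w)) s.x z → z ∈ H := by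
    intro z hz
    refine hz.induction_right (P := fun z => z ∈ H) hxH ?_
    rintro a b _ ⟨ha, hb, e, hj, ho⟩ ih
    exact hclosed hj ho ha hb ih
  -- from the separated event to `W`
  have hTT : T d (4 * w) ∪ T d' (4 * w) ⊆ Z ∪ Zy := by
    rintro a (h | h)
    · exact Or.inl (hK.T_sub h)
    · exact Or.inr (hKy.T_sub h)
  have hlift : ∀ {a b : Vert},
      Conn (fillV (T d (4 * w) ∪ T d' (4 * w)) (s.cut ω)) (dom d d' (4 * w)) a b →
      Conn (fillV (Z ∪ Zy) (s.cut ω)) (ball 0 (160 * w)) a b := by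
    intro a b h
    exact h.mono (st4_dom_sub hK hKy) fun e he => fillV_mono hTT he
  have hyR : s.y ∈ R := ⟨s.y, rfl, Conn.refl ⟨Or.inl (st4_y_mem_ball hw1), hy⟩⟩
  set Ex : Set Vert := {a | a ∈ R ∧ ∃ b e, Joins e a b ∧ b ∉ ball 0 (8 * w) ∪ Zy} with hEx
  have conf : ∀ z, Conn (fillV (Z ∪ Zy) (s.cut ω)) (ball 0 (160 * w)) s.y z →
      z ∈ R ∨ (z ∉ H ∧ ∃ a ∈ Ex, z ∈ ball a (4 * ρ')) := by
    intro z hz
    refine seal_confine (ω := ω) (F := H) (t := st4_t w Zy (st4_X s w Z Zy ω))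
      (G := grid ρ' (160 * K)) ?_ hs ?_ ?_ ?_ ?_ ?_ hyR hz
    · intro e he ho
      rcases fillV_true.1 ho with h | h
      · exact cut_le h
      · exfalso
        rcases hZZ (joins_src_tgt e) h with h | h
        · exact he (Or.inl ⟨⟨corr_sub160 hK h.1, corr_sub160 hK h.2⟩, Or.inl (hZ h.1)⟩)
        · exact he (Or.inr ⟨⟨⟨Or.inr h.1, hZyH _ h.1⟩, ⟨Or.inr h.2, hZyH _ h.2⟩⟩,
            Or.inl (hZy h.1)⟩)
    · rintro a ⟨ha, -⟩
      refine exists_grid (by omega) ?_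
      have h1 := hDW (hRsub a ha).1
      have h2 : (160 * w : ℕ) ≤ 160 * K * ρ' := by
        calc 160 * w ≤ 160 * (K * ρ') := Nat.mul_le_mul_left _ hwK
          _ = 160 * K * ρ' := by ring
      have h3 : ((160 * w : ℕ) : ℤ) ≤ ((160 * K * ρ' : ℕ) : ℤ) := by exact_mod_cast h2
      simp only [mem_ball, Prod.fst_zero, Prod.snd_zero] at h1 ⊢
      omega
    · intro a b e hj ho haW hbW ha hb
      have hbH : b ∉ H := fun h => (hRsub a ha).2 (hclosed hj.symm ho hbW haW h)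
      have hb' : b ∉ ball 0 (8 * w) ∪ Zy := by
        intro h
        refine hb (clus_step ha ⟨hRsub a ha, ⟨h, hbH⟩, e, hj, ?_⟩)
        rw [fillV_true] at ho ⊢
        rcases ho with ho | ho
        · exact Or.inl ho
        · rcases hZZ hj ho with h | h
          · exact absurd (hZ h.1) (hRsub a ha).2
          · exact Or.inr ((inE_of_joins hj).2 h)
      refine ⟨⟨ha, b, e, hj, hb'⟩, hbH, ?_⟩
      rintro (h | h)
      · rcases ((touch_of_joins hj).1 h).2 with h | h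
        · exact (hRsub a ha).2 h
        · exact hbH h
      · exact hb' ((touch_of_joins hj).1 h).1.2.1
    · intro a b e hj ho haW hbW _ ha2 hb
      exact absurd (hclosed hj.symm ho hbW haW hb) ha2
    · rintro a b e hj _ _ _ ha1 ha2 hb1 hb2 (h | h)
      · rcases ((touch_of_joins hj).1 h).2 with h | h
        · exact ha2 h
        · exact hb2 h
      · rcases ((touch_of_joins hj).1 h).2 with h | h
        · exact ha1 h
        · exact hb1 h
    · intro a b e hj ho haW hbW _ ha2 hb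
      exact absurd (hclosed hj.symm ho hbW haW hb) ha2
  have h128 : ∀ {z : Vert}, z ∈ sphere 0 (32 * (4 * w)) → z ∈ sphere 0 (128 * w) := by
    intro z hz
    have e : 32 * (4 * w) = 128 * w := by ring
    rwa [e] at hz
  have hnear : ∀ {z a : Vert}, z ∈ sphere 0 (128 * w) → z ∈ ball a (4 * ρ') →
      a ∉ ball 0 (8 * w) := by
    intro z a hz hza ha
    have hz2 := hz.2
    simp only [mem_ball, Prod.fst_zero, Prod.snd_zero] at hza ha hz2
    push_cast at hza ha hz2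
    omega
  have hball : ∀ {z a : Vert}, z ∈ ball a (4 * ρ') → z ∈ ball a w := by
    intro z a h
    simp only [mem_ball] at h ⊢
    push_cast at h ⊢
    omega
  have hself : ∀ {z : Vert} {r : ℕ}, z ∈ ball z r := by
    intro z r
    exact self_mem_ball
  refine ⟨?_, ?_, ?_, ?_, ?_⟩
  · exact fence_mono (fun a ha => st4_corr_dom_left hK ha.2) (fun _ h => h) hF
  · -- the fence of `y`
    obtain ⟨z, hz, hf⟩ := hKy.hook ω hN (s.cut ω) (ball 0 (8 * w) \ H) u s.y hyu.symm huv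
      (st4_y_far hρ'1 hw' hv')
    have hcut : ∀ e ∈ inE Zy, ω e = s.cut ω e := fun e he =>
      (corr_cut hKy hρ'1 hw' hv' he).symm
    have hf' : Fence d' (4 * w) (s.cut ω) Zy z :=
      fence_congr (fun e he => hcut e ⟨hKy.T_sub he.1, hKy.T_sub he.2⟩) hcut hf
    have hsub := st4_corr_dom_right (d := d) hKy
    have hyz : Conn (s.cut ω) (dom d d' (4 * w)) s.y z :=
      (hyu.trans hz).mono_set fun a ha => hsub (Or.inl ha.1)
    exact fence_trans hyz (fence_mono (fun a ha => hsub (Or.inr ha)) (fun _ h => h) hf')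
  · intro h
    exact hy (hconnH _ (hlift h))
  · intro z hz h
    have hz' := h128 hz
    rcases hconf z (hconnH z (hlift h)) with h1 | ⟨a, ha, h1⟩ | ⟨a, _, ha, h1⟩
    · exact absurd h1 (hnear hz' hself)
    · exact hK.mouth z hz' a ha (hball h1)
    · exact absurd ha.1 (hnear hz' h1)
  · intro z hz h
    have hz' := h128 hz
    rcases conf z (hlift h) with h1 | ⟨-, a, ha, h1⟩
    · rcases (hRsub z h1).1 with h2 | h2
      · exact absurd h2 (hnear hz' hself)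
      · exact hKy.mouth z hz' z h2 hself
    · rcases (hRsub a ha.1).1 with h2 | h2
      · exact absurd h2 (hnear hz' h1)
      · exact hKy.mouth z hz' a h2 (hball h1)

/-- Stage 4: seal the cluster of `y`. -/
theorem stage4 (c : ℝ) (hc : 0 < c) (K : ℕ) : ∃ c' : ℝ, 0 < c' ∧ ∀ (s : Src) (w ρ ρ' : ℕ)
    (v v' : Vert) (d d' : Side) (Z Zy : Set Vert) (Nev Ny : Set Config) (n : ℕ) (q : I),
    CorrData w ρ v d Z Nev → CorrData w ρ' v' d' Zy Ny → CorrSep w ρ' v' Z Zy → 4 ≤ ρ' →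
    64 * ρ' ≤ ρ → 64 * ρ ≤ w → w ≤ K * ρ' → v ∈ sphere 0 (8 * w) → v' ∈ sphere 0 (8 * w) →
    w ≤ n → RSWreg c n q →
      c' * Pr q (Ev3 s w ρ' v' d Z ∩ Ny) ≤ Pr q (Sep s d d' (4 * w)) := by
  classical
  obtain ⟨c', hc', hlow⟩ := seal_lower c hc 1 ((2 * (160 * K) + 1) ^ 2)
  refine ⟨c', hc', fun s w ρ ρ' v v' d d' Z Zy Nev Ny n q hK hKy hS hρ' hρ hw hwK hv hv' hn hR =>
    ?_⟩
  have hρ'1 : 1 ≤ ρ' := by omega
  have hw1 : 1 ≤ w := by omega
  -- the finite set of edges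
  obtain ⟨Λ1, hΛ1⟩ : ∃ Λ : Finset Edge, ∀ e ∈ inE (ball 0 (160 * w)), e ∈ Λ :=
    ⟨eRect (-(160 * w : ℕ)) (160 * w : ℕ) (-(160 * w : ℕ)) (160 * w : ℕ), fun e he => by
      rw [mem_eRect]
      have h := he.1
      unfold ball at h
      simp only [Prod.fst_zero, Prod.snd_zero, zero_sub, zero_add] at h
      exact h⟩
  obtain ⟨Λ2, hΛ2⟩ := localOn_seal (grid ρ' (160 * K)) ρ'
  have hDW : ball (0 : Vert) (8 * w) ∪ Zy ⊆ ball 0 (160 * w) :=
    (st4_corr_dom_right (d := d) hKy).trans (st4_dom_sub hK hKy)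
  have hΛ : ∀ e ∈ inE (ball 0 (160 * w)), e ∈ Λ1 ∪ Λ2 := fun e he =>
    Finset.mem_union_left _ (hΛ1 e he)
  have hXc : ∀ ω ω' : Config, (∀ e ∈ Λ1 ∪ Λ2, ω e = ω' e) →
      st4_X s w Z Zy ω = st4_X s w Z Zy ω' := by
    intro ω ω' h
    have h1 : SH s w Z ω = SH s w Z ω' :=
      st4_clus_congr fun e he => st4_fill_congr (h e (hΛ e he))
    refine Prod.ext h1 ?_
    change st4_RR s w Zy (SH s w Z ω) ω = st4_RR s w Zy (SH s w Z ω') ω'
    rw [← h1]
    exact st4_clus_congr fun e he => st4_fill_congr (h e (hΛ e ⟨hDW he.1.1, hDW he.2.1⟩))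
  have htW : ∀ {i : Set Vert × Set Vert}, ∀ e ∈ st4_t w Zy i, e ∈ inE (ball 0 (160 * w)) := by
    rintro i e (he | he)
    · exact he.1
    · exact ⟨hDW he.1.1.1, hDW he.1.2.1⟩
  have main := markov_indep (Λ := Λ1 ∪ Λ2) (q := q) (c := c')
    (fun ω => st4_X s w Z Zy ω)
    (fun i => Z ⊆ i.1 ∧ Zy ⊆ i.2) (fun i => st4_t w Zy i)
    (fun i => {ω | st4_X s w Z Zy ω = i} ∩ (Ev3 s w ρ' v' d Z ∩ Ny))
    (fun i => Seal (grid ρ' (160 * K)) ρ' (st4_t w Zy i))
    ?_ ?_ ?_ ?_ ?_ ?_ ?_ hc'.le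
  · have e1 : Ev3 s w ρ' v' d Z ∩ Ny ⊆
        {ω | (Z ⊆ (st4_X s w Z Zy ω).1 ∧ Zy ⊆ (st4_X s w Z Zy ω).2) ∧
          ω ∈ {ω' | st4_X s w Z Zy ω' = st4_X s w Z Zy ω} ∩ (Ev3 s w ρ' v' d Z ∩ Ny)} := by
      intro ω hω
      have hC := hω.1.1
      exact ⟨⟨Z_sub_SH_of_conf hK hC,
        st4_Zy_sub hKy (Zy_disj_SH hKy hS hρ'1 hC hω.1.2.2) hω.1.2.1⟩, rfl, hω⟩
    refine le_trans (mul_le_mul_of_nonneg_left (Pr_mono e1) hc'.le) (le_trans main (Pr_mono ?_))
    rintro ω ⟨_, ⟨_, h3, hN⟩, hs⟩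
    exact st4_det hK hKy hS hρ' hρ hw hwK hv' h3 hN hs
  · intro i ω ω' h hω
    change st4_X s w Z Zy ω' = i
    rw [← hXc ω ω' h]
    exact hω
  · intro i hi ω ω' h hω
    exact st4_X_congr hi.1 hi.2 h hω
  · rintro i ω ω' h ⟨hω, hA⟩
    obtain ⟨h1, h2⟩ := st4_A_congr (ω' := ω') hK hKy hS hρ'1
      (fun e he => h e (hΛ e (htW e he))) hA
    exact ⟨h1.trans hω, h2⟩
  · rintro i hi ω ω' h ⟨hω, hA⟩
    obtain ⟨h1, h2⟩ := st4_A_congr (ω' := ω') hK hKy hS hρ'1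
      (fun e he => h e (by
        have hω' : st4_X s w Z Zy ω = i := hω
        rw [← hω']
        exact he)) hA
    exact ⟨h1.trans hω, h2⟩
  · intro i ω ω' h
    exact hΛ2 _ ω ω' fun e he => h e (Finset.mem_union_right _ he)
  · intro i _
    exact locS_seal _ _ _
  · intro i _
    exact hlow n ρ' q _ _ (by omega) hR (by omega) (by omega) (card_grid _ _)

end Pool.Agent.H59.EX
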