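import Pool.Agent.H59.EX.Corr

/-!
# Outward separation: definitions for the stage scheme (abstract corridors)

`CorrData w ρ v d Z Nev`: a corridor `Z` starting at the boundary vertex `v` of `ball 0 (8 w)` and
containing the target rectangle `T d (4 w)`; if the increasing event `Nev` of the edges inside `Z`
happens, every path coming out of `ball v ρ` is joined inside `Z` to a fence of the target.
-/

open MeasureTheory ProbabilityTheory unitInterval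

namespace Pool.Agent.H59.EX

open Pool.Agent.H89.Perc Pool.Agent.H61.NC

/-- A corridor with its crossing event. -/
structure CorrData (w ρ : ℕ) (v : Vert) (d : Side) (Z : Set Vert) (Nev : Set Config) : Prop where
  ball_sub : ball v (3 * ρ) ⊆ Z
  T_sub : T d (4 * w) ⊆ Z
  sub : Z ⊆ ball 0 (128 * w) ∪ T d (4 * w)
  inter : ∀ a ∈ Z, ∀ b ∈ ball 0 (8 * w), b ∈ ball a ρ → b ∈ ball v (5 * ρ)
  conn : ∀ a ∈ Z, ∀ b ∈ Z, Conn allOpen Z a b
  incr : Incr Nev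
  loc : LocS (inE Z) Nev
  hook : ∀ ω ∈ Nev, ∀ (η : Config) (D : Set Vert) (u u' : Vert), Conn η D u u' → u ∈ ball v ρ →
    u' ∉ ball v (3 * ρ) → ∃ z, Conn η D u z ∧ Fence d (4 * w) ω Z z
  mouth : ∀ z ∈ sphere 0 (128 * w), ∀ a ∈ Z, z ∈ ball a w → z ∈ Mouth d (4 * w)

/-- Separation of the corridor `Zx` from the corridor `Zy` which starts at `v'`. -/
structure CorrSep (w ρ' : ℕ) (v' : Vert) (Zx Zy : Set Vert) : Prop where
  far : ∀ a ∈ Zx, ∀ b ∈ Zy, b ∉ ball a (8 * ρ')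
  fringe : ∀ z ∈ Zy, ∀ a ∈ sphere 0 (8 * w), z ∈ ball a (4 * ρ') → a ∈ ball v' (7 * ρ')

/-- Cluster of the second point in `ball 0 (8 w)`. -/
def SY (s : Src) (w : ℕ) (ω : Config) : Set Vert := clus (s.cut ω) (ball 0 (8 * w)) {s.y}

/-- Cluster of the first point in `ball 0 (8 w) ∪ Z`, with `Z` filled. -/
def S1 (s : Src) (w : ℕ) (Z : Set Vert) (ω : Config) : Set Vert :=
  clus (fillV Z (s.cut ω)) (ball 0 (8 * w) ∪ Z) {s.x}

/-- Cluster of the first point in `ball 0 (160 w)`, with `Z` filled. -/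
def SH (s : Src) (w : ℕ) (Z : Set Vert) (ω : Config) : Set Vert :=
  clus (fillV Z (s.cut ω)) (ball 0 (160 * w)) {s.x}

/-- Stage 0: `x` lands near `v`, the cluster of `y` is far from `v`. -/
def Ev0 (s : Src) (w ρ : ℕ) (v : Vert) : Set Config :=
  {ω | (∃ u ∈ sphere 0 (8 * w), u ∈ ball v ρ ∧ Conn (s.cut ω) (ball 0 (8 * w)) s.x u) ∧
    (∃ u ∈ sphere 0 (8 * w), Conn (s.cut ω) (ball 0 (8 * w)) s.y u) ∧
    ¬ Conn (s.cut ω) (ball 0 (8 * w)) s.x s.y ∧ Disjoint (SY s w ω) (ball v (11 * ρ))}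

/-- The clusters of `x` (after gluing) and of `y` are nowhere both close to the same vertex of the
sphere. -/
def Good12 (s : Src) (w ρ' : ℕ) (Z : Set Vert) : Set Config :=
  {ω | ∀ z ∈ sphere 0 (8 * w), (S1 s w Z ω ∩ ball z (12 * ρ')).Nonempty →
    ¬ (SY s w ω ∩ ball z (12 * ρ')).Nonempty}

/-- The cluster of `x` is confined, contains a fence, and misses `y`. -/
def Conf (s : Src) (w ρ' : ℕ) (d : Side) (Z : Set Vert) : Set Config :=
  {ω | s.y ∉ SH s w Z ω ∧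
    Fence d (4 * w) (s.cut ω) (SH s w Z ω ∩ (ball 0 (8 * w) ∪ Z)) s.x ∧
    ∀ z ∈ SH s w Z ω, z ∈ ball 0 (8 * w) ∨ (∃ a ∈ Z, z ∈ ball a (4 * ρ')) ∨
      ∃ a ∈ SH s w Z ω, a ∈ sphere 0 (8 * w) ∧ z ∈ ball a (4 * ρ')}

/-- Stage 2 result. -/
def Ev2 (s : Src) (w ρ ρ' : ℕ) (v : Vert) (d : Side) (Z : Set Vert) : Set Config :=
  {ω | ω ∈ Conf s w ρ' d Z ∧ ∃ u ∈ sphere 0 (8 * w), u ∉ ball v (11 * ρ) ∧
    Conn (s.cut ω) (ball 0 (8 * w) \ SH s w Z ω) s.y u ∧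
    Disjoint (SH s w Z ω) (ball u (8 * ρ'))}

/-- Stage 3: `y` lands near `v'`. -/
def Ev3 (s : Src) (w ρ' : ℕ) (v' : Vert) (d : Side) (Z : Set Vert) : Set Config :=
  {ω | ω ∈ Conf s w ρ' d Z ∧ (∃ u ∈ sphere 0 (8 * w), u ∈ ball v' ρ' ∧
    Conn (s.cut ω) (ball 0 (8 * w) \ SH s w Z ω) s.y u) ∧
    Disjoint (SH s w Z ω) (ball v' (7 * ρ'))}

end Pool.Agent.H59.EX
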