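import Pool.Agent.H59.EX.Fact

/-!
# Outward separation: stage 1
-/

open MeasureTheory ProbabilityTheory unitInterval

namespace Pool.Agent.H59.EX

open Pool.Agent.H89.Perc Pool.Agent.H61.NC

variable {s : Src} {w ρ ρ' : ℕ} {v v' : Vert} {d d' : Side} {Z Zy : Set Vert} {Nev Ny : Set Config}
  {q : I}

private theorem st1_cut_congr {s : Src} {ω ω' : Config} {e : Edge} (h : ω e = ω' e) :
    s.cut ω e = s.cut ω' e := by
  unfold Src.cut closeS
  rw [h]

private theorem st1_cut_incr {s : Src} {ω ω' : Config} (h : ∀ e, ω e = true → ω' e = true)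
    (e : Edge) (he : s.cut ω e = true) : s.cut ω' e = true := by
  unfold Src.cut at he ⊢
  rw [closeS_true] at he ⊢
  exact ⟨h e he.1, he.2⟩

/-- The cluster of `y` depends on the edges of the ball only. -/
private theorem st1_SY_congr {s : Src} {w : ℕ} {ω ω' : Config}
    (h : ∀ e ∈ inE (ball 0 (8 * w)), ω e = ω' e) : SY s w ω = SY s w ω' := by
  have key : ∀ ω ω' : Config, (∀ e ∈ inE (ball 0 (8 * w)), ω e = ω' e) →
      SY s w ω ⊆ SY s w ω' := by
    rintro ω ω' h a ⟨y, hy, hc⟩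
    exact ⟨y, hy, hc.congr fun e h1 h2 => st1_cut_congr (h e ⟨h1, h2⟩)⟩
  exact Set.Subset.antisymm (key _ _ h) (key _ _ fun e he => (h e he).symm)

/-- Stage 1: conditional FKG given the cluster of `y`. -/
theorem stage1 (hK : CorrData w ρ v d Z Nev) (hρ : 1 ≤ ρ) (hw : 64 * ρ ≤ w)
    (hv : v ∈ sphere 0 (8 * w)) {c : ℝ} (hc : 0 ≤ c) (hN : c ≤ Pr q Nev) :
    c * Pr q (Ev0 s w ρ v) ≤ Pr q (Ev0 s w ρ v ∩ Nev) := by
  classical
  -- the finite set of edges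
  obtain ⟨Λ, hΛ⟩ : ∃ Λ : Finset Edge, ∀ e ∈ inE (ball 0 (160 * w)), e ∈ Λ :=
    ⟨eRect (-(160 * w : ℕ)) (160 * w : ℕ) (-(160 * w : ℕ)) (160 * w : ℕ), fun e he => by
      rw [mem_eRect]
      have h := he.1
      unfold ball at h
      simp only [Prod.fst_zero, Prod.snd_zero, zero_sub, zero_add] at h
      exact h⟩
  have hball : ball (0 : Vert) (8 * w) ⊆ ball 0 (160 * w) := by
    intro a ha
    simp only [mem_ball, Prod.fst_zero, Prod.snd_zero] at ha ⊢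
    omega
  have hΛD : ∀ e ∈ inE (ball (0 : Vert) (8 * w)), e ∈ Λ := fun e he =>
    hΛ e ⟨hball he.1, hball he.2⟩
  have hZ160 := corr_sub160 hK
  have hΛZ : ∀ e ∈ inE Z, e ∈ Λ := fun e he => hΛ e ⟨hZ160 he.1, hZ160 he.2⟩
  have hN1 : LocalOn Λ Nev := fun ω ω' h hω => hK.loc ω ω' (fun e he => h e (hΛZ e he)) hω
  have main := markov_incr (Λ := Λ) (q := q) (c := c) (SY s w)
    (fun S => s.x ∉ S ∧ (∃ u ∈ sphere 0 (8 * w), u ∈ S) ∧ Disjoint S (ball v (11 * ρ)))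
    (fun S => touch (ball 0 (8 * w)) S) (fun _ => Set.univ)
    (fun _ => {ω | ∃ u ∈ sphere 0 (8 * w), u ∈ ball v ρ ∧
      Conn (s.cut ω) (ball 0 (8 * w)) s.x u}) (fun _ => Nev)
    (by
      intro i ω ω' h hω
      have h1 : SY s w ω = SY s w ω' := st1_SY_congr fun e he => h e (hΛD e he)
      change SY s w ω' = i
      rw [← h1]
      exact hω)
    (by
      intro i _ ω ω' h hω
      exact locS_clus (ball 0 (8 * w)) {s.y} i (s.cut ω) (s.cut ω')
        (fun e he => st1_cut_congr (h e he)) hω)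
    (fun _ ω ω' _ _ => trivial)
    (fun _ _ ω ω' _ _ => trivial)
    (by
      rintro _ ω ω' h ⟨u, h1, h2, h3⟩
      exact ⟨u, h1, h2, h3.congr fun e k1 k2 => st1_cut_congr (h e (hΛD e ⟨k1, k2⟩))⟩)
    (by
      rintro _ _ ω ω' h ⟨u, h1, h2, h3⟩
      exact ⟨u, h1, h2, h3.mono le_rfl (st1_cut_incr h)⟩)
    (fun _ => hN1)
    (by
      rintro S ⟨_, _, hd⟩ ω ω' h hω
      refine hK.loc ω ω' (fun e he => h e ?_) hω
      rintro ⟨hD, hS⟩
      have hin := corr_inter hK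
      have h5 : ball v (5 * ρ) ⊆ ball v (11 * ρ) := by
        intro a ha
        simp only [mem_ball] at ha ⊢
        omega
      rcases hS with hS | hS
      · exact Set.disjoint_left.1 hd hS (h5 (hin ⟨he.1, hD.1⟩))
      · exact Set.disjoint_left.1 hd hS (h5 (hin ⟨he.2, hD.2⟩)))
    (fun _ _ => hK.incr) (fun _ _ => hN) hc
  have e1 : {ω | (s.x ∉ SY s w ω ∧ (∃ u ∈ sphere 0 (8 * w), u ∈ SY s w ω) ∧
      Disjoint (SY s w ω) (ball v (11 * ρ))) ∧ ω ∈ (Set.univ : Set Config) ∧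
      ω ∈ {ω | ∃ u ∈ sphere 0 (8 * w), u ∈ ball v ρ ∧
        Conn (s.cut ω) (ball 0 (8 * w)) s.x u}} = Ev0 s w ρ v := by
    ext ω
    unfold Ev0
    simp only [SY, mem_clus_single, Set.mem_univ, true_and, Set.mem_ofPred_eq]
    rw [conn_comm (u := s.x) (v := s.y)]
    tauto
  have e2 : {ω | (s.x ∉ SY s w ω ∧ (∃ u ∈ sphere 0 (8 * w), u ∈ SY s w ω) ∧
      Disjoint (SY s w ω) (ball v (11 * ρ))) ∧ ω ∈ (Set.univ : Set Config) ∧
      ω ∈ {ω | ∃ u ∈ sphere 0 (8 * w), u ∈ ball v ρ ∧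
        Conn (s.cut ω) (ball 0 (8 * w)) s.x u} ∧ ω ∈ Nev} = Ev0 s w ρ v ∩ Nev := by
    rw [← e1]
    ext ω
    simp only [Set.mem_inter_iff, Set.mem_ofPred_eq]
    tauto
  rw [e1, e2] at main
  exact main

end Pool.Agent.H59.EX
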